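import Pool.Agent.Helper707.EC.Defs

set_option autoImplicit false
set_option maxHeartbeats 1000000

open Matrix Topology
open scoped ContDiff ComplexOrder Matrix.Norms.L2Operator

namespace MP2482e4

namespace J1x


/-- matrices as functions, as a continuous linear equivalence -/
noncomputable def matE (n : ℕ) : Mat n ≃L[ℝ] (Fin n → Fin n → ℂ) :=
  (Matrix.ofLinearEquiv (m := Fin n) (n := Fin n) (α := ℂ) ℝ).symm.toContinuousLinearEquiv

theorem matE_apply {n : ℕ} (A : Mat n) (i j : Fin n) : matE n A i j = A i j := rfl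

theorem smoothMat_iff {k n : ℕ} (F : (Fin k → ℝ) → Mat n) (U : Set (Fin k → ℝ)) :
    SmoothMat F U ↔ ContDiffOn ℝ ∞ F U := by
  rw [← (matE n).comp_contDiffOn_iff, contDiffOn_pi]
  unfold SmoothMat
  refine forall_congr' fun i => ?_
  rw [contDiffOn_pi]
  rfl

theorem dirD_eq {k n : ℕ} {F : (Fin k → ℝ) → Mat n} {u : Fin k → ℝ}
    (h : DifferentiableAt ℝ F u) (v : Fin k → ℝ) : dirD F u v = fderiv ℝ F u v := by
  funext i j
  have h1 : HasFDerivAt (fun x => matE n (F x)) (((matE n) : Mat n →L[ℝ] _) ∘L fderiv ℝ F u) u :=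
    (matE n).hasFDerivAt.comp u h.hasFDerivAt
  have h2 := hasFDerivAt_pi'.1 (hasFDerivAt_pi'.1 h1 i) j
  have h3 := h2.fderiv
  unfold dirD
  have h4 : (fun x => F x i j) = fun x => matE n (F x) i j := rfl
  rw [h4, h3]
  rfl

end J1x

alias smoothMat_iff := J1x.smoothMat_iff
alias dirD_eq := J1x.dirD_eq

end MP2482e4
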