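import Pool.Agent.Helper707.EC.Defs

set_option autoImplicit false
set_option maxHeartbeats 1000000

open Matrix Topology
open scoped ContDiff ComplexOrder Matrix.Norms.L2Operator

namespace MP2482e4

namespace J14x


theorem trace_ann_real {n : ℕ} {A : Mat n} (hA : A.IsHermitian) : A.trace.im = 0 := by
  have h1 : star A.trace = A.trace := by
    rw [← Matrix.trace_conjTranspose, hA]
  have h2 := congrArg Complex.im h1
  simp at h2
  linarith

theorem trace_ann {n : ℕ} {A : Mat n} (hA : A.IsHermitian)
    (h : ∀ Y ∈ tangentS n, (A * Y).trace.re = 0) : ∃ s : ℝ, A = s • (1 : Mat n) := by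
  rcases Nat.eq_zero_or_pos n with hn | hn
  · subst hn
    exact ⟨0, Matrix.ext fun i => i.elim0⟩
  · obtain ⟨s, hs⟩ : ∃ s : ℝ, s = A.trace.re / n := ⟨_, rfl⟩
    obtain ⟨B, hB⟩ : ∃ B : Mat n, B = A - s • (1 : Mat n) := ⟨_, rfl⟩
    have hn0 : (n : ℝ) ≠ 0 := by exact_mod_cast hn.ne'
    have hsH : (s • (1 : Mat n)).IsHermitian := by
      unfold Matrix.IsHermitian
      rw [Matrix.conjTranspose_smul, Matrix.conjTranspose_one]
      simp
    have hBH : B.IsHermitian := by rw [hB]; exact hA.sub hsH
    have hBt : B.trace = 0 := by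
      rw [hB, Matrix.trace_sub, Matrix.trace_smul, Matrix.trace_one, Fintype.card_fin]
      apply Complex.ext
      · rw [hs]
        simp
        field_simp
        simp
      · simp [trace_ann_real hA]
    have h1 := h B ⟨hBH, hBt⟩
    have hAB : A = B + s • (1 : Mat n) := by rw [hB]; abel
    have h2 : (A * B).trace = (Bᴴ * B).trace := by
      rw [hBH]
      conv_lhs => rw [hAB]
      rw [add_mul, Matrix.trace_add, Matrix.smul_mul, Matrix.one_mul, Matrix.trace_smul, hBt,
        smul_zero, add_zero]
    have h3 : 0 ≤ (Bᴴ * B).trace := (Matrix.posSemidef_conjTranspose_mul_self B).trace_nonneg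
    have h4 : (Bᴴ * B).trace = 0 := by
      rw [h2] at h1
      have h5 := (Complex.le_def.1 h3).2
      exact Complex.ext h1 h5.symm
    have h5 : B = 0 := Matrix.trace_conjTranspose_mul_self_eq_zero_iff.1 h4
    exact ⟨s, by rw [hAB, h5, zero_add]⟩

end J14x

alias trace_ann := J14x.trace_ann

end MP2482e4
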