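import Pool.Agent.Helper707.EC.Defs

set_option autoImplicit false
set_option maxHeartbeats 1000000

open Matrix Topology
open scoped ContDiff ComplexOrder Matrix.Norms.L2Operator

namespace MP2482e4

namespace J15x


theorem immersion_embedding {k : ℕ} {G : Type*} [NormedAddCommGroup G] [NormedSpace ℝ G]
    [FiniteDimensional ℝ G] (φ : (Fin k → ℝ) → G) (hφ : ContDiff ℝ ∞ φ)
    (hinj : Function.Injective (fderiv ℝ φ 0)) :
    ∃ r > 0, (∀ x ∈ Metric.ball (0 : Fin k → ℝ) r, Function.Injective (fderiv ℝ φ x)) ∧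
      IsEmbedding (fun u : Metric.ball (0 : Fin k → ℝ) r => φ u) := by
  obtain ⟨R0, hR0⟩ := LinearMap.exists_leftInverse_of_injective
    (fderiv ℝ φ 0 : (Fin k → ℝ) →ₗ[ℝ] G) (LinearMap.ker_eq_bot.2 hinj)
  set R : G →L[ℝ] (Fin k → ℝ) := LinearMap.toContinuousLinearMap R0 with hR
  have hstrict : HasStrictFDerivAt φ (fderiv ℝ φ 0) 0 :=
    hφ.contDiffAt.hasStrictFDerivAt (by simp)
  have hg : HasStrictFDerivAt (fun x => R (φ x))
      ((ContinuousLinearEquiv.refl ℝ (Fin k → ℝ) : (Fin k → ℝ) ≃L[ℝ] (Fin k → ℝ)) :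
        (Fin k → ℝ) →L[ℝ] (Fin k → ℝ)) 0 := by
    have h1 := R.hasStrictFDerivAt.comp (0 : Fin k → ℝ) hstrict
    have h2 : R.comp (fderiv ℝ φ 0) =
        ((ContinuousLinearEquiv.refl ℝ (Fin k → ℝ) : (Fin k → ℝ) ≃L[ℝ] (Fin k → ℝ)) :
        (Fin k → ℝ) →L[ℝ] (Fin k → ℝ)) := by
      ext1 v
      have h3 := LinearMap.congr_fun hR0 v
      exact h3
    rw [← h2]
    exact h1
  set e := hg.toOpenPartialHomeomorph (fun x => R (φ x)) with he
  have h0 : (0 : Fin k → ℝ) ∈ e.source := hg.mem_toOpenPartialHomeomorph_source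
  have hopen : IsOpen {x : Fin k → ℝ | Function.Injective (fderiv ℝ φ x)} := by
    have h1 : Continuous (fderiv ℝ φ) := hφ.continuous_fderiv (by simp)
    exact (ContinuousLinearMap.isOpen_injective (𝕜 := ℝ) (E := Fin k → ℝ) (F := G)).preimage h1
  obtain ⟨r, hr, hsub⟩ := Metric.isOpen_iff.1 (e.open_source.inter hopen) 0 ⟨h0, hinj⟩
  refine ⟨r, hr, fun x hx => (hsub hx).2, ?_⟩
  have h1 : IsEmbedding (e.source.restrict e) := e.isOpenEmbedding_restrict.isEmbedding
  have h2 : Metric.ball (0 : Fin k → ℝ) r ⊆ e.source := fun x hx => (hsub hx).1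
  have h3 := h1.comp (IsEmbedding.inclusion h2)
  refine IsEmbedding.of_comp (g := R) (hφ.continuous.comp continuous_subtype_val) R.continuous ?_
  exact h3

end J15x

alias immersion_embedding := J15x.immersion_embedding

end MP2482e4
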