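import Pool.Agent.Helper707.EC.Defs

set_option autoImplicit false
set_option maxHeartbeats 1000000

open Matrix Topology
open scoped ContDiff ComplexOrder Matrix.Norms.L2Operator

namespace MP2482e4

namespace J16x


theorem pw_aux_spec_pos {n : ℕ} {ρ : Mat n} (hρ : ρ.PosDef) : ∀ x ∈ spectrum ℝ ρ, 0 < x := by
  intro x hx
  rw [hρ.isHermitian.spectrum_real_eq_range_eigenvalues] at hx
  obtain ⟨i, rfl⟩ := hx
  exact hρ.eigenvalues_pos i

theorem pw_aux_cont {n : ℕ} {ρ : Mat n} (hρ : ρ.PosDef) (q : ℝ) :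
    ContinuousOn (fun t : ℝ => t ^ q) (spectrum ℝ ρ) := by
  intro x hx
  exact (Real.continuousAt_rpow_const x q (Or.inl (pw_aux_spec_pos hρ x hx).ne')).continuousWithinAt

theorem pw_posDef {n : ℕ} {ρ : Mat n} (hρ : ρ.PosDef) (q : ℝ) : (pw ρ q).PosDef := by
  have hsa : IsSelfAdjoint ρ := hρ.isHermitian.isSelfAdjoint
  have hH : (pw ρ q).IsHermitian := by
    have : IsSelfAdjoint (pw ρ q) := cfc_predicate _ _
    exact this
  rw [hH.posDef_iff_eigenvalues_pos]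
  intro i
  have hi : hH.eigenvalues i ∈ spectrum ℝ (pw ρ q) := by
    rw [hH.spectrum_real_eq_range_eigenvalues]
    exact ⟨i, rfl⟩
  unfold pw at hi
  rw [cfc_map_spectrum (fun t : ℝ => t ^ q) ρ hsa (pw_aux_cont hρ q)] at hi
  obtain ⟨x, hx, hxi⟩ := hi
  have h3 : 0 < (fun t : ℝ => t ^ q) x := Real.rpow_pos_of_pos (pw_aux_spec_pos hρ x hx) q
  exact lt_of_lt_of_eq h3 hxi

theorem pw_pw {n : ℕ} {ρ : Mat n} (hρ : ρ.PosDef) (q r : ℝ) :
    pw (pw ρ q) r = pw ρ (q * r) := by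
  have hsa : IsSelfAdjoint ρ := hρ.isHermitian.isSelfAdjoint
  unfold pw
  have h2 : ContinuousOn (fun t : ℝ => t ^ r) ((fun t : ℝ => t ^ q) '' spectrum ℝ ρ) := by
    rintro _ ⟨x, hx, rfl⟩
    exact (Real.continuousAt_rpow_const _ r
      (Or.inl (Real.rpow_pos_of_pos (pw_aux_spec_pos hρ x hx) q).ne')).continuousWithinAt
  rw [← cfc_comp (fun t : ℝ => t ^ r) (fun t : ℝ => t ^ q) ρ hsa h2 (pw_aux_cont hρ q)]
  apply cfc_congr
  intro x hx
  exact (Real.rpow_mul (pw_aux_spec_pos hρ x hx).le q r).symm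

theorem pw_one_exp {n : ℕ} {ρ : Mat n} (hρ : ρ.PosDef) : pw ρ 1 = ρ := by
  have hsa : IsSelfAdjoint ρ := hρ.isHermitian.isSelfAdjoint
  unfold pw
  simp only [Real.rpow_one]
  exact cfc_id' ℝ ρ hsa

theorem pw_smul {n : ℕ} {ρ : Mat n} (hρ : ρ.PosDef) {c : ℝ} (hc : 0 < c) (q : ℝ) :
    pw (c • ρ) q = c ^ q • pw ρ q := by
  have hsa : IsSelfAdjoint ρ := hρ.isHermitian.isSelfAdjoint
  have h1 : c • ρ = cfc (fun t : ℝ => c * t) ρ := by
    rw [cfc_const_mul c (fun t : ℝ => t) ρ (by fun_prop), cfc_id' ℝ ρ hsa]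
  have h2 : ContinuousOn (fun t : ℝ => t ^ q) ((fun t : ℝ => c * t) '' spectrum ℝ ρ) := by
    rintro _ ⟨x, hx, rfl⟩
    exact (Real.continuousAt_rpow_const _ q
      (Or.inl (mul_pos hc (pw_aux_spec_pos hρ x hx)).ne')).continuousWithinAt
  unfold pw
  rw [h1, ← cfc_comp (fun t : ℝ => t ^ q) (fun t : ℝ => c * t) ρ hsa h2 (by fun_prop),
    ← cfc_const_mul (c ^ q) (fun t : ℝ => t ^ q) ρ (pw_aux_cont hρ q)]
  apply cfc_congr
  intro x hx
  exact Real.mul_rpow hc.le (pw_aux_spec_pos hρ x hx).le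

end J16x

alias pw_posDef := J16x.pw_posDef
alias pw_pw := J16x.pw_pw
alias pw_one_exp := J16x.pw_one_exp
alias pw_smul := J16x.pw_smul

end MP2482e4
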