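import Pool.Agent.Helper707.EC.Defs

set_option autoImplicit false
set_option maxHeartbeats 1000000

open Matrix Topology
open scoped ContDiff ComplexOrder Matrix.Norms.L2Operator

namespace MP2482e4

namespace J4x


theorem anti_inj {n : ℕ} {τ A : Mat n} (hτ : τ.PosDef) (h : A * τ + τ * A = 0) : A = 0 := by
  have h1 : ∀ i, 0 ≤ (Aᴴ * τ * A) i i := fun i =>
    (hτ.posSemidef.conjTranspose_mul_mul_same A).diag_nonneg
  have h2 : ∀ i, 0 ≤ (A * τ * Aᴴ) i i := fun i =>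
    (hτ.posSemidef.mul_mul_conjTranspose_same A).diag_nonneg
  have h3 : ∑ i, (Aᴴ * τ * A) i i + ∑ i, (A * τ * Aᴴ) i i = 0 := by
    have e1 : ∑ i, (Aᴴ * τ * A) i i = Matrix.trace (Aᴴ * τ * A) := rfl
    have e2 : ∑ i, (A * τ * Aᴴ) i i = Matrix.trace (A * τ * Aᴴ) := rfl
    rw [e1, e2, Matrix.trace_mul_comm (A * τ) Aᴴ, Matrix.mul_assoc Aᴴ τ A, ← Matrix.trace_add,
      ← Matrix.mul_add, add_comm (τ * A), h, Matrix.mul_zero, Matrix.trace_zero]
  have h4 : ∑ i, (Aᴴ * τ * A) i i = 0 := by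
    have a1 : 0 ≤ ∑ i, (Aᴴ * τ * A) i i := Finset.sum_nonneg (fun i _ => h1 i)
    have a2 : 0 ≤ ∑ i, (A * τ * Aᴴ) i i := Finset.sum_nonneg (fun i _ => h2 i)
    exact ((add_eq_zero_iff_of_nonneg a1 a2).1 h3).1
  rw [Finset.sum_eq_zero_iff_of_nonneg (fun i _ => h1 i)] at h4
  ext j i
  have h5 := h4 i (Finset.mem_univ i)
  have h6 : star (A.col i) ⬝ᵥ (τ *ᵥ (A.col i)) = 0 := by
    rw [← h5, Matrix.mul_assoc]
    simp only [Matrix.mul_apply, dotProduct, Matrix.mulVec, Matrix.conjTranspose_apply,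
      Pi.star_apply, Matrix.col_apply]
  have h7 : A.col i = 0 := by
    by_contra hne
    have := hτ.dotProduct_mulVec_pos hne
    rw [h6] at this
    exact lt_irrefl _ this
  have := congrFun h7 j
  simpa using this

theorem anti_herm {n : ℕ} {τ A : Mat n} (hτ : τ.PosDef) (h : (A * τ + τ * A).IsHermitian) :
    A.IsHermitian := by
  have h1 : (Aᴴ - A) * τ + τ * (Aᴴ - A) = 0 := by
    have h2 := h.eq
    rw [Matrix.conjTranspose_add, Matrix.conjTranspose_mul, Matrix.conjTranspose_mul,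
      hτ.isHermitian.eq] at h2
    rw [Matrix.sub_mul, Matrix.mul_sub]
    have e : Aᴴ * τ - A * τ + (τ * Aᴴ - τ * A) = (τ * Aᴴ + Aᴴ * τ) - (A * τ + τ * A) := by abel
    rw [e, h2, sub_self]
  have h3 := anti_inj hτ h1
  exact sub_eq_zero.1 h3

/-- the anticommutator as a bilinear map -/
noncomputable def antiJ (n : ℕ) : Mat n →L[ℝ] (Mat n →L[ℝ] Mat n) :=
  ContinuousLinearMap.mul ℝ (Mat n) + (ContinuousLinearMap.mul ℝ (Mat n)).flip

theorem antiJ_apply (n : ℕ) (τ A : Mat n) : antiJ n τ A = A * τ + τ * A := by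
  simp [antiJ, add_comm]

theorem antiJ_equiv {n : ℕ} {τ : Mat n} (hτ : τ.PosDef) :
    ∃ e : Mat n ≃L[ℝ] Mat n, (e : Mat n →L[ℝ] Mat n) = antiJ n τ := by
  have hinj : Function.Injective (antiJ n τ).toLinearMap := by
    rw [injective_iff_map_eq_zero]
    intro A hA
    apply anti_inj hτ
    rw [← antiJ_apply]
    exact hA
  let e0 := LinearEquiv.ofInjectiveEndo (antiJ n τ).toLinearMap hinj
  refine ⟨e0.toContinuousLinearEquiv, ?_⟩
  ext1 A
  rfl

theorem anti_inverse {X : Type*} [NormedAddCommGroup X] [NormedSpace ℝ X] {n : ℕ} {U : Set X}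
    (θ : X → Mat n) (hθ : ContDiffOn ℝ ∞ θ U) (hpd : ∀ x ∈ U, (θ x).PosDef) :
    ∃ S : X → (Mat n →L[ℝ] Mat n), ContDiffOn ℝ ∞ S U ∧
      ∀ x ∈ U, ∀ Y, S x Y * θ x + θ x * S x Y = Y := by
  refine ⟨fun x => ContinuousLinearMap.inverse (antiJ n (θ x)), ?_, ?_⟩
  · intro x hx
    obtain ⟨e, he⟩ := antiJ_equiv (hpd x hx)
    have h1 : ContDiffAt ℝ ∞ ContinuousLinearMap.inverse (antiJ n (θ x)) := by
      rw [← he]
      exact contDiffAt_map_inverse e
    have h0 : ContDiff ℝ ∞ (fun τ : Mat n => antiJ n τ) :=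
      ContinuousLinearMap.contDiff (𝕜 := ℝ) (E := Mat n) (F := Mat n →L[ℝ] Mat n) (antiJ n)
    have h2 : ContDiffWithinAt ℝ ∞ (fun x => antiJ n (θ x)) U x :=
      h0.contDiffAt.comp_contDiffWithinAt x (hθ x hx)
    exact h1.comp_contDiffWithinAt x h2
  · intro x hx Y
    obtain ⟨e, he⟩ := antiJ_equiv (hpd x hx)
    rw [← antiJ_apply]
    show antiJ n (θ x) (ContinuousLinearMap.inverse (antiJ n (θ x)) Y) = Y
    rw [← he, ContinuousLinearMap.inverse_equiv]
    simp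

end J4x

alias anti_inj := J4x.anti_inj
alias anti_herm := J4x.anti_herm
alias anti_inverse := J4x.anti_inverse

end MP2482e4
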