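import Pool.Agent.Helper707.EC.Defs

set_option autoImplicit false
set_option maxHeartbeats 1000000

open Matrix Topology
open scoped ContDiff ComplexOrder Matrix.Norms.L2Operator

namespace MP2482e4

namespace J5ax


theorem ecj5_diff {𝔸 : Type} [NormedRing 𝔸] [NormedAlgebra ℝ 𝔸] [CompleteSpace 𝔸] (H : 𝔸) :
    HasFDerivAt (NormedSpace.exp : 𝔸 → 𝔸) (fderiv ℝ (NormedSpace.exp : 𝔸 → 𝔸) H) H :=
  (NormedSpace.exp_analytic (𝕂 := ℝ) H).differentiableAt.hasFDerivAt

theorem ecj5_comm {𝔸 : Type} [NormedRing 𝔸] [NormedAlgebra ℝ 𝔸] [CompleteSpace 𝔸] (H X : 𝔸)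
    (h : Commute H X) :
    fderiv ℝ (NormedSpace.exp : 𝔸 → 𝔸) H X = NormedSpace.exp H * X := by
  letI : NormedAlgebra ℚ 𝔸 := NormedAlgebra.restrictScalars ℚ ℝ 𝔸
  have h1 : HasDerivAt (fun t : ℝ => H + t • X) X 0 := by
    have := ((hasDerivAt_id (0 : ℝ)).smul_const X).const_add H
    simpa using this
  have h2 : HasDerivAt (fun t : ℝ => NormedSpace.exp (H + t • X))
      (fderiv ℝ (NormedSpace.exp : 𝔸 → 𝔸) H X) 0 := by
    have h3 := ecj5_diff H
    have e : H = H + (0 : ℝ) • X := by simp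
    have h4 : HasFDerivAt (NormedSpace.exp : 𝔸 → 𝔸) (fderiv ℝ (NormedSpace.exp : 𝔸 → 𝔸) H)
      ((fun t : ℝ => H + t • X) 0) := by
      simpa using h3
    exact h4.comp_hasDerivAt (0 : ℝ) h1
  have h5 : HasDerivAt (fun t : ℝ => NormedSpace.exp (H + t • X))
      (NormedSpace.exp H * X) 0 := by
    have h6 := (hasDerivAt_exp_smul_const (𝕂 := ℝ) X (0 : ℝ)).const_mul (NormedSpace.exp H)
    simp only [zero_smul, NormedSpace.exp_zero, one_mul] at h6
    refine h6.congr_of_eventuallyEq (Filter.Eventually.of_forall fun t => ?_)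
    exact NormedSpace.exp_add_of_commute (h.smul_right t)
  exact h2.unique h5

theorem ecj5_brk {𝔸 : Type} [NormedRing 𝔸] [NormedAlgebra ℝ 𝔸] [CompleteSpace 𝔸] (H Y : 𝔸) :
    fderiv ℝ (NormedSpace.exp : 𝔸 → 𝔸) H (H * Y - Y * H) =
      NormedSpace.exp H * Y - Y * NormedSpace.exp H := by
  letI : NormedAlgebra ℚ 𝔸 := NormedAlgebra.restrictScalars ℚ ℝ 𝔸
  have hexp : ∀ t : ℝ, NormedSpace.exp (t • Y) * NormedSpace.exp (t • (-Y)) = 1 := by
    intro t
    rw [← NormedSpace.exp_add_of_commute]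
    · simp
    · rw [smul_neg]; exact (Commute.refl (t • Y)).neg_right
  have hexp' : ∀ t : ℝ, NormedSpace.exp (t • (-Y)) * NormedSpace.exp (t • Y) = 1 := by
    intro t
    rw [← NormedSpace.exp_add_of_commute]
    · simp
    · rw [smul_neg]; exact (Commute.refl (t • Y)).neg_left
  have hcurve : ∀ K : 𝔸, HasDerivAt (fun t : ℝ => NormedSpace.exp (t • (-Y)) * K *
      NormedSpace.exp (t • Y)) (K * Y - Y * K) 0 := by
    intro K
    have h6 := (hasDerivAt_exp_smul_const (𝕂 := ℝ) (-Y) (0 : ℝ)).mul_const K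
    have h7 := h6.mul (hasDerivAt_exp_smul_const (𝕂 := ℝ) Y (0 : ℝ))
    simp only [zero_smul, NormedSpace.exp_zero, one_mul, mul_one] at h7
    refine h7.congr_deriv ?_
    noncomm_ring
  have h2 : HasDerivAt (fun t : ℝ => NormedSpace.exp (NormedSpace.exp (t • (-Y)) * H *
      NormedSpace.exp (t • Y)))
      (fderiv ℝ (NormedSpace.exp : 𝔸 → 𝔸) H (H * Y - Y * H)) 0 := by
    have h3 := ecj5_diff H
    have h4 : HasFDerivAt (NormedSpace.exp : 𝔸 → 𝔸) (fderiv ℝ (NormedSpace.exp : 𝔸 → 𝔸) H)
      ((fun t : ℝ => NormedSpace.exp (t • (-Y)) * H * NormedSpace.exp (t • Y)) 0) := by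
      simpa using h3
    exact h4.comp_hasDerivAt (0 : ℝ) (hcurve H)
  have h5 := hcurve (NormedSpace.exp H)
  refine h2.unique (h5.congr_of_eventuallyEq (Filter.Eventually.of_forall fun t => ?_))
  let u : 𝔸ˣ := ⟨NormedSpace.exp (t • (-Y)), NormedSpace.exp (t • Y), hexp' t, hexp t⟩
  exact NormedSpace.exp_units_conj u H

theorem exp_fderiv {n : ℕ} (Q : Mat n) (hQ : Q ∈ unitary (Mat n)) (h : Fin n → ℝ) (X : Mat n) :
    fderiv ℝ (NormedSpace.exp : Mat n → Mat n)
      (Q * Matrix.diagonal (fun i => (h i : ℂ)) * star Q) X =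
    Q * Matrix.of (fun i j => ((if h i = h j then Real.exp (h i)
      else (Real.exp (h i) - Real.exp (h j)) / (h i - h j) : ℝ) : ℂ) * (star Q * X * Q) i j) *
      star Q := by
  obtain ⟨hQ1, hQ2⟩ := Unitary.mem_iff.1 hQ
  set D : Mat n := Matrix.diagonal (fun i => (h i : ℂ)) with hD
  set E : Mat n := Matrix.diagonal (fun i => (Real.exp (h i) : ℂ)) with hE
  set X' : Mat n := star Q * X * Q with hX'
  set Xc : Mat n := Matrix.of (fun i j => if h i = h j then X' i j else 0) with hXc
  set Yo : Mat n := Matrix.of (fun i j => if h i = h j then 0 else X' i j / (h i - h j)) with hYo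
  have hexpD : NormedSpace.exp D = E := by
    rw [hD, Matrix.exp_diagonal, hE]
    congr 1
    funext i
    rw [Pi.coe_exp, ← Complex.exp_eq_exp_ℂ, Complex.ofReal_exp]
  have hexpH : NormedSpace.exp (Q * D * star Q) = Q * E * star Q := by
    let u : (Mat n)ˣ := ⟨Q, star Q, hQ2, hQ1⟩
    have := Matrix.exp_units_conj u D
    rw [hexpD] at this
    exact this
  have hsplit : X = Q * Xc * star Q + ((Q * D * star Q) * (Q * Yo * star Q) -
      (Q * Yo * star Q) * (Q * D * star Q)) := by
    have e1 : X' = Xc + (D * Yo - Yo * D) := by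
      ext i j
      rw [Matrix.add_apply, Matrix.sub_apply, hD, Matrix.diagonal_mul, Matrix.mul_diagonal, hXc,
        hYo, Matrix.of_apply, Matrix.of_apply]
      split_ifs with hij
      · rw [hij]; ring
      · have : ((h i : ℂ) - h j) ≠ 0 := by
          rw [sub_ne_zero]; exact_mod_cast hij
        field_simp
        ring
    have e2 : X = Q * X' * star Q := by
      rw [hX']
      calc X = (Q * star Q) * X * (Q * star Q) := by rw [hQ2, one_mul, mul_one]
        _ = _ := by noncomm_ring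
    have e3 : ∀ A B : Mat n, (Q * A * star Q) * (Q * B * star Q) = Q * (A * B) * star Q := by
      intro A B
      calc (Q * A * star Q) * (Q * B * star Q) = Q * A * (star Q * Q) * B * star Q := by
            noncomm_ring
        _ = _ := by rw [hQ1]; noncomm_ring
    rw [e3, e3]
    conv_lhs => rw [e2, e1]
    noncomm_ring
  have hcomm : Commute (Q * D * star Q) (Q * Xc * star Q) := by
    have e4 : D * Xc = Xc * D := by
      ext i j
      rw [hD, Matrix.diagonal_mul, Matrix.mul_diagonal, hXc, Matrix.of_apply]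
      split_ifs with hij
      · rw [hij]; ring
      · ring
    change (Q * D * star Q) * (Q * Xc * star Q) = (Q * Xc * star Q) * (Q * D * star Q)
    have e3 : ∀ A B : Mat n, (Q * A * star Q) * (Q * B * star Q) = Q * (A * B) * star Q := by
      intro A B
      calc (Q * A * star Q) * (Q * B * star Q) = Q * A * (star Q * Q) * B * star Q := by
            noncomm_ring
        _ = _ := by rw [hQ1]; noncomm_ring
    rw [e3, e3, e4]
  conv_lhs => rw [hsplit]
  rw [map_add]
  have c1 := ecj5_comm (Q * D * star Q) (Q * Xc * star Q) hcomm.symm.symm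
  have c2 := ecj5_brk (Q * D * star Q) (Q * Yo * star Q)
  rw [hexpH] at c1 c2
  have c3 : fderiv ℝ (NormedSpace.exp : Mat n → Mat n) (Q * D * star Q) (Q * Xc * star Q) =
      Q * E * star Q * (Q * Xc * star Q) := c1
  have c4 : fderiv ℝ (NormedSpace.exp : Mat n → Mat n) (Q * D * star Q)
      (Q * D * star Q * (Q * Yo * star Q) - Q * Yo * star Q * (Q * D * star Q)) =
      Q * E * star Q * (Q * Yo * star Q) - Q * Yo * star Q * (Q * E * star Q) := c2
  rw [c3, c4]
  have e3 : ∀ A B : Mat n, (Q * A * star Q) * (Q * B * star Q) = Q * (A * B) * star Q := by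
    intro A B
    calc (Q * A * star Q) * (Q * B * star Q) = Q * A * (star Q * Q) * B * star Q := by
          noncomm_ring
      _ = _ := by rw [hQ1]; noncomm_ring
  rw [e3, e3, e3]
  have e5 : (Matrix.of (fun i j => ((if h i = h j then Real.exp (h i)
      else (Real.exp (h i) - Real.exp (h j)) / (h i - h j) : ℝ) : ℂ) * X' i j) : Mat n) =
      E * Xc + (E * Yo - Yo * E) := by
    ext i j
    rw [Matrix.add_apply, Matrix.sub_apply, hE, Matrix.diagonal_mul, Matrix.diagonal_mul,
      Matrix.mul_diagonal, hXc, hYo, Matrix.of_apply, Matrix.of_apply, Matrix.of_apply]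
    split_ifs with hij
    · rw [hij]; ring
    · have : ((h i : ℂ) - h j) ≠ 0 := by
        rw [sub_ne_zero]; exact_mod_cast hij
      push_cast
      field_simp
      ring
  rw [e5]
  noncomm_ring

end J5ax

alias exp_fderiv := J5ax.exp_fderiv

end MP2482e4
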