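import Pool.Agent.Helper707.EC.Defs

set_option autoImplicit false
set_option maxHeartbeats 1000000

open Matrix Topology
open scoped ContDiff ComplexOrder Matrix.Norms.L2Operator

namespace MP2482e4

namespace J5bx


theorem log_exp' {n : ℕ} (H : Mat n) (hH : H.IsHermitian) :
    cfc Real.log (NormedSpace.exp H) = H := by
  exact CFC.log_exp H hH

open scoped MatrixOrder in
theorem exp_log' {n : ℕ} (ρ : Mat n) (hρ : ρ.PosDef) :
    NormedSpace.exp (cfc Real.log ρ) = ρ := by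
  exact CFC.exp_log ρ hρ.isStrictlyPositive

theorem log_herm {n : ℕ} (ρ : Mat n) : IsSelfAdjoint (cfc Real.log ρ) := cfc_predicate _ _

theorem exp_smooth {n : ℕ} : ContDiff ℝ ∞ (NormedSpace.exp : Mat n → Mat n) := by
  rw [contDiff_iff_contDiffAt]
  intro x
  exact (NormedSpace.exp_analytic (𝕂 := ℝ) x).contDiffAt

theorem log_smooth {X : Type*} [NormedAddCommGroup X] [NormedSpace ℝ X] {n : ℕ} {U : Set X}
    (hU : IsOpen U) (φ : X → Mat n) (hφ : ContDiffOn ℝ ∞ φ U) (hpd : ∀ x ∈ U, (φ x).PosDef)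
    (hexp : ∀ H : Mat n, H.IsHermitian → ∀ Y : Mat n, Y.IsHermitian →
      fderiv ℝ (NormedSpace.exp : Mat n → Mat n) H Y = 0 → Y = 0) :
    ContDiffOn ℝ ∞ (fun x => cfc Real.log (φ x)) U := by
  intro x0 hx0
  apply ContDiffAt.contDiffWithinAt
  have hφ0 : ContDiffAt ℝ ∞ φ x0 := hφ.contDiffAt (hU.mem_nhds hx0)
  haveI : FiniteDimensional ℝ (selfAdjoint (Mat n)) :=
    inferInstanceAs (FiniteDimensional ℝ (selfAdjoint.submodule ℝ (Mat n)))
  haveI : CompleteSpace (selfAdjoint (Mat n)) := FiniteDimensional.complete ℝ _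
  let π : Mat n →L[ℝ] selfAdjoint (Mat n) := selfAdjointPartL ℝ (Mat n)
  let ι : selfAdjoint (Mat n) →L[ℝ] Mat n := (selfAdjoint.submodule ℝ (Mat n)).subtypeL
  have hπ : ∀ A : Mat n, IsSelfAdjoint A → ι (π A) = A := fun A hA =>
    hA.coe_selfAdjointPart_apply ℝ
  have hιsa : ∀ H : selfAdjoint (Mat n), IsSelfAdjoint (ι H) := fun H => H.2
  let Ef : selfAdjoint (Mat n) → selfAdjoint (Mat n) := fun H => π (NormedSpace.exp (ι H))
  have hEf : ∀ H, ι (Ef H) = NormedSpace.exp (ι H) := by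
    intro H
    exact hπ _ (hιsa H).exp
  have hcd : ContDiff ℝ ∞ Ef := π.contDiff.comp (exp_smooth.comp ι.contDiff)
  let H0 : selfAdjoint (Mat n) := π (cfc Real.log (φ x0))
  have hH0 : ι H0 = cfc Real.log (φ x0) := hπ _ (log_herm _)
  have hE0 : Ef H0 = π (φ x0) := by
    change π (NormedSpace.exp (ι H0)) = _
    rw [hH0, exp_log' _ (hpd x0 hx0)]
  have hdexp : HasFDerivAt (NormedSpace.exp : Mat n → Mat n)
      (fderiv ℝ (NormedSpace.exp : Mat n → Mat n) (ι H0)) (ι H0) :=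
    ((exp_smooth (n := n)).differentiable (by simp) (ι H0)).hasFDerivAt
  let D : selfAdjoint (Mat n) →L[ℝ] selfAdjoint (Mat n) :=
    π.comp ((fderiv ℝ (NormedSpace.exp : Mat n → Mat n) (ι H0)).comp ι)
  have hD : HasFDerivAt Ef D H0 :=
    π.hasFDerivAt.comp H0 (hdexp.comp H0 ι.hasFDerivAt)
  have hιD : ι.comp D = (fderiv ℝ (NormedSpace.exp : Mat n → Mat n) (ι H0)).comp ι := by
    have h1 : HasFDerivAt (fun H => ι (Ef H)) (ι.comp D) H0 := ι.hasFDerivAt.comp H0 hD
    have h2 : HasFDerivAt (fun H => NormedSpace.exp (ι H))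
      ((fderiv ℝ (NormedSpace.exp : Mat n → Mat n) (ι H0)).comp ι) H0 :=
      hdexp.comp H0 ι.hasFDerivAt
    have h3 : (fun H => ι (Ef H)) = (fun H => NormedSpace.exp (ι H)) := funext hEf
    rw [h3] at h1
    exact h1.unique h2
  have hinj : Function.Injective D := by
    rw [injective_iff_map_eq_zero]
    intro Y hY
    have h1 : fderiv ℝ (NormedSpace.exp : Mat n → Mat n) (ι H0) (ι Y) = 0 := by
      have := DFunLike.congr_fun hιD Y
      simp only [ContinuousLinearMap.comp_apply] at this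
      rw [← this, hY, map_zero]
    have h2 := hexp (ι H0) (hιsa H0) (ι Y) (hιsa Y) h1
    exact Subtype.ext h2
  let D' : selfAdjoint (Mat n) ≃L[ℝ] selfAdjoint (Mat n) :=
    (LinearEquiv.ofInjectiveEndo (D : selfAdjoint (Mat n) →ₗ[ℝ] selfAdjoint (Mat n))
      hinj).toContinuousLinearEquiv
  have hD' : (D' : selfAdjoint (Mat n) →L[ℝ] selfAdjoint (Mat n)) = D := by
    ext v
    rfl
  have hD2 : HasFDerivAt Ef (D' : selfAdjoint (Mat n) →L[ℝ] selfAdjoint (Mat n)) H0 := by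
    rw [hD']; exact hD
  have hne : (∞ : WithTop ℕ∞) ≠ 0 := by simp
  let g := (hcd.contDiffAt (x := H0)).localInverse hD2 hne
  have hg : ContDiffAt ℝ ∞ g (Ef H0) := (hcd.contDiffAt (x := H0)).to_localInverse hD2 hne
  have hev : ∀ᶠ y in 𝓝 (Ef H0), Ef (g y) = y :=
    ((hcd.contDiffAt (x := H0)).hasStrictFDerivAt' hD2 hne).eventually_right_inverse
  have hψ : ContDiffAt ℝ ∞ (fun x => π (φ x)) x0 := π.contDiff.contDiffAt.comp x0 hφ0
  have hcomp : ContDiffAt ℝ ∞ (fun x => ι (g (π (φ x)))) x0 := by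
    refine ι.contDiff.contDiffAt.comp x0 (ContDiffAt.comp x0 ?_ hψ)
    rw [← hE0]; exact hg
  refine hcomp.congr_of_eventuallyEq ?_
  have hcont : Filter.Tendsto (fun x => π (φ x)) (𝓝 x0) (𝓝 (Ef H0)) := by
    rw [hE0]; exact hψ.continuousAt
  filter_upwards [hcont.eventually hev, hU.mem_nhds hx0] with x hx hxU
  have h1 : NormedSpace.exp (ι (g (π (φ x)))) = φ x := by
    rw [← hEf, hx, hπ _ (hpd x hxU).1]
  conv_lhs => rw [← h1]
  exact log_exp' _ (hιsa _)

end J5bx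

alias log_smooth := J5bx.log_smooth

end MP2482e4
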