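import Pool.Agent.Helper707.EC.Defs
import Pool.Agent.Helper707.EC.J5a
import Pool.Agent.Helper707.EC.J5b

set_option autoImplicit false
set_option maxHeartbeats 1000000

open Matrix Topology
open scoped ContDiff ComplexOrder Matrix.Norms.L2Operator

namespace MP2482e4

namespace J5cx


/-- `Q diag(w) Q*` -/
noncomputable def cj {n : ℕ} (Q : Mat n) (w : Fin n → ℝ) : Mat n :=
  Q * Matrix.diagonal (fun i => (w i : ℂ)) * star Q

theorem cfc_cj {n : ℕ} {ρ : Mat n} (h : ρ.IsHermitian) (f : ℝ → ℝ) :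
    cfc f ρ = cj (h.eigenvectorUnitary : Mat n) (fun i => f (h.eigenvalues i)) := by
  rw [h.cfc_eq, Matrix.IsHermitian.cfc, Unitary.conjStarAlgAut_apply]
  rfl

theorem self_cj {n : ℕ} {ρ : Mat n} (h : ρ.IsHermitian) :
    ρ = cj (h.eigenvectorUnitary : Mat n) h.eigenvalues := by
  conv_lhs => rw [h.spectral_theorem, Unitary.conjStarAlgAut_apply]
  rfl

theorem exp_cj {n : ℕ} {Q : Mat n} (hQ : Q ∈ unitary (Mat n)) (w : Fin n → ℝ) :
    NormedSpace.exp (cj Q w) = cj Q (fun i => Real.exp (w i)) := by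
  have h1 : Q * star Q = 1 := (Unitary.mem_iff.1 hQ).2
  have h2 : star Q * Q = 1 := (Unitary.mem_iff.1 hQ).1
  have hinv : Q⁻¹ = star Q := Matrix.inv_eq_right_inv h1
  have hu : IsUnit Q := ⟨⟨Q, star Q, h1, h2⟩, rfl⟩
  unfold cj
  rw [← hinv, Matrix.exp_conj Q _ hu, Matrix.exp_diagonal]
  congr 3
  funext i
  rw [Pi.coe_exp, ← Complex.exp_eq_exp_ℂ, Complex.ofReal_exp]

theorem smul_cj {n : ℕ} (Q : Mat n) (w : Fin n → ℝ) (q : ℝ) :
    q • cj Q w = cj Q (fun i => q * w i) := by
  unfold cj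
  rw [← Matrix.smul_mul, ← Matrix.mul_smul]
  congr 2
  ext i j
  by_cases h : i = j
  · subst h; simp
  · simp [h]

theorem pw_exp {n : ℕ} {ρ : Mat n} (hρ : ρ.PosDef) (q : ℝ) :
    pw ρ q = NormedSpace.exp (q • cfc Real.log ρ) := by
  have h := hρ.isHermitian
  rw [pw, cfc_cj h, cfc_cj h, smul_cj, exp_cj h.eigenvectorUnitary.2]
  congr 1
  funext i
  have hi : 0 < h.eigenvalues i := hρ.eigenvalues_pos i
  rw [Real.rpow_def_of_pos hi, mul_comm]

theorem self_exp {n : ℕ} {ρ : Mat n} (hρ : ρ.PosDef) :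
    ρ = NormedSpace.exp (cfc Real.log ρ) := by
  have h := hρ.isHermitian
  rw [cfc_cj h, exp_cj h.eigenvectorUnitary.2]
  conv_lhs => rw [self_cj h]
  congr 1
  funext i
  have hi : 0 < h.eigenvalues i := hρ.eigenvalues_pos i
  rw [Real.exp_log hi]

theorem conj_zero {n : ℕ} {Q : Mat n} (hQ : Q ∈ unitary (Mat n)) {X Y : Mat n} :
    Q * X * star Q = Q * Y * star Q ↔ X = Y := by
  have h2 : star Q * Q = 1 := (Unitary.mem_iff.1 hQ).1
  constructor
  · intro h
    have h3 : star Q * (Q * X * star Q) * Q = star Q * (Q * Y * star Q) * Q := by rw [h]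
    have e : ∀ Z : Mat n, star Q * (Q * Z * star Q) * Q = Z := by
      intro Z
      calc star Q * (Q * Z * star Q) * Q = (star Q * Q) * Z * (star Q * Q) := by
            simp only [Matrix.mul_assoc]
        _ = Z := by rw [h2, Matrix.one_mul, Matrix.mul_one]
    rw [e, e] at h3
    exact h3
  · intro h; rw [h]

theorem conj_conj {n : ℕ} {Q : Mat n} (hQ : Q ∈ unitary (Mat n)) (A : Mat n) :
    A = Q * (star Q * A * Q) * star Q := by
  have h1 : Q * star Q = 1 := (Unitary.mem_iff.1 hQ).2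
  calc A = (Q * star Q) * A * (Q * star Q) := by rw [h1, Matrix.one_mul, Matrix.mul_one]
    _ = _ := by simp only [Matrix.mul_assoc]

theorem hexp_all {n : ℕ} (H : Mat n) (hH : H.IsHermitian) (Y : Mat n) (_hY : Y.IsHermitian)
    (h0 : fderiv ℝ (NormedSpace.exp : Mat n → Mat n) H Y = 0) : Y = 0 := by
  have hQ := hH.eigenvectorUnitary.2
  have e1 := exp_fderiv (hH.eigenvectorUnitary : Mat n) hQ hH.eigenvalues Y
  have e2 : (hH.eigenvectorUnitary : Mat n) *
      Matrix.diagonal (fun i => (hH.eigenvalues i : ℂ)) * star (hH.eigenvectorUnitary : Mat n) = H :=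
    (self_cj hH).symm
  rw [e2, h0] at e1
  have e3 : (hH.eigenvectorUnitary : Mat n) * 0 * star (hH.eigenvectorUnitary : Mat n) = 0 := by
    simp
  rw [← e3, conj_zero hQ] at e1
  have e4 : star (hH.eigenvectorUnitary : Mat n) * Y * (hH.eigenvectorUnitary : Mat n) = 0 := by
    ext i j
    have h5 := congrFun (congrFun e1 i) j
    simp only [Matrix.of_apply, Matrix.zero_apply] at h5
    have h6 := mul_eq_zero.1 h5.symm
    rcases h6 with h6 | h6
    · exfalso
      have h7 : (if hH.eigenvalues i = hH.eigenvalues j then Real.exp (hH.eigenvalues i)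
        else (Real.exp (hH.eigenvalues i) - Real.exp (hH.eigenvalues j)) /
          (hH.eigenvalues i - hH.eigenvalues j)) = 0 := by exact_mod_cast h6
      split_ifs at h7 with h8
      · exact (Real.exp_pos _).ne' h7
      · rcases div_eq_zero_iff.1 h7 with h9 | h9
        · exact h8 (Real.exp_injective (sub_eq_zero.1 h9))
        · exact h8 (sub_eq_zero.1 h9)
    · rw [h6]; rfl
  rw [conj_conj hQ Y, e4]
  simp

theorem exp_smooth {n : ℕ} : ContDiff ℝ ∞ (NormedSpace.exp : Mat n → Mat n) := by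
  rw [contDiff_iff_contDiffAt]
  intro x
  exact (NormedSpace.exp_analytic (𝕂 := ℝ) x).contDiffAt

theorem logs {X : Type*} [NormedAddCommGroup X] [NormedSpace ℝ X] {n : ℕ} {U : Set X}
    (hU : IsOpen U) (φ : X → Mat n) (hφ : ContDiffOn ℝ ∞ φ U) (hpd : ∀ x ∈ U, (φ x).PosDef) :
    ContDiffOn ℝ ∞ (fun x => cfc Real.log (φ x)) U :=
  log_smooth hU φ hφ hpd hexp_all

theorem pw_smooth {X : Type*} [NormedAddCommGroup X] [NormedSpace ℝ X] {n : ℕ} {U : Set X}
    (hU : IsOpen U) (φ : X → Mat n) (hφ : ContDiffOn ℝ ∞ φ U) (hpd : ∀ x ∈ U, (φ x).PosDef)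
    (q : ℝ) : ContDiffOn ℝ ∞ (fun x => pw (φ x) q) U := by
  have h1 : ContDiffOn ℝ ∞ (fun x => NormedSpace.exp (q • cfc Real.log (φ x))) U :=
    exp_smooth.comp_contDiffOn ((logs hU φ hφ hpd).const_smul q)
  exact h1.congr fun x hx => pw_exp (hpd x hx) q

theorem scal {p a b : ℝ} (hp : p ≠ 0) (ha : 0 < a) (hb : 0 < b) : ∃ m : ℝ, m ≠ 0 ∧
    p * (if p * Real.log a = p * Real.log b then Real.exp (p * Real.log a) else
      (Real.exp (p * Real.log a) - Real.exp (p * Real.log b)) /
        (p * Real.log a - p * Real.log b)) =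
      m * (if Real.log a = Real.log b then Real.exp (Real.log a) else
      (Real.exp (Real.log a) - Real.exp (Real.log b)) / (Real.log a - Real.log b)) ∧
    p / 2 * (a ^ p + b ^ p) = m * (b * fp p (a / b)) := by
  have eap : Real.exp (p * Real.log a) = a ^ p := by
    rw [Real.rpow_def_of_pos ha, mul_comm]
  have ebp : Real.exp (p * Real.log b) = b ^ p := by
    rw [Real.rpow_def_of_pos hb, mul_comm]
  have hap : 0 < a ^ p := Real.rpow_pos_of_pos ha p
  have hbp : 0 < b ^ p := Real.rpow_pos_of_pos hb p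
  rw [eap, ebp, Real.exp_log ha, Real.exp_log hb]
  by_cases hab : a = b
  · subst hab
    refine ⟨p * a ^ p / a, by positivity, ?_, ?_⟩
    · rw [if_pos rfl, if_pos rfl]
      field_simp
    · rw [div_self ha.ne', fp, if_pos rfl]
      field_simp
      ring
  · have hlog : Real.log a ≠ Real.log b := fun h => hab (Real.log_injOn_pos ha hb h)
    have hplog : p * Real.log a ≠ p * Real.log b := fun h => hlog (mul_left_cancel₀ hp h)
    have hne : a ^ p - b ^ p ≠ 0 := by
      rw [← eap, ← ebp]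
      intro h
      exact hplog (Real.exp_injective (sub_eq_zero.1 h))
    have hne2 : a - b ≠ 0 := sub_ne_zero.2 hab
    have hne3 : Real.log a - Real.log b ≠ 0 := sub_ne_zero.2 hlog
    have hne4 : p * Real.log a - p * Real.log b ≠ 0 := sub_ne_zero.2 hplog
    refine ⟨(a ^ p - b ^ p) / (a - b), div_ne_zero hne hne2, ?_, ?_⟩
    · rw [if_neg hlog, if_neg hplog, ← mul_sub]
      field_simp
    · have ht : a / b ≠ 1 := by
        intro h
        rw [div_eq_one_iff_eq hb.ne'] at h
        exact hab h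
      rw [fp, if_neg ht, Real.div_rpow ha.le hb.le]
      have e5 : a ^ p / b ^ p - 1 = (a ^ p - b ^ p) / b ^ p := by field_simp
      have e6 : a / b - 1 = (a - b) / b := by field_simp
      have e7 : a ^ p / b ^ p + 1 = (a ^ p + b ^ p) / b ^ p := by field_simp
      rw [e5, e6, e7]
      field_simp

theorem entry_iff {q1 k q2 s m : ℝ} (hm : m ≠ 0) (h1 : q2 = m * q1) (h2 : s = m * k)
    (y a : ℂ) : (q1 : ℂ) * y = (k : ℂ) * a ↔ (q2 : ℂ) * y = (s : ℂ) * a := by
  have hm' : (m : ℂ) ≠ 0 := by exact_mod_cast hm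
  rw [h1, h2]
  push_cast
  rw [mul_assoc, mul_assoc]
  constructor
  · intro h; rw [h]
  · intro h; exact mul_left_cancel₀ hm' h

theorem pw_deriv {X : Type*} [NormedAddCommGroup X] [NormedSpace ℝ X] {n : ℕ} {U : Set X}
    (hU : IsOpen U) (φ : X → Mat n) (hφ : ContDiffOn ℝ ∞ φ U) (hpd : ∀ x ∈ U, (φ x).PosDef)
    {p : ℝ} (hp : p ≠ 0) {x : X} (hx : x ∈ U) (v : X) (A : Mat n) :
    fderiv ℝ φ x v = Kop (fp p) (φ x) A ↔
      fderiv ℝ (fun y => pw (φ y) p) x v = (p / 2) • (A * pw (φ x) p + pw (φ x) p * A) := by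
  have hUx := hU.mem_nhds hx
  have hρ := hpd x hx
  have h := hρ.isHermitian
  have hlam : ∀ i, 0 < h.eigenvalues i := hρ.eigenvalues_pos
  have hQ := h.eigenvectorUnitary.2
  set Q : Mat n := (h.eigenvectorUnitary : Mat n) with hQdef
  set lam := h.eigenvalues with hlamdef
  set H : X → Mat n := fun y => cfc Real.log (φ y) with hH
  have hHd : DifferentiableAt ℝ H x :=
    ((logs hU φ hφ hpd).contDiffAt hUx).differentiableAt (by simp)
  have hHx : H x = cj Q (fun i => Real.log (lam i)) := cfc_cj h Real.log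
  have hexpd : ∀ Z : Mat n, DifferentiableAt ℝ (NormedSpace.exp : Mat n → Mat n) Z := fun Z =>
    (exp_smooth.differentiable (by simp)) Z
  set Y : Mat n := fderiv ℝ H x v with hY
  -- first derivative
  have e1 : fderiv ℝ φ x v = fderiv ℝ (NormedSpace.exp : Mat n → Mat n) (H x) Y := by
    have h1 : φ =ᶠ[𝓝 x] fun y => NormedSpace.exp (H y) := by
      filter_upwards [hUx] with y hy
      exact self_exp (hpd y hy)
    have h2 : HasFDerivAt (fun y => NormedSpace.exp (H y))
        ((fderiv ℝ (NormedSpace.exp : Mat n → Mat n) (H x)).comp (fderiv ℝ H x)) x :=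
      (hexpd (H x)).hasFDerivAt.comp x hHd.hasFDerivAt
    rw [h1.fderiv_eq, h2.fderiv]
    rfl
  have e2 : fderiv ℝ (fun y => pw (φ y) p) x v =
      fderiv ℝ (NormedSpace.exp : Mat n → Mat n) (p • H x) (p • Y) := by
    have h1 : (fun y => pw (φ y) p) =ᶠ[𝓝 x] fun y => NormedSpace.exp (p • H y) := by
      filter_upwards [hUx] with y hy
      exact pw_exp (hpd y hy) p
    have h2 : HasFDerivAt (fun y => NormedSpace.exp (p • H y))
        ((fderiv ℝ (NormedSpace.exp : Mat n → Mat n) (p • H x)).comp (p • fderiv ℝ H x)) x :=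
      (hexpd (p • H x)).hasFDerivAt.comp x (hHd.hasFDerivAt.const_smul p)
    rw [h1.fderiv_eq, h2.fderiv]
    rfl
  have e3 := exp_fderiv Q hQ (fun i => Real.log (lam i)) Y
  have e4 := exp_fderiv Q hQ (fun i => p * Real.log (lam i)) (p • Y)
  have e5 : Q * Matrix.diagonal (fun i => (((fun i => Real.log (lam i)) i : ℝ) : ℂ)) * star Q =
      H x := hHx.symm
  have e6 : Q * Matrix.diagonal (fun i => (((fun i => p * Real.log (lam i)) i : ℝ) : ℂ)) * star Q =
      p • H x := by
    rw [hHx, smul_cj]; rfl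
  rw [e5] at e3
  rw [e6] at e4
  rw [e1, e2, e3, e4]
  have e7 : Kop (fp p) (φ x) A = Q * (Matrix.of fun i j =>
      ((lam j * fp p (lam i / lam j) : ℝ) : ℂ) * (star Q * A * Q) i j) * star Q := by
    rw [Kop, dif_pos h]
  have hpw : pw (φ x) p = cj Q (fun i => lam i ^ p) := cfc_cj h _
  have hQQ : star Q * Q = 1 := (Unitary.mem_iff.1 hQ).1
  have e8 : (p / 2) • (A * pw (φ x) p + pw (φ x) p * A) = Q * (Matrix.of fun i j =>
      ((p / 2 * (lam i ^ p + lam j ^ p) : ℝ) : ℂ) * (star Q * A * Q) i j) * star Q := by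
    have e9 : A * pw (φ x) p = Q * ((star Q * A * Q) *
        Matrix.diagonal (fun i => ((lam i ^ p : ℝ) : ℂ))) * star Q := by
      rw [hpw, cj]
      conv_lhs => rw [conj_conj hQ A]
      calc Q * (star Q * A * Q) * star Q *
            (Q * Matrix.diagonal (fun i => ((lam i ^ p : ℝ) : ℂ)) * star Q)
          = Q * (star Q * A * Q) * (star Q * Q) *
            Matrix.diagonal (fun i => ((lam i ^ p : ℝ) : ℂ)) * star Q := by
            simp only [Matrix.mul_assoc]
        _ = _ := by rw [hQQ, Matrix.mul_one]; simp only [Matrix.mul_assoc]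
    have e10 : pw (φ x) p * A = Q * (Matrix.diagonal (fun i => ((lam i ^ p : ℝ) : ℂ)) *
        (star Q * A * Q)) * star Q := by
      rw [hpw, cj]
      conv_lhs => rw [conj_conj hQ A]
      calc Q * Matrix.diagonal (fun i => ((lam i ^ p : ℝ) : ℂ)) * star Q *
            (Q * (star Q * A * Q) * star Q)
          = Q * Matrix.diagonal (fun i => ((lam i ^ p : ℝ) : ℂ)) * (star Q * Q) *
            (star Q * A * Q) * star Q := by
            simp only [Matrix.mul_assoc]
        _ = _ := by rw [hQQ, Matrix.mul_one]; simp only [Matrix.mul_assoc]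
    rw [e9, e10, ← Matrix.add_mul, ← Matrix.mul_add, ← Matrix.smul_mul, ← Matrix.mul_smul]
    congr 2
    ext i j
    simp only [Matrix.smul_apply, Matrix.add_apply, Matrix.mul_diagonal, Matrix.diagonal_mul,
      Matrix.of_apply, Complex.real_smul]
    push_cast
    ring
  rw [e7, e8, conj_zero hQ, conj_zero hQ]
  have hent : ∀ i j : Fin n, ((((if Real.log (lam i) = Real.log (lam j) then
      Real.exp (Real.log (lam i)) else (Real.exp (Real.log (lam i)) - Real.exp (Real.log (lam j))) /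
        (Real.log (lam i) - Real.log (lam j)) : ℝ) : ℂ) * (star Q * Y * Q) i j =
      ((lam j * fp p (lam i / lam j) : ℝ) : ℂ) * (star Q * A * Q) i j) ↔
      (((p * (if p * Real.log (lam i) = p * Real.log (lam j) then
      Real.exp (p * Real.log (lam i)) else
      (Real.exp (p * Real.log (lam i)) - Real.exp (p * Real.log (lam j))) /
        (p * Real.log (lam i) - p * Real.log (lam j))) : ℝ) : ℂ) * (star Q * Y * Q) i j =
      ((p / 2 * (lam i ^ p + lam j ^ p) : ℝ) : ℂ) * (star Q * A * Q) i j)) := by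
    intro i j
    obtain ⟨m, hm, h1, h2⟩ := scal hp (hlam i) (hlam j)
    exact entry_iff hm h1 h2 _ _
  have hsm : star Q * (p • Y) * Q = p • (star Q * Y * Q) := by
    rw [Matrix.mul_smul, Matrix.smul_mul]
  constructor
  · intro hL
    ext i j
    have h1 := congrFun (congrFun hL i) j
    simp only [Matrix.of_apply] at h1 ⊢
    have h2 := (hent i j).1 h1
    rw [hsm, Matrix.smul_apply, Complex.real_smul, ← h2]
    push_cast
    ring
  · intro hL
    ext i j
    have h1 := congrFun (congrFun hL i) j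
    simp only [Matrix.of_apply] at h1 ⊢
    apply (hent i j).2
    rw [hsm, Matrix.smul_apply, Complex.real_smul] at h1
    rw [← h1]
    push_cast
    ring

end J5cx

alias pw_smooth := J5cx.pw_smooth
alias pw_deriv := J5cx.pw_deriv

end MP2482e4
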