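import Pool.Agent.Helper707.EC.Defs
import Pool.Agent.Helper707.EC.J16
import Pool.Agent.Helper707.EC.J4
import Pool.Agent.Helper707.EC.J5c

set_option autoImplicit false
set_option maxHeartbeats 1000000

open Matrix Topology
open scoped ContDiff ComplexOrder Matrix.Norms.L2Operator

namespace MP2482e4

namespace J17x


theorem eRep_smooth_star {X : Type*} [NormedAddCommGroup X] [NormedSpace ℝ X] {n : ℕ} {U : Set X}
    (hU : IsOpen U) (θ : X → Mat n) (hθ : ContDiffOn ℝ ∞ θ U) (hh : ∀ x ∈ U, (θ x).IsHermitian)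
    {x : X} (hx : x ∈ U) (v : X) : (fderiv ℝ θ x v).IsHermitian := by
  have hd : DifferentiableAt ℝ θ x :=
    (hθ.differentiableOn (by simp)).differentiableAt (hU.mem_nhds hx)
  have h1 := hd.hasFDerivAt.star
  have h2 : HasFDerivAt (fun y => star (θ y)) (fderiv ℝ θ x) x := by
    refine hd.hasFDerivAt.congr_of_eventuallyEq ?_
    filter_upwards [hU.mem_nhds hx] with y hy
    exact hh y hy
  have h3 := h1.unique h2
  have h4 := DFunLike.congr_fun h3 v
  exact h4

theorem eRep_smooth {X : Type*} [NormedAddCommGroup X] [NormedSpace ℝ X] {n : ℕ} {U : Set X}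
    (hU : IsOpen U) (φ : X → Mat n) (hφ : ContDiffOn ℝ ∞ φ U) (hpd : ∀ x ∈ U, (φ x).PosDef)
    {p : ℝ} (hp : p ≠ 0) :
    ∃ L : X → (X →L[ℝ] Mat n), ContDiffOn ℝ ∞ L U ∧
      ∀ x ∈ U, ∀ v, (L x v).IsHermitian ∧ Kop (fp p) (φ x) (L x v) = fderiv ℝ φ x v := by
  have hθ : ContDiffOn ℝ ∞ (fun x => pw (φ x) p) U := pw_smooth hU φ hφ hpd p
  have hθpd : ∀ x ∈ U, (pw (φ x) p).PosDef := fun x hx => pw_posDef (hpd x hx) p
  obtain ⟨S, hS1, hS2⟩ := anti_inverse (fun x => pw (φ x) p) hθ hθpd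
  have hθ' : ContDiffOn ℝ ∞ (fderiv ℝ (fun x => pw (φ x) p)) U :=
    hθ.fderiv_of_isOpen hU (by simp)
  refine ⟨fun x => (2 / p) • (S x ∘L fderiv ℝ (fun x => pw (φ x) p) x),
    (hS1.clm_comp hθ').const_smul _, fun x hx v => ?_⟩
  have e0 : ((2 / p) • (S x ∘L fderiv ℝ (fun x => pw (φ x) p) x)) v =
      (2 / p) • S x (fderiv ℝ (fun x => pw (φ x) p) x v) := rfl
  rw [e0]
  have h1 := hS2 x hx (fderiv ℝ (fun x => pw (φ x) p) x v)
  have h2 : ((2 / p) • S x (fderiv ℝ (fun x => pw (φ x) p) x v)) * pw (φ x) p +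
      pw (φ x) p * ((2 / p) • S x (fderiv ℝ (fun x => pw (φ x) p) x v)) =
      (2 / p) • fderiv ℝ (fun x => pw (φ x) p) x v := by
    rw [Matrix.smul_mul, Matrix.mul_smul, ← smul_add, h1]
  constructor
  · apply anti_herm (hθpd x hx)
    rw [h2]
    have h3 : (fderiv ℝ (fun x => pw (φ x) p) x v).IsHermitian :=
      eRep_smooth_star hU _ hθ (fun y hy => (hθpd y hy).isHermitian) hx v
    unfold Matrix.IsHermitian at *
    rw [Matrix.conjTranspose_smul, h3]
    simp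
  · symm
    rw [pw_deriv hU φ hφ hpd hp hx v, h2, smul_smul]
    have e1 : p / 2 * (2 / p) = 1 := by field_simp
    rw [e1, one_smul]

end J17x

alias eRep_smooth := J17x.eRep_smooth

end MP2482e4
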