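import Pool.Agent.Helper707.EC.Defs

set_option autoImplicit false
set_option maxHeartbeats 1000000

open Matrix Topology
open scoped ContDiff ComplexOrder Matrix.Norms.L2Operator

namespace MP2482e4

namespace J2x


theorem range_const {X E G : Type*} [NormedAddCommGroup X] [NormedSpace ℝ X]
    [NormedAddCommGroup E] [NormedSpace ℝ E] [FiniteDimensional ℝ E]
    [NormedAddCommGroup G] [NormedSpace ℝ G] [FiniteDimensional ℝ G]
    {U : Set X} (hU : IsOpen U) {x₀ : X} (hx : x₀ ∈ U) (F : X → (E →L[ℝ] G))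
    (hF : ContDiffOn ℝ ∞ F U) (hinj : Function.Injective (F x₀))
    (hder : ∀ x ∈ U, ∀ (v : X) (e : E), ∃ e' : E, fderiv ℝ F x v e = F x e') :
    ∃ r > 0, Metric.ball x₀ r ⊆ U ∧ ∀ x ∈ Metric.ball x₀ r,
      (∀ e, ∃ e', F x e = F x₀ e') ∧ (∀ e, ∃ e', F x₀ e = F x e') := by
  classical
  have hEc : CompleteSpace E := FiniteDimensional.complete ℝ E
  obtain ⟨R0, hR0⟩ := (F x₀ : E →ₗ[ℝ] G).exists_leftInverse_of_injective
    (LinearMap.ker_eq_bot.2 hinj)
  obtain ⟨R, hRd⟩ : ∃ R : G →L[ℝ] E, ∀ w, R w = R0 w :=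
    ⟨LinearMap.toContinuousLinearMap R0, fun _ => rfl⟩
  have hR : ∀ e, R (F x₀ e) = e := fun e => by
    rw [hRd]; exact LinearMap.congr_fun hR0 e
  obtain ⟨T, hT⟩ : ∃ T : X → (E →L[ℝ] E), T = fun x => R.comp (F x) := ⟨_, rfl⟩
  have hTa : ∀ x e, T x e = R (F x e) := fun x e => by rw [hT]; rfl
  have hdiff : ∀ x ∈ U, DifferentiableAt ℝ F x := fun x hx =>
    (hF.contDiffAt (hU.mem_nhds hx)).differentiableAt (by simp)
  have hTd : ∀ x ∈ U, DifferentiableAt ℝ T x := fun x hx => by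
    rw [hT]; exact (differentiableAt_const R).clm_comp (hdiff x hx)
  have hT0 : T x₀ = 1 := by
    ext e
    rw [hTa, hR]; rfl
  have hunit : ∀ᶠ x in 𝓝 x₀, IsUnit (T x) := by
    have h1 : ContinuousAt T x₀ := (hTd x₀ hx).continuousAt
    have h2 : {a : E →L[ℝ] E | IsUnit a} ∈ 𝓝 (T x₀) := by
      apply Units.isOpen.mem_nhds
      change IsUnit (T x₀)
      rw [hT0]; exact isUnit_one
    exact h1 h2
  obtain ⟨r, hr, hrs⟩ := Metric.eventually_nhds_iff_ball.1 ((hU.eventually_mem hx).and hunit)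
  have hrU : Metric.ball x₀ r ⊆ U := fun x hx => (hrs x hx).1
  obtain ⟨I, hI⟩ : ∃ I : X → (E →L[ℝ] E), I = fun x => Ring.inverse (T x) := ⟨_, rfl⟩
  have hTI : ∀ x ∈ Metric.ball x₀ r, ∀ e, T x (I x e) = e := by
    intro x hx e
    have h1 : T x * I x = 1 := by rw [hI]; exact Ring.mul_inverse_cancel _ (hrs x hx).2
    have h2 := congrArg (fun a : E →L[ℝ] E => a e) h1
    exact h2
  have hIT : ∀ x ∈ Metric.ball x₀ r, ∀ e, I x (T x e) = e := by
    intro x hx e
    have h1 : I x * T x = 1 := by rw [hI]; exact Ring.inverse_mul_cancel _ (hrs x hx).2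
    have h2 := congrArg (fun a : E →L[ℝ] E => a e) h1
    exact h2
  have hId : ∀ x ∈ Metric.ball x₀ r, DifferentiableAt ℝ I x := by
    intro x hx
    obtain ⟨u, hu⟩ := (hrs x hx).2
    have h1 : DifferentiableAt ℝ (Ring.inverse : (E →L[ℝ] E) → (E →L[ℝ] E)) (T x) := by
      rw [← hu]
      exact (hasFDerivAt_ringInverse (𝕜 := ℝ) u).differentiableAt
    rw [hI]
    exact h1.comp x (hTd x (hrU hx))
  obtain ⟨Fh, hFh⟩ : ∃ Fh : X → (E →L[ℝ] G), Fh = fun x => (F x).comp (I x) := ⟨_, rfl⟩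
  have hFha : ∀ x e, Fh x e = F x (I x e) := fun x e => by rw [hFh]; rfl
  have hFhT : ∀ x ∈ Metric.ball x₀ r, ∀ e, F x e = Fh x (T x e) := fun x hx e => by
    rw [hFha, hIT x hx]
  have hRF : ∀ x ∈ Metric.ball x₀ r, ∀ e, R (Fh x e) = e := fun x hx e => by
    rw [hFha, ← hTa, hTI x hx]
  have hFd : ∀ x ∈ Metric.ball x₀ r, HasFDerivAt Fh
      ((ContinuousLinearMap.compL ℝ E E G (F x)).comp (fderiv ℝ I x) +
        ((ContinuousLinearMap.compL ℝ E E G).flip (I x)).comp (fderiv ℝ F x)) x := by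
    intro x hx
    rw [hFh]
    exact (hdiff x (hrU hx)).hasFDerivAt.clm_comp (hId x hx).hasFDerivAt
  have hzero : ∀ x ∈ Metric.ball x₀ r, fderiv ℝ Fh x = 0 := by
    intro x hx
    have h1 := (hFd x hx).differentiableAt.hasFDerivAt
    ext v e
    have h2 : ∃ w, fderiv ℝ Fh x v e = Fh x w := by
      rw [(hFd x hx).fderiv]
      obtain ⟨e', he'⟩ := hder x (hrU hx) v (I x e)
      refine ⟨T x (fderiv ℝ I x v e + e'), ?_⟩
      rw [← hFhT x hx, map_add, ← he']
      rfl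
    obtain ⟨w, hw⟩ := h2
    have h3 : HasFDerivAt (fun y => R (Fh y e))
        ((R.comp (ContinuousLinearMap.apply ℝ G e)).comp (fderiv ℝ Fh x)) x :=
      ((R.comp (ContinuousLinearMap.apply ℝ G e)).hasFDerivAt).comp x h1
    have h4 : HasFDerivAt (fun y => R (Fh y e)) (0 : X →L[ℝ] E) x := by
      refine (hasFDerivAt_const e x).congr_of_eventuallyEq ?_
      filter_upwards [Metric.isOpen_ball.mem_nhds hx] with y hy
      exact hRF y hy e
    have h5 := h3.unique h4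
    have h6 : R (fderiv ℝ Fh x v e) = 0 := by
      have := congrArg (fun a : X →L[ℝ] E => a v) h5
      exact this
    rw [hw, hRF x hx] at h6
    rw [hw, h6, map_zero]
    rfl
  have hconst : ∀ x ∈ Metric.ball x₀ r, Fh x = Fh x₀ := by
    intro x hx
    exact Metric.isOpen_ball.is_const_of_fderiv_eq_zero (convex_ball x₀ r).isPreconnected
      (fun y hy => (hFd y hy).differentiableAt.differentiableWithinAt) (fun y hy => hzero y hy)
      hx (Metric.mem_ball_self hr)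
  have hFh0 : ∀ e, Fh x₀ e = F x₀ e := by
    intro e
    have := hFhT x₀ (Metric.mem_ball_self hr) e
    rw [hT0] at this
    exact this.symm
  refine ⟨r, hr, hrU, fun x hx => ⟨fun e => ⟨T x e, ?_⟩, fun e => ⟨I x e, ?_⟩⟩⟩
  · rw [hFhT x hx, hconst x hx, hFh0]
  · rw [← hFha, hconst x hx, hFh0]

end J2x

alias range_const := J2x.range_const

end MP2482e4
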