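import Pool.Agent.Helper707.EC.Defs

set_option autoImplicit false
set_option maxHeartbeats 1000000

open Matrix Topology
open scoped ContDiff ComplexOrder Matrix.Norms.L2Operator

namespace MP2482e4

namespace J3x


theorem bracket_mem {X G : Type*} [NormedAddCommGroup X] [NormedSpace ℝ X]
    [FiniteDimensional ℝ X] [NormedAddCommGroup G] [NormedSpace ℝ G] [FiniteDimensional ℝ G]
    {U : Set X} (hU : IsOpen U) (θ : X → G) (hθ : ContDiffOn ℝ ∞ θ U)
    (hinj : ∀ x ∈ U, Function.Injective (fderiv ℝ θ x)) (M₁ M₂ : G →L[ℝ] G)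
    (h1 : ∀ x ∈ U, ∃ v, M₁ (θ x) = fderiv ℝ θ x v)
    (h2 : ∀ x ∈ U, ∃ v, M₂ (θ x) = fderiv ℝ θ x v) :
    ∀ x ∈ U, ∃ v, M₁ (M₂ (θ x)) - M₂ (M₁ (θ x)) = fderiv ℝ θ x v := by
  intro x hx
  have : CompleteSpace X := FiniteDimensional.complete ℝ X
  obtain ⟨R0, hR0⟩ := (fderiv ℝ θ x : X →ₗ[ℝ] G).exists_leftInverse_of_injective
    (LinearMap.ker_eq_bot.mpr (hinj x hx))
  let R : G →L[ℝ] X := LinearMap.toContinuousLinearMap R0
  have hR : R.comp (fderiv ℝ θ x) = ContinuousLinearMap.id ℝ X := by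
    ext v
    exact congrArg (fun f => f v) hR0
  have h2inf : (2 : WithTop ℕ∞) ≤ ∞ := 
    show ((2 : ℕ∞) : WithTop ℕ∞) ≤ ((⊤ : ℕ∞) : WithTop ℕ∞) from WithTop.coe_le_coe.mpr le_top
  have hθx : ContDiffAt ℝ ∞ θ x := hθ.contDiffAt (hU.mem_nhds hx)
  have hD : ContDiffAt ℝ 1 (fderiv ℝ θ) x := hθx.fderiv_right (by norm_num; exact h2inf)
  let A : X → X →L[ℝ] X := fun y => R.comp (fderiv ℝ θ y)
  have hA : ContDiffAt ℝ 1 A x := contDiffAt_const.clm_comp hD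
  have hAx : A x = (ContinuousLinearEquiv.refl ℝ X : X →L[ℝ] X) := hR
  let B : X → X →L[ℝ] X := fun y => ContinuousLinearMap.inverse (A y)
  have hB : ContDiffAt ℝ 1 B x := by
    refine ContDiffAt.comp x (g := ContinuousLinearMap.inverse) ?_ hA
    rw [hAx]
    exact contDiffAt_map_inverse _
  have hinv : ∀ᶠ y in 𝓝 x, ∀ v, B y (A y v) = v := by
    have h3 : Set.range ((↑) : (X ≃L[ℝ] X) → X →L[ℝ] X) ∈ 𝓝 (A x) := by
      rw [hAx]
      exact ContinuousLinearEquiv.nhds _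
    filter_upwards [hA.continuousAt.preimage_mem_nhds h3] with y hy v
    obtain ⟨e, he⟩ := hy
    show ContinuousLinearMap.inverse (A y) (A y v) = v
    rw [← he, ContinuousLinearMap.inverse_equiv]
    simp
  have key : ∀ M : G →L[ℝ] G, (∀ x ∈ U, ∃ v, M (θ x) = fderiv ℝ θ x v) →
      ∃ ξ : X → X, ∃ ξ' : X →L[ℝ] X, fderiv ℝ θ x (ξ x) = M (θ x) ∧
        ∀ h, fderiv ℝ (fderiv ℝ θ) x h (ξ x) + fderiv ℝ θ x (ξ' h) = M (fderiv ℝ θ x h) := by
    intro M hM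
    let ξ : X → X := fun y => B y (R (M (θ y)))
    have hθd : DifferentiableAt ℝ θ x := hθx.differentiableAt (by simp)
    have hξ : DifferentiableAt ℝ ξ x := by
      refine DifferentiableAt.clm_apply (hB.differentiableAt (by simp)) ?_
      exact R.differentiableAt.comp x (M.differentiableAt.comp x hθd)
    have hev : ∀ᶠ y in 𝓝 x, fderiv ℝ θ y (ξ y) = M (θ y) := by
      filter_upwards [hinv, hU.mem_nhds hx] with y hy hyU
      obtain ⟨v, hv⟩ := hM y hyU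
      have h4 : ξ y = v := by
        show B y (R (M (θ y))) = v
        rw [hv]
        exact hy v
      rw [h4, hv]
    refine ⟨ξ, fderiv ℝ ξ x, hev.self_of_nhds, fun h => ?_⟩
    have hDd : DifferentiableAt ℝ (fderiv ℝ θ) x := hD.differentiableAt (by simp)
    have h5 : HasFDerivAt (fun y => fderiv ℝ θ y (ξ y))
        ((fderiv ℝ θ x).comp (fderiv ℝ ξ x) + (fderiv ℝ (fderiv ℝ θ) x).flip (ξ x)) x :=
      hDd.hasFDerivAt.clm_apply hξ.hasFDerivAt
    have h6 : HasFDerivAt (fun y => M (θ y)) (M.comp (fderiv ℝ θ x)) x :=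
      M.hasFDerivAt.comp x hθd.hasFDerivAt
    have h7 := h5.congr_of_eventuallyEq (f₁ := fun y => M (θ y))
      (hev.mono fun y hy => hy.symm)
    have h8 := h7.unique h6
    have h9 := congrArg (fun f : X →L[ℝ] G => f h) h8
    simp only [_root_.add_apply, ContinuousLinearMap.comp_apply,
      ContinuousLinearMap.flip_apply] at h9
    rw [← h9, add_comm]
  obtain ⟨ξ₁, ξ₁', a1, b1⟩ := key M₁ h1
  obtain ⟨ξ₂, ξ₂', a2, b2⟩ := key M₂ h2
  have hsymm : IsSymmSndFDerivAt ℝ θ x := hθx.isSymmSndFDerivAt (by simp; exact h2inf)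
  refine ⟨ξ₁' (ξ₂ x) - ξ₂' (ξ₁ x), ?_⟩
  have c1 := b1 (ξ₂ x)
  have c2 := b2 (ξ₁ x)
  rw [a2] at c1
  rw [a1] at c2
  have c3 := hsymm (ξ₁ x) (ξ₂ x)
  rw [map_sub, ← c1, ← c2, c3]
  abel

end J3x

alias bracket_mem := J3x.bracket_mem

end MP2482e4
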