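import Pool.Agent.Helper707.EC.Defs

set_option autoImplicit false
set_option maxHeartbeats 1000000

open Matrix Topology
open scoped ContDiff ComplexOrder Matrix.Norms.L2Operator

namespace MP2482e4

namespace J6ax


theorem fp_pos {p t : ℝ} (hp : 0 < p) (ht : 0 < t) : 0 < fp p t := by
  unfold fp
  split_ifs with h
  · exact one_pos
  · have h1 : 0 < t ^ p := Real.rpow_pos_of_pos ht p
    apply mul_pos (by positivity)
    rcases lt_or_gt_of_ne h with h2 | h2
    · have h3 : t ^ p < 1 := Real.rpow_lt_one ht.le h2 hp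
      apply div_pos_of_neg_of_neg
      · exact mul_neg_of_neg_of_pos (by linarith) (by linarith)
      · linarith
    · have h3 : 1 < t ^ p := Real.one_lt_rpow h2 hp
      apply div_pos
      · exact mul_pos (by linarith) (by linarith)
      · linarith

theorem fp_symm {p t : ℝ} (hp : 0 < p) (ht : 0 < t) : t * fp p t⁻¹ = fp p t := by
  unfold fp
  by_cases h : t = 1
  · subst h
    simp
  · have h' : t⁻¹ ≠ 1 := by
      intro hc
      exact h (inv_eq_one.mp hc)
    rw [if_neg h, if_neg h', Real.inv_rpow ht.le]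
    have h1 : 0 < t ^ p := Real.rpow_pos_of_pos ht p
    have h2 : t ^ p ≠ 1 := by
      rcases lt_or_gt_of_ne h with h2 | h2
      · exact (Real.rpow_lt_one ht.le h2 hp).ne
      · exact (Real.one_lt_rpow h2 hp).ne'
    have h3 : t ^ p - 1 ≠ 0 := sub_ne_zero.mpr h2
    have h4 : (t ^ p)⁻¹ - 1 ≠ 0 := by
      rw [sub_ne_zero]
      intro hc
      exact h2 (inv_eq_one.mp hc)
    generalize t ^ p = s at *
    have hs : s ≠ 0 := h1.ne'
    have h5 : 1 - s ≠ 0 := by
      intro hc
      exact h3 (by linarith)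
    have h6 : s⁻¹ - 1 = (1 - s) / s := by field_simp
    have h7 : s⁻¹ + 1 = (1 + s) / s := by field_simp
    have h8 : t⁻¹ - 1 = (1 - t) / t := by field_simp
    rw [h6, h7, h8]
    have ht' := ht.ne'
    have h9 : s - 1 = -(1 - s) := by ring
    rw [h9]
    field_simp
    ring

theorem fp_one (p : ℝ) : fp p 1 = 1 := by
  unfold fp
  rw [if_pos rfl]

end J6ax

alias fp_pos := J6ax.fp_pos
alias fp_symm := J6ax.fp_symm
alias fp_one := J6ax.fp_one

end MP2482e4
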