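import Pool.Agent.Helper707.EC.Defs

set_option autoImplicit false
set_option maxHeartbeats 1000000

open Matrix Topology
open scoped ContDiff ComplexOrder Matrix.Norms.L2Operator

namespace MP2482e4

namespace J6bx


section KopAux

variable {n : ℕ} {f : ℝ → ℝ} {ρ : Mat n}

/-- the coefficients -/
noncomputable def kcc (f : ℝ → ℝ) (h : ρ.IsHermitian) (i j : Fin n) : ℝ :=
  h.eigenvalues j * f (h.eigenvalues i / h.eigenvalues j)

/-- the eigenvector matrix -/
noncomputable def kQ (h : ρ.IsHermitian) : Mat n := (h.eigenvectorUnitary : Mat n)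

theorem kQ_star_mul (h : ρ.IsHermitian) : star (kQ h) * kQ h = 1 :=
  Unitary.coe_star_mul_self _

theorem kQ_mul_star (h : ρ.IsHermitian) : kQ h * star (kQ h) = 1 :=
  Unitary.coe_mul_star_self _

theorem Kop_eq (f : ℝ → ℝ) (h : ρ.IsHermitian) (A : Mat n) : Kop f ρ A =
    kQ h * (Matrix.of fun i j => ((kcc f h i j : ℝ) : ℂ) * (star (kQ h) * A * kQ h) i j) *
      star (kQ h) := by
  unfold Kop
  rw [dif_pos h]
  rfl

theorem kQ_conj_conj (h : ρ.IsHermitian) (M : Mat n) :
    star (kQ h) * (kQ h * M * star (kQ h)) * kQ h = M := by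
  calc star (kQ h) * (kQ h * M * star (kQ h)) * kQ h
      = (star (kQ h) * kQ h) * M * (star (kQ h) * kQ h) := by simp only [Matrix.mul_assoc]
    _ = M := by rw [kQ_star_mul, Matrix.one_mul, Matrix.mul_one]

theorem kQ_conj_conj' (h : ρ.IsHermitian) (M : Mat n) :
    kQ h * (star (kQ h) * M * kQ h) * star (kQ h) = M := by
  calc kQ h * (star (kQ h) * M * kQ h) * star (kQ h)
      = (kQ h * star (kQ h)) * M * (kQ h * star (kQ h)) := by simp only [Matrix.mul_assoc]
    _ = M := by rw [kQ_mul_star, Matrix.one_mul, Matrix.mul_one]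

theorem Kop_conj (f : ℝ → ℝ) (h : ρ.IsHermitian) (A : Mat n) :
    star (kQ h) * Kop f ρ A * kQ h =
      Matrix.of fun i j => ((kcc f h i j : ℝ) : ℂ) * (star (kQ h) * A * kQ h) i j := by
  rw [Kop_eq f h, kQ_conj_conj]

theorem kcc_pos (hf : ∀ t, 0 < t → 0 < f t) (hρ : ρ.PosDef) (i j : Fin n) :
    0 < kcc f hρ.isHermitian i j :=
  mul_pos (hρ.eigenvalues_pos j) (hf _ (div_pos (hρ.eigenvalues_pos i) (hρ.eigenvalues_pos j)))

theorem kcc_symm (hs : ∀ t, 0 < t → t * f t⁻¹ = f t) (hρ : ρ.PosDef) (i j : Fin n) :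
    kcc f hρ.isHermitian j i = kcc f hρ.isHermitian i j := by
  have hi : 0 < hρ.isHermitian.eigenvalues i := hρ.eigenvalues_pos i
  have hj : 0 < hρ.isHermitian.eigenvalues j := hρ.eigenvalues_pos j
  unfold kcc
  have h1 := hs (hρ.isHermitian.eigenvalues i / hρ.isHermitian.eigenvalues j) (div_pos hi hj)
  rw [inv_div] at h1
  rw [← h1]
  field_simp

theorem kcc_diag (h1 : f 1 = 1) (hρ : ρ.PosDef) (i : Fin n) :
    kcc f hρ.isHermitian i i = hρ.isHermitian.eigenvalues i := by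
  have hi : 0 < hρ.isHermitian.eigenvalues i := hρ.eigenvalues_pos i
  unfold kcc
  rw [div_self hi.ne', h1, mul_one]

theorem conj_herm (h : ρ.IsHermitian) {A : Mat n} (hA : A.IsHermitian) :
    (star (kQ h) * A * kQ h).IsHermitian := by
  unfold Matrix.IsHermitian
  rw [Matrix.conjTranspose_mul, Matrix.conjTranspose_mul, hA.eq, ← Matrix.star_eq_conjTranspose,
    ← Matrix.star_eq_conjTranspose, star_star, Matrix.mul_assoc]

theorem conj_herm' (h : ρ.IsHermitian) {A : Mat n} (hA : A.IsHermitian) :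
    (kQ h * A * star (kQ h)).IsHermitian := by
  unfold Matrix.IsHermitian
  rw [Matrix.conjTranspose_mul, Matrix.conjTranspose_mul, hA.eq, ← Matrix.star_eq_conjTranspose,
    ← Matrix.star_eq_conjTranspose, star_star, Matrix.mul_assoc]

theorem kQ_diag (h : ρ.IsHermitian) :
    star (kQ h) * ρ * kQ h = Matrix.diagonal fun i => ((h.eigenvalues i : ℝ) : ℂ) := by
  have h1 := h.spectral_theorem
  rw [Unitary.conjStarAlgAut_apply] at h1
  have h2 : ρ = kQ h * (Matrix.diagonal fun i => ((h.eigenvalues i : ℝ) : ℂ)) * star (kQ h) := h1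
  calc star (kQ h) * ρ * kQ h = star (kQ h) *
      (kQ h * (Matrix.diagonal fun i => ((h.eigenvalues i : ℝ) : ℂ)) * star (kQ h)) * kQ h := by
        rw [← h2]
    _ = _ := kQ_conj_conj h _

end KopAux

theorem metric_Kop {n : ℕ} {f : ℝ → ℝ} (hf : ∀ t, 0 < t → 0 < f t) {ρ : Mat n}
    (hρ : ρ.PosDef) {X : Mat n} (hX : X.IsHermitian) (A : Mat n) :
    petzMetric f ρ X (Kop f ρ A) = (A * X).trace.re := by
  have h := hρ.isHermitian
  have e0 : petzMetric f ρ X (Kop f ρ A) = ∑ i, ∑ j,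
      (star ((star (kQ h) * X * kQ h) i j) * ((star (kQ h) * Kop f ρ A * kQ h) i j)).re /
        kcc f h i j := by
    unfold petzMetric
    rw [dif_pos h]
    rfl
  rw [e0, Kop_conj f h]
  set X' : Mat n := star (kQ h) * X * kQ h with hX'
  set A' : Mat n := star (kQ h) * A * kQ h with hA'
  have e1 : ∀ i j, (star (X' i j) * (Matrix.of fun i j => ((kcc f h i j : ℝ) : ℂ) * A' i j) i j).re /
      kcc f h i j = (star (X' i j) * A' i j).re := by
    intro i j
    have hc : kcc f h i j ≠ 0 := (kcc_pos hf hρ i j).ne'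
    have e2 : star (X' i j) * (Matrix.of fun i j => ((kcc f h i j : ℝ) : ℂ) * A' i j) i j
        = ((kcc f h i j : ℝ) : ℂ) * (star (X' i j) * A' i j) := by
      rw [Matrix.of_apply]
      ring
    rw [e2, Complex.re_ofReal_mul, mul_div_cancel_left₀ _ hc]
  simp only [e1]
  have hXh : X'.IsHermitian := conj_herm h hX
  have e3 : ∀ i j, star (X' i j) = X' j i := fun i j => by
    have := hXh.apply j i
    exact this
  have e4 : ∑ i, ∑ j, (star (X' i j) * A' i j).re = (X' * A').trace.re := by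
    rw [Matrix.trace]
    simp only [Matrix.diag_apply, Matrix.mul_apply, e3]
    rw [Complex.re_sum, Finset.sum_comm]
    refine Finset.sum_congr rfl fun j _ => ?_
    rw [Complex.re_sum]
  rw [e4]
  have e5 : (X' * A').trace = (A * X).trace := by
    have e6 : X' * A' = star (kQ h) * (X * A) * kQ h := by
      calc X' * A' = star (kQ h) * X * (kQ h * star (kQ h)) * A * kQ h := by
            rw [hX', hA']; simp only [Matrix.mul_assoc]
        _ = star (kQ h) * (X * A) * kQ h := by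
            rw [kQ_mul_star, Matrix.mul_one]; simp only [Matrix.mul_assoc]
    rw [e6, Matrix.trace_mul_comm, ← Matrix.mul_assoc, kQ_mul_star, Matrix.one_mul,
      Matrix.trace_mul_comm]
  rw [e5]

theorem Kop_surj {n : ℕ} {f : ℝ → ℝ} (hf : ∀ t, 0 < t → 0 < f t)
    (hs : ∀ t, 0 < t → t * f t⁻¹ = f t) {ρ : Mat n}
    (hρ : ρ.PosDef) {Y : Mat n} (hY : Y.IsHermitian) :
    ∃ A : Mat n, A.IsHermitian ∧ Kop f ρ A = Y := by
  have h := hρ.isHermitian
  have hYh : (star (kQ h) * Y * kQ h).IsHermitian := conj_herm h hY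
  refine ⟨kQ h * (Matrix.of fun i j => (((kcc f h i j)⁻¹ : ℝ) : ℂ) *
    (star (kQ h) * Y * kQ h) i j) * star (kQ h), ?_, ?_⟩
  · apply conj_herm'
    apply Matrix.IsHermitian.ext
    intro i j
    have h1 := hYh.apply i j
    rw [Matrix.of_apply, Matrix.of_apply, star_mul', h1, kcc_symm hs hρ i j]
    congr 1
    exact Complex.conj_ofReal _
  · rw [Kop_eq f h, kQ_conj_conj]
    have e1 : (Matrix.of fun i j => ((kcc f h i j : ℝ) : ℂ) *
        (Matrix.of fun i j => (((kcc f h i j)⁻¹ : ℝ) : ℂ) * (star (kQ h) * Y * kQ h) i j) i j)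
        = star (kQ h) * Y * kQ h := by
      ext i j
      rw [Matrix.of_apply, Matrix.of_apply, ← mul_assoc, ← Complex.ofReal_mul,
        mul_inv_cancel₀ (kcc_pos hf hρ i j).ne', Complex.ofReal_one, one_mul]
    rw [e1, kQ_conj_conj']

theorem Kop_herm {n : ℕ} {f : ℝ → ℝ} (hs : ∀ t, 0 < t → t * f t⁻¹ = f t) {ρ : Mat n}
    (hρ : ρ.PosDef) {A : Mat n} (hA : A.IsHermitian) : (Kop f ρ A).IsHermitian := by
  have h := hρ.isHermitian
  have hAh : (star (kQ h) * A * kQ h).IsHermitian := conj_herm h hA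
  rw [Kop_eq f h]
  apply conj_herm'
  apply Matrix.IsHermitian.ext
  intro i j
  have h1 := hAh.apply i j
  rw [Matrix.of_apply, Matrix.of_apply, star_mul', h1, kcc_symm hs hρ i j]
  congr 1
  exact Complex.conj_ofReal _

theorem Kop_inj {n : ℕ} {f : ℝ → ℝ} (hf : ∀ t, 0 < t → 0 < f t) {ρ : Mat n}
    (hρ : ρ.PosDef) {A : Mat n} (hA : Kop f ρ A = 0) : A = 0 := by
  have h := hρ.isHermitian
  have h1 := Kop_conj f h A
  rw [hA, Matrix.mul_zero, Matrix.zero_mul] at h1
  have h2 : star (kQ h) * A * kQ h = 0 := by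
    ext i j
    have h3 := congrFun (congrFun h1 i) j
    rw [Matrix.of_apply, Matrix.zero_apply] at h3
    rcases mul_eq_zero.1 h3.symm with h4 | h4
    · exact absurd (Complex.ofReal_eq_zero.1 h4) (kcc_pos hf hρ i j).ne'
    · exact h4
  rw [← kQ_conj_conj' h A, h2, Matrix.mul_zero, Matrix.zero_mul]

theorem Kop_add {n : ℕ} (f : ℝ → ℝ) (ρ A B : Mat n) :
    Kop f ρ (A + B) = Kop f ρ A + Kop f ρ B := by
  classical
  by_cases h : ρ.IsHermitian
  · rw [Kop_eq f h, Kop_eq f h, Kop_eq f h, ← Matrix.add_mul, ← Matrix.mul_add]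
    congr 2
    ext i j
    rw [Matrix.add_apply, Matrix.of_apply, Matrix.of_apply, Matrix.of_apply, Matrix.mul_add,
      Matrix.add_mul, Matrix.add_apply, mul_add]
  · unfold Kop
    rw [dif_neg h, dif_neg h, dif_neg h, add_zero]

theorem Kop_smul {n : ℕ} (f : ℝ → ℝ) (ρ : Mat n) (c : ℝ) (A : Mat n) :
    Kop f ρ (c • A) = c • Kop f ρ A := by
  classical
  by_cases h : ρ.IsHermitian
  · rw [Kop_eq f h, Kop_eq f h, ← Matrix.smul_mul, ← Matrix.mul_smul]
    congr 2
    ext i j
    rw [Matrix.smul_apply, Matrix.of_apply, Matrix.of_apply, Matrix.mul_smul,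
      Matrix.smul_mul, Matrix.smul_apply, mul_smul_comm]
  · unfold Kop
    rw [dif_neg h, dif_neg h, smul_zero]

theorem Kop_one {n : ℕ} {f : ℝ → ℝ} (h1 : f 1 = 1) {ρ : Mat n} (hρ : ρ.PosDef) :
    Kop f ρ 1 = ρ := by
  have h := hρ.isHermitian
  rw [Kop_eq f h, Matrix.mul_one, kQ_star_mul]
  have e1 : (Matrix.of fun i j => ((kcc f h i j : ℝ) : ℂ) * (1 : Mat n) i j)
      = star (kQ h) * ρ * kQ h := by
    rw [kQ_diag h]
    ext i j
    rw [Matrix.of_apply]
    by_cases hij : i = j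
    · subst hij
      rw [Matrix.one_apply_eq, mul_one, Matrix.diagonal_apply_eq, kcc_diag h1 hρ i]
    · rw [Matrix.one_apply_ne hij, mul_zero, Matrix.diagonal_apply_ne _ hij]
  rw [e1, kQ_conj_conj']

theorem Kop_trace {n : ℕ} {f : ℝ → ℝ} (h1 : f 1 = 1) {ρ : Mat n} (hρ : ρ.PosDef) (A : Mat n) :
    (Kop f ρ A).trace = (ρ * A).trace := by
  have h := hρ.isHermitian
  rw [Kop_eq f h, Matrix.trace_mul_comm, ← Matrix.mul_assoc, kQ_star_mul, Matrix.one_mul]
  have e1 : (ρ * A).trace = ((star (kQ h) * ρ * kQ h) * (star (kQ h) * A * kQ h)).trace := by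
    have e2 : (star (kQ h) * ρ * kQ h) * (star (kQ h) * A * kQ h)
        = star (kQ h) * (ρ * A) * kQ h := by
      calc (star (kQ h) * ρ * kQ h) * (star (kQ h) * A * kQ h)
          = star (kQ h) * ρ * (kQ h * star (kQ h)) * A * kQ h := by simp only [Matrix.mul_assoc]
        _ = star (kQ h) * (ρ * A) * kQ h := by
            rw [kQ_mul_star, Matrix.mul_one]; simp only [Matrix.mul_assoc]
    have e3 : (star (kQ h) * (ρ * A) * kQ h).trace = (ρ * A).trace := by
      rw [Matrix.trace_mul_comm (star (kQ h) * (ρ * A)), ← Matrix.mul_assoc, kQ_mul_star,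
        Matrix.one_mul]
    rw [e2, e3]
  rw [e1, kQ_diag h]
  rw [Matrix.trace, Matrix.trace]
  refine Finset.sum_congr rfl fun i _ => ?_
  rw [Matrix.diag_apply, Matrix.diag_apply, Matrix.of_apply, Matrix.diagonal_mul,
    kcc_diag h1 hρ i]

end J6bx

alias metric_Kop := J6bx.metric_Kop
alias Kop_surj := J6bx.Kop_surj
alias Kop_herm := J6bx.Kop_herm
alias Kop_inj := J6bx.Kop_inj
alias Kop_add := J6bx.Kop_add
alias Kop_smul := J6bx.Kop_smul
alias Kop_one := J6bx.Kop_one
alias Kop_trace := J6bx.Kop_trace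

end MP2482e4
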