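import Pool.Agent.Helper707.EC.Defs

set_option autoImplicit false
set_option maxHeartbeats 1000000

open Matrix Topology
open scoped ContDiff ComplexOrder Matrix.Norms.L2Operator

namespace MP2482e4

namespace J7ax


/-- evaluation of the exponential of an operator -/
theorem exp_apply_aux {n : ℕ} (T : Mat n →L[ℝ] Mat n) (Z : Mat n) :
    HasSum (fun k : ℕ => ((k.factorial : ℝ)⁻¹) • ((T ^ k) Z)) (NormedSpace.exp T Z) := by
  have h1 := NormedSpace.exp_series_hasSum_exp' (𝕂 := ℝ) T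
  have h2 := h1.mapL (ContinuousLinearMap.apply ℝ (Mat n) Z)
  exact h2

theorem exp_left_aux {n : ℕ} (B : Mat n) (T : Mat n →L[ℝ] Mat n) (hT : ∀ W, T W = B * W)
    (Z : Mat n) : NormedSpace.exp T Z = NormedSpace.exp B * Z := by
  have h1 := exp_apply_aux T Z
  have h2 := (NormedSpace.exp_series_hasSum_exp' (𝕂 := ℝ) B).mul_right Z
  apply h1.unique
  have e : (fun k : ℕ => ((k.factorial : ℝ)⁻¹) • ((T ^ k) Z)) =
      fun k : ℕ => ((k.factorial : ℝ)⁻¹) • B ^ k * Z := by
    funext k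
    rw [smul_mul_assoc]
    congr 1
    induction k with
    | zero => simp
    | succ k ih =>
      rw [pow_succ', pow_succ', mul_assoc, ← ih]
      exact hT _
  rw [e]
  exact h2

theorem exp_right_aux {n : ℕ} (B : Mat n) (T : Mat n →L[ℝ] Mat n) (hT : ∀ W, T W = W * B)
    (Z : Mat n) : NormedSpace.exp T Z = Z * NormedSpace.exp B := by
  have h1 := exp_apply_aux T Z
  have h2 := (NormedSpace.exp_series_hasSum_exp' (𝕂 := ℝ) B).mul_left Z
  apply h1.unique
  have e : (fun k : ℕ => ((k.factorial : ℝ)⁻¹) • ((T ^ k) Z)) =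
      fun k : ℕ => Z * ((k.factorial : ℝ)⁻¹) • B ^ k := by
    funext k
    rw [mul_smul_comm]
    congr 1
    induction k with
    | zero => simp
    | succ k ih =>
      rw [pow_succ', pow_succ, ← mul_assoc, ← ih]
      exact hT _
  rw [e]
  exact h2

theorem exp_conj_mem {n : ℕ} (g : Submodule ℝ (Mat n)) {A : Mat n}
    (hg : ∀ Z ∈ g, A * Z - Z * A ∈ g) (s : ℝ) {Z : Mat n} (hZ : Z ∈ g) :
    NormedSpace.exp (s • A) * Z * NormedSpace.exp (-(s • A)) ∈ g := by
  letI : NormedAlgebra ℚ (Mat n →L[ℝ] Mat n) := NormedAlgebra.restrictScalars ℚ ℝ _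
  obtain ⟨B, hB⟩ : ∃ B, B = s • A := ⟨_, rfl⟩
  rw [← hB]
  obtain ⟨L, hL⟩ : ∃ L : Mat n →L[ℝ] Mat n, ∀ W, L W = B * W :=
    ⟨ContinuousLinearMap.mul ℝ (Mat n) B, fun W => rfl⟩
  obtain ⟨R, hR⟩ : ∃ R : Mat n →L[ℝ] Mat n, ∀ W, R W = W * (-B) :=
    ⟨(ContinuousLinearMap.mul ℝ (Mat n)).flip (-B), fun W => rfl⟩
  have hcomm : Commute L R := by
    apply ContinuousLinearMap.ext
    intro W
    show L (R W) = R (L W)
    rw [hR, hL, hL, hR, mul_assoc]
  have hexp : NormedSpace.exp (L + R) Z = NormedSpace.exp B * Z * NormedSpace.exp (-B) := by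
    have h := NormedSpace.exp_add_of_commute (𝔸 := Mat n →L[ℝ] Mat n) (x := L) (y := R) hcomm
    rw [h]
    show NormedSpace.exp L (NormedSpace.exp R Z) = _
    rw [exp_right_aux (-B) R hR, exp_left_aux B L hL, mul_assoc]
  rw [← hexp]
  have hcl : IsClosed (g : Set (Mat n)) := Submodule.closed_of_finiteDimensional g
  have hT : ∀ W ∈ g, (L + R) W ∈ g := by
    intro W hW
    have e : (L + R) W = s • (A * W - W * A) := by
      show L W + R W = _
      rw [hL, hR, hB, smul_sub, smul_mul_assoc, mul_neg, mul_smul_comm, sub_eq_add_neg]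
    rw [e]
    exact g.smul_mem s (hg W hW)
  have hpow : ∀ k : ℕ, ((L + R) ^ k) Z ∈ g := by
    intro k
    induction k with
    | zero => simpa using hZ
    | succ k ih =>
      rw [pow_succ']
      exact hT _ ih
  have hs := exp_apply_aux (L + R) Z
  apply hcl.mem_of_tendsto hs
  apply Filter.Eventually.of_forall
  intro t
  exact g.sum_mem fun k _ => g.smul_mem _ (hpow k)

end J7ax

alias exp_conj_mem := J7ax.exp_conj_mem

end MP2482e4
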