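import Pool.Agent.Helper707.EC.Defs
import Pool.Agent.Helper707.EC.J7a

set_option autoImplicit false
set_option maxHeartbeats 1000000

open Matrix Topology
open scoped ContDiff ComplexOrder Matrix.Norms.L2Operator

namespace MP2482e4

namespace J7bx

noncomputable def PL {n k : ℕ} (l : List (Fin k × Mat n)) (t : Fin k → ℝ) : Mat n :=
  (l.map (fun p => NormedSpace.exp (t p.1 • p.2))).prod

theorem hasFDerivAt_E {n k : ℕ} (j : Fin k) (b : Mat n) (t : Fin k → ℝ) :
    HasFDerivAt (fun t : Fin k → ℝ => NormedSpace.exp (t j • b))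
      ((ContinuousLinearMap.proj j : (Fin k → ℝ) →L[ℝ] ℝ).smulRight
        (b * NormedSpace.exp (t j • b))) t := by
  have h1 := (hasDerivAt_exp_smul_const' (𝕂 := ℝ) b (t j)).hasFDerivAt
  have h2 : HasFDerivAt (fun t : Fin k → ℝ => t j)
    (ContinuousLinearMap.proj j : (Fin k → ℝ) →L[ℝ] ℝ) t := hasFDerivAt_apply j t
  have h3 := h1.comp t h2
  refine h3.congr_fderiv ?_
  ext1 v
  simp

theorem contDiff_E {n k : ℕ} (j : Fin k) (b : Mat n) :
    ContDiff ℝ ∞ (fun t : Fin k → ℝ => NormedSpace.exp (t j • b)) := by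
  have h1 : ContDiff ℝ ∞ (fun x : Mat n => NormedSpace.exp x) :=
    contDiff_iff_contDiffAt.mpr (fun x => (NormedSpace.exp_analytic (𝕂 := ℝ) x).contDiffAt)
  have h2 : ContDiff ℝ ∞ (fun t : Fin k → ℝ => t j • b) :=
    (contDiff_apply ℝ ℝ j).smul contDiff_const
  exact h1.comp h2

theorem PL_props {n k : ℕ} (g : Submodule ℝ (Mat n))
    (hg : ∀ A ∈ g, ∀ B ∈ g, A * B - B * A ∈ g) (l : List (Fin k × Mat n))
    (hl : ∀ p ∈ l, p.2 ∈ g) :
    ContDiff ℝ ∞ (PL l) ∧ PL l 0 = 1 ∧ (∀ t, IsUnit (PL l t)) ∧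
      (∀ t, ∀ Z ∈ g, PL l t * Z * (PL l t)⁻¹ ∈ g ∧ (PL l t)⁻¹ * Z * PL l t ∈ g) ∧
      (∀ t v, ∃ Z ∈ g, fderiv ℝ (PL l) t v = Z * PL l t) ∧
      ∀ v, fderiv ℝ (PL l) 0 v = (l.map (fun p => v p.1 • p.2)).sum := by
  induction l with
  | nil =>
    have h : (PL ([] : List (Fin k × Mat n))) = fun _ => 1 := by
      funext t; simp [PL]
    rw [h]
    refine ⟨contDiff_const, rfl, fun _ => isUnit_one, ?_, ?_, ?_⟩
    · intro t Z hZ
      simpa using hZ
    · intro t v
      exact ⟨0, g.zero_mem, by simp⟩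
    · intro v
      simp
  | cons p l ih =>
    obtain ⟨j, b⟩ := p
    obtain ⟨i1, i2, i3, i4, i5, i6⟩ := ih (fun q hq => hl q (List.mem_cons_of_mem _ hq))
    have hb : b ∈ g := hl (j, b) List.mem_cons_self
    have h : PL ((j, b) :: l) = fun t => NormedSpace.exp (t j • b) * PL l t := by
      funext t; simp [PL]
    have hder : ∀ t v, fderiv ℝ (PL ((j, b) :: l)) t v =
        NormedSpace.exp (t j • b) * fderiv ℝ (PL l) t v +
          v j • (b * NormedSpace.exp (t j • b)) * PL l t := by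
      intro t v
      rw [h]
      have h1 := (hasFDerivAt_E j b t)
      have h2 := (i1.differentiable (by simp) t).hasFDerivAt
      have h3 : HasFDerivAt (fun t : Fin k → ℝ => NormedSpace.exp (t j • b) * PL l t) _ t :=
        h1.mul' h2
      rw [h3.fderiv]
      simp
    have hinv : ∀ s : ℝ, NormedSpace.exp (s • b) * NormedSpace.exp (-(s • b)) = 1 := by
      intro s
      rw [Matrix.exp_neg]
      exact Matrix.mul_nonsing_inv _ ((Matrix.isUnit_iff_isUnit_det _).mp (Matrix.isUnit_exp _))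
    have hinv' : ∀ s : ℝ, NormedSpace.exp (-(s • b)) * NormedSpace.exp (s • b) = 1 := by
      intro s
      rw [Matrix.exp_neg]
      exact Matrix.nonsing_inv_mul _ ((Matrix.isUnit_iff_isUnit_det _).mp (Matrix.isUnit_exp _))
    refine ⟨?_, ?_, ?_, ?_, ?_, ?_⟩
    · rw [h]
      exact (contDiff_E j b).mul i1
    · rw [h]
      simp [i2]
    · intro t
      rw [h]
      exact (Matrix.isUnit_exp _).mul (i3 t)
    · intro t Z hZ
      rw [h]
      simp only
      rw [Matrix.mul_inv_rev, ← Matrix.exp_neg]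
      constructor
      · have h1 := exp_conj_mem g (hg b hb) (t j) (i4 t Z hZ).1
        have : NormedSpace.exp (t j • b) * PL l t * Z *
            ((PL l t)⁻¹ * NormedSpace.exp (-(t j • b))) =
            NormedSpace.exp (t j • b) * (PL l t * Z * (PL l t)⁻¹) *
              NormedSpace.exp (-(t j • b)) := by
          simp only [mul_assoc]
        rw [this]
        exact h1
      · have h1 := exp_conj_mem g (hg b hb) (-(t j)) hZ
        rw [neg_smul, neg_neg] at h1
        have h2 := (i4 t _ h1).2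
        have : (PL l t)⁻¹ * NormedSpace.exp (-(t j • b)) * Z *
            (NormedSpace.exp (t j • b) * PL l t) =
            (PL l t)⁻¹ * (NormedSpace.exp (-(t j • b)) * Z *
              NormedSpace.exp (t j • b)) * PL l t := by
          simp only [mul_assoc]
        rw [this]
        exact h2
    · intro t v
      obtain ⟨Z, hZ, hZ2⟩ := i5 t v
      refine ⟨v j • b + NormedSpace.exp (t j • b) * Z * NormedSpace.exp (-(t j • b)),
        g.add_mem (g.smul_mem _ hb) (exp_conj_mem g (hg b hb) (t j) hZ), ?_⟩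
      rw [hder, hZ2, h]
      simp only
      rw [add_mul]
      have e1 : NormedSpace.exp (t j • b) * Z * NormedSpace.exp (-(t j • b)) *
          (NormedSpace.exp (t j • b) * PL l t) =
          NormedSpace.exp (t j • b) * (Z * PL l t) := by
        calc _ = NormedSpace.exp (t j • b) * Z * (NormedSpace.exp (-(t j • b)) *
              NormedSpace.exp (t j • b)) * PL l t := by simp only [mul_assoc]
          _ = _ := by rw [hinv', mul_one, mul_assoc]
      rw [e1, add_comm]
      congr 1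
      simp only [smul_mul_assoc, mul_assoc]
    · intro v
      rw [hder, i6, i2]
      simp [add_comm]



theorem exists_group_chart {n k : ℕ} (g : Submodule ℝ (Mat n))
    (hg : ∀ A ∈ g, ∀ B ∈ g, A * B - B * A ∈ g) (a : Fin k → Mat n) (ha : ∀ j, a j ∈ g) :
    ∃ γ : (Fin k → ℝ) → Mat n, ContDiff ℝ ∞ γ ∧ γ 0 = 1 ∧ (∀ t, IsUnit (γ t)) ∧
      (∀ t, ∀ Z ∈ g, γ t * Z * (γ t)⁻¹ ∈ g ∧ (γ t)⁻¹ * Z * γ t ∈ g) ∧
      (∀ t v, ∃ Z ∈ g, fderiv ℝ γ t v = Z * γ t) ∧
      ∀ v, fderiv ℝ γ 0 v = ∑ j, v j • a j := by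
  obtain ⟨h1, h2, h3, h4, h5, h6⟩ := PL_props g hg (List.ofFn (fun j => (j, a j))) (by
    intro p hp
    rw [List.mem_ofFn] at hp
    obtain ⟨j, rfl⟩ := hp
    exact ha j)
  refine ⟨_, h1, h2, h3, h4, h5, ?_⟩
  intro v
  rw [h6, List.map_ofFn, List.sum_ofFn]
  rfl

end J7bx

alias exists_group_chart := J7bx.exists_group_chart

end MP2482e4
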