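import Pool.Agent.Helper707.EC.Defs
import Pool.Agent.Helper707.EC.J4

set_option autoImplicit false
set_option maxHeartbeats 1000000

open Matrix Topology
open scoped ContDiff ComplexOrder Matrix.Norms.L2Operator

namespace MP2482e4

namespace J8x


/-- anticommutator with `ψ` as a real linear map -/
def orbit_J {n : ℕ} (ψ : Mat n) : Mat n →ₗ[ℝ] Mat n where
  toFun C := C * ψ + ψ * C
  map_add' C D := by rw [add_mul, mul_add]; abel
  map_smul' r C := by
    rw [RingHom.id_apply, smul_add, Matrix.smul_mul, Matrix.mul_smul]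

/-- congruence by `γ` as a real linear map -/
def orbit_c {n : ℕ} (γ : Mat n) : Mat n →ₗ[ℝ] Mat n where
  toFun C := γ * C * star γ
  map_add' C D := by rw [mul_add, add_mul]
  map_smul' r C := by
    rw [RingHom.id_apply, Matrix.mul_smul, Matrix.smul_mul]

theorem orbit_J_apply {n : ℕ} (ψ C : Mat n) : orbit_J ψ C = C * ψ + ψ * C := rfl

theorem orbit_c_apply {n : ℕ} (γ C : Mat n) : orbit_c γ C = γ * C * star γ := rfl

theorem orbit_J_inj {n : ℕ} {ψ : Mat n} (hψ : ψ.PosDef) : Function.Injective (orbit_J ψ) := by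
  rw [← LinearMap.ker_eq_bot, LinearMap.ker_eq_bot']
  intro C hC
  exact anti_inj hψ hC

theorem orbit_tangent {n : ℕ} (W g : Submodule ℝ (Mat n)) (hWg : W ≤ g) {τ : Mat n}
    (hτ : τ.PosDef) (hact : ∀ Z ∈ g, ∃ C ∈ W, Z * τ + τ * star Z = C * τ + τ * C)
    (hWH : ∀ A ∈ W, A.IsHermitian) {γ : Mat n} (hγ : IsUnit γ)
    (hconj : ∀ Z ∈ g, γ * Z * γ⁻¹ ∈ g ∧ γ⁻¹ * Z * γ ∈ g) :
    ∀ Z ∈ g, ∃ C ∈ W, Z * (γ * τ * star γ) + (γ * τ * star γ) * star Z =
      C * (γ * τ * star γ) + (γ * τ * star γ) * C := by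
  have hdet : IsUnit γ.det := (Matrix.isUnit_iff_isUnit_det γ).1 hγ
  have hγ1 : γ * γ⁻¹ = 1 := Matrix.mul_nonsing_inv γ hdet
  have hγ2 : γ⁻¹ * γ = 1 := Matrix.nonsing_inv_mul γ hdet
  set ψ : Mat n := γ * τ * star γ with hψ
  have hψP : ψ.PosDef := by
    rw [hψ]
    exact (hγ.posDef_star_right_conjugate_iff).2 hτ
  have key : ∀ Z ∈ g, Z * ψ + ψ * star Z ∈ (W.map (orbit_J τ)).map (orbit_c γ) := by
    intro Z hZ
    obtain ⟨C, hC, h1⟩ := hact _ (hconj Z hZ).2
    refine ⟨orbit_J τ C, ⟨C, hC, rfl⟩, ?_⟩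
    rw [orbit_J_apply, orbit_c_apply, ← h1, hψ]
    have h2 : star (γ⁻¹ * Z * γ) * star γ = star γ * star Z := by
      rw [← star_mul, ← star_mul]
      congr 1
      calc γ * (γ⁻¹ * Z * γ) = (γ * γ⁻¹) * Z * γ := by simp only [mul_assoc]
        _ = Z * γ := by rw [hγ1, one_mul]
    calc γ * (γ⁻¹ * Z * γ * τ + τ * star (γ⁻¹ * Z * γ)) * star γ
        = (γ * γ⁻¹) * Z * (γ * τ * star γ) + γ * τ * (star (γ⁻¹ * Z * γ) * star γ) := by
          rw [mul_add, add_mul]; simp only [mul_assoc]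
      _ = Z * (γ * τ * star γ) + γ * τ * star γ * star Z := by
          rw [hγ1, one_mul, h2]; simp only [mul_assoc]
  have hle : W.map (orbit_J ψ) ≤ (W.map (orbit_J τ)).map (orbit_c γ) := by
    rintro _ ⟨C, hC, rfl⟩
    have h1 := key C (hWg hC)
    have h2 : star C = C := hWH C hC
    rw [h2] at h1
    exact h1
  have hfr : Module.finrank ℝ ((W.map (orbit_J τ)).map (orbit_c γ)) ≤
      Module.finrank ℝ (W.map (orbit_J ψ)) := by
    calc Module.finrank ℝ ((W.map (orbit_J τ)).map (orbit_c γ))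
        ≤ Module.finrank ℝ (W.map (orbit_J τ)) := Submodule.finrank_map_le _ _
      _ ≤ Module.finrank ℝ W := Submodule.finrank_map_le _ _
      _ = Module.finrank ℝ (W.map (orbit_J ψ)) :=
        (Submodule.equivMapOfInjective (orbit_J ψ) (orbit_J_inj hψP) W).finrank_eq
  have heq := Submodule.eq_of_le_of_finrank_le hle hfr
  intro Z hZ
  have h1 := key Z hZ
  rw [← heq] at h1
  obtain ⟨C, hC, h2⟩ := h1
  exact ⟨C, hC, h2.symm⟩

end J8x

alias orbit_tangent := J8x.orbit_tangent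

end MP2482e4
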