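import Pool.Agent.Helper707.EC.Defs

set_option autoImplicit false
set_option maxHeartbeats 1000000

open Matrix Topology
open scoped ContDiff ComplexOrder Matrix.Norms.L2Operator

namespace MP2482e4

namespace J9x


theorem exists_lie_closure {n : ℕ} (W : Submodule ℝ (Mat n))
    (hWH : ∀ A ∈ W, A.IsHermitian)
    (hlt : ∀ A ∈ W, ∀ B ∈ W, ∀ C ∈ W, ⁅A, ⁅B, C⁆⁆ ∈ W) {τ : Mat n}
    (hτ : ∀ A ∈ W, ∀ B ∈ W, ∃ C ∈ W, ⁅⁅A, B⁆, τ⁆ = C * τ + τ * C) :
    ∃ g : Submodule ℝ (Mat n), W ≤ g ∧ (∀ A ∈ g, ∀ B ∈ g, A * B - B * A ∈ g) ∧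
      ∀ Z ∈ g, ∃ C ∈ W, Z * τ + τ * star Z = C * τ + τ * C := by
  classical
  let S : Set (Mat n) := {X | X ∈ W ∨ ∃ A ∈ W, ∃ B ∈ W, X = A * B - B * A}
  have hSmem : ∀ A ∈ W, ∀ B ∈ W, A * B - B * A ∈ Submodule.span ℝ S := fun A hA B hB =>
    Submodule.subset_span (Or.inr ⟨A, hA, B, hB, rfl⟩)
  have hWS : ∀ A ∈ W, A ∈ Submodule.span ℝ S := fun A hA => Submodule.subset_span (Or.inl hA)
  have hlt' : ∀ A ∈ W, ∀ B ∈ W, ∀ C ∈ W, A * (B * C - C * B) - (B * C - C * B) * A ∈ W := by
    intro A hA B hB C hC
    have := hlt A hA B hB C hC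
    rwa [Ring.lie_def, Ring.lie_def] at this
  have hgen : ∀ X ∈ S, ∀ Y ∈ S, X * Y - Y * X ∈ Submodule.span ℝ S := by
    intro X hX Y hY
    rcases hX with hX | ⟨A, hA, B, hB, rfl⟩
    · rcases hY with hY | ⟨C, hC, D, hD, rfl⟩
      · exact hSmem X hX Y hY
      · exact hWS _ (hlt' X hX C hC D hD)
    · rcases hY with hY | ⟨C, hC, D, hD, rfl⟩
      · have h := hWS _ (W.neg_mem (hlt' Y hY A hA B hB))
        rwa [neg_sub] at h
      · have hE : (A * B - B * A) * C - C * (A * B - B * A) ∈ W := by
          have h := W.neg_mem (hlt' C hC A hA B hB)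
          rwa [neg_sub] at h
        have hF : (A * B - B * A) * D - D * (A * B - B * A) ∈ W := by
          have h := W.neg_mem (hlt' D hD A hA B hB)
          rwa [neg_sub] at h
        have h1 := hSmem _ hE D hD
        have h2 := hSmem C hC _ hF
        have h3 := (Submodule.span ℝ S).add_mem h1 h2
        convert h3 using 1
        noncomm_ring
  refine ⟨Submodule.span ℝ S, fun A hA => hWS A hA, ?_, ?_⟩
  · intro A hA B hB
    induction hA using Submodule.span_induction with
    | mem X hX =>
      induction hB using Submodule.span_induction with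
      | mem Y hY => exact hgen X hX Y hY
      | zero => simp
      | add U V _ _ hU hV =>
        have := (Submodule.span ℝ S).add_mem hU hV
        convert this using 1
        noncomm_ring
      | smul a U _ hU =>
        have := (Submodule.span ℝ S).smul_mem a hU
        convert this using 1
        rw [smul_sub, mul_smul_comm, smul_mul_assoc]
    | zero => simp
    | add U V _ _ hU hV =>
      have := (Submodule.span ℝ S).add_mem hU hV
      convert this using 1
      noncomm_ring
    | smul a U _ hU =>
      have := (Submodule.span ℝ S).smul_mem a hU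
      convert this using 1
      rw [smul_sub, mul_smul_comm, smul_mul_assoc]
  · intro Z hZ
    induction hZ using Submodule.span_induction with
    | mem X hX =>
      rcases hX with hX | ⟨A, hA, B, hB, rfl⟩
      · refine ⟨X, hX, ?_⟩
        have : star X = X := hWH X hX
        rw [this]
      · obtain ⟨C, hC, h⟩ := hτ A hA B hB
        refine ⟨C, hC, ?_⟩
        have h1 : star A = A := hWH A hA
        have h2 : star B = B := hWH B hB
        rw [← h, Ring.lie_def, Ring.lie_def, star_sub, star_mul, star_mul, h1, h2]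
        noncomm_ring
    | zero => exact ⟨0, W.zero_mem, by simp⟩
    | add U V _ _ hU hV =>
      obtain ⟨C, hC, h⟩ := hU
      obtain ⟨D, hD, h'⟩ := hV
      refine ⟨C + D, W.add_mem hC hD, ?_⟩
      rw [star_add, add_mul, mul_add, add_mul, mul_add]
      calc U * τ + V * τ + (τ * star U + τ * star V)
          = (U * τ + τ * star U) + (V * τ + τ * star V) := by abel
        _ = (C * τ + τ * C) + (D * τ + τ * D) := by rw [h, h']
        _ = _ := by abel
    | smul a U _ hU =>
      obtain ⟨C, hC, h⟩ := hU
      refine ⟨a • C, W.smul_mem a hC, ?_⟩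
      have hs : star (a • U) = a • star U := by
        rw [star_smul, star_trivial]
      rw [hs, smul_mul_assoc, mul_smul_comm, ← smul_add, h, smul_mul_assoc, mul_smul_comm, smul_add]

end J9x

alias exists_lie_closure := J9x.exists_lie_closure

end MP2482e4
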