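import Pool.Agent.Helper707.EC.Defs
import Pool.Agent.Helper707.EC.J6b

set_option autoImplicit false
set_option maxHeartbeats 1000000

open Matrix Topology
open scoped ContDiff ComplexOrder Matrix.Norms.L2Operator

namespace MP2482e4

namespace JIx


theorem eRep_indep {n k : ℕ} {f : ℝ → ℝ} (h1 : f 1 = 1)
    {U : Set (Fin k → ℝ)} {φ : (Fin k → ℝ) → Mat n} (hP : IsPatch U φ)
    {x : Fin k → ℝ} (hx : x ∈ U) (L : (Fin k → ℝ) →L[ℝ] Mat n)
    (hLK : ∀ v, (L v).IsHermitian ∧ Kop f (φ x) (L v) = dirD φ x v) :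
    ∀ (s : ℝ) (v : Fin k → ℝ), s • (1 : Mat n) + L v = 0 → s = 0 ∧ v = 0 := by
  intro s v h
  have hK0 : Kop f (φ x) 0 = 0 := by
    have h2 := Kop_smul f (φ x) 0 0
    rwa [zero_smul, zero_smul] at h2
  have h2 : s • φ x + dirD φ x v = 0 := by
    rw [← (hLK v).2, ← Kop_one h1 (hP.posDef x hx), ← Kop_smul, Kop_one h1 (hP.posDef x hx),
      ← Kop_add, h, hK0]
  have htr : (dirD φ x v).trace = 0 := by
    have hd : ∀ i : Fin n, DifferentiableAt ℝ (fun y => φ y i i) x := fun i =>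
      ((hP.smooth i i).differentiableOn (by simp)).differentiableAt (hP.isOpen.mem_nhds hx)
    have h3 : (dirD φ x v).trace = fderiv ℝ (fun y => ∑ i, φ y i i) x v := by
      rw [fderiv_fun_sum (fun i _ => hd i), ContinuousLinearMap.sum_apply]
      rfl
    have h4 : (fun y => ∑ i, φ y i i) =ᶠ[𝓝 x] fun _ => (1 : ℂ) := by
      filter_upwards [hP.isOpen.mem_nhds hx] with y hy
      exact hP.trace y hy
    rw [h3, h4.fderiv_eq, fderiv_fun_const]
    rfl
  have h5 := congrArg Matrix.trace h2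
  rw [Matrix.trace_add, Matrix.trace_smul, hP.trace x hx, htr, add_zero, Matrix.trace_zero] at h5
  have hs : s = 0 := by
    rw [Complex.real_smul, mul_one] at h5
    exact_mod_cast h5
  refine ⟨hs, hP.immersion x hx v ?_⟩
  rw [hs, zero_smul, zero_add] at h2
  exact h2

end JIx

alias eRep_indep := JIx.eRep_indep

end MP2482e4
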