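import Pool.Agent.Helper707.EC.Defs
import Pool.Agent.Helper707.EC.J1
import Pool.Agent.Helper707.EC.J14
import Pool.Agent.Helper707.EC.J2
import Pool.Agent.Helper707.EC.J6b
import Pool.Agent.Helper707.EC.JI

set_option autoImplicit false
set_option maxHeartbeats 1000000

open Matrix Topology
open scoped ContDiff ComplexOrder Matrix.Norms.L2Operator

namespace MP2482e4

namespace JAx


/-- the functional `A ↦ Re tr (A Y)` -/
noncomputable def ecTr {n : ℕ} (Y : Mat n) : Mat n →L[ℝ] ℝ :=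
  LinearMap.toContinuousLinearMap
    { toFun := fun A => (A * Y).trace.re
      map_add' := fun A B => by rw [Matrix.add_mul, Matrix.trace_add, Complex.add_re]
      map_smul' := fun c A => by
        rw [Matrix.smul_mul, Matrix.trace_smul, RingHom.id_apply]
        simp }

theorem ecTr_apply {n : ℕ} (Y A : Mat n) : ecTr Y A = (A * Y).trace.re := rfl

/-- conjugate transpose as a real linear map -/
noncomputable def ecStar {n : ℕ} : Mat n →L[ℝ] Mat n :=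
  LinearMap.toContinuousLinearMap
    { toFun := fun A => Aᴴ
      map_add' := fun A B => Matrix.conjTranspose_add A B
      map_smul' := fun c A => by
        rw [Matrix.conjTranspose_smul, RingHom.id_apply]
        simp }

theorem ecStar_apply {n : ℕ} (A : Mat n) : ecStar A = Aᴴ := rfl

theorem ec_line {n k : ℕ} {L : (Fin k → ℝ) → ((Fin k → ℝ) →L[ℝ] Mat n)} {x : Fin k → ℝ}
    (hd : DifferentiableAt ℝ L x) (v w : Fin k → ℝ) :
    HasDerivAt (fun t : ℝ => L (x + t • v) w) (fderiv ℝ L x v w) 0 := by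
  have h1 : HasDerivAt (fun t : ℝ => x + t • v) v 0 := by
    have := ((hasDerivAt_id (0 : ℝ)).smul_const v).const_add x
    simpa using this
  have h2 : HasFDerivAt L (fderiv ℝ L x) (x + (0 : ℝ) • v) := by
    rw [zero_smul, add_zero]
    exact hd.hasFDerivAt
  have h3 : HasDerivAt (fun t : ℝ => L (x + t • v)) (fderiv ℝ L x v) 0 :=
    HasFDerivAt.comp_hasDerivAt (E := (Fin k → ℝ) →L[ℝ] Mat n) (0 : ℝ) h2 h1
  have h4 := (ContinuousLinearMap.apply ℝ (Mat n) w).hasFDerivAt.comp_hasDerivAt (0 : ℝ) h3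
  exact h4

theorem ec_event {k : ℕ} {U : Set (Fin k → ℝ)} (hU : IsOpen U) {x : Fin k → ℝ} (hx : x ∈ U)
    (v : Fin k → ℝ) : ∀ᶠ t : ℝ in 𝓝 0, x + t • v ∈ U := by
  have hc : ContinuousAt (fun t : ℝ => x + t • v) 0 := by fun_prop
  apply hc.eventually_mem
  rw [zero_smul, add_zero]
  exact hU.mem_nhds hx

theorem ec_herm {n k : ℕ} {L : (Fin k → ℝ) → ((Fin k → ℝ) →L[ℝ] Mat n)} {U : Set (Fin k → ℝ)}
    (hU : IsOpen U) {x : Fin k → ℝ} (hx : x ∈ U)
    (hd : DifferentiableAt ℝ L x) (hh : ∀ y ∈ U, ∀ v, (L y v).IsHermitian) (v w : Fin k → ℝ) :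
    (fderiv ℝ L x v w).IsHermitian := by
  have h1 := ec_line hd v w
  have h2 : HasDerivAt (fun t : ℝ => ecStar (L (x + t • v) w)) (ecStar (fderiv ℝ L x v w)) 0 :=
    (ecStar (n := n)).hasFDerivAt.comp_hasDerivAt (0 : ℝ) h1
  have h3 : (fun t : ℝ => L (x + t • v) w) =ᶠ[𝓝 0] (fun t : ℝ => ecStar (L (x + t • v) w)) := by
    filter_upwards [ec_event hU hx v] with t ht
    exact (hh _ ht w).symm
  have h4 := h2.congr_of_eventuallyEq h3
  exact (h1.unique h4).symm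

theorem ec_key {n k : ℕ} {f : ℝ → ℝ} (hf : ∀ t, 0 < t → 0 < f t)
    {U : Set (Fin k → ℝ)} {φ : (Fin k → ℝ) → Mat n} (hP : IsPatch U φ)
    (hA : IsAutoparallel f U φ) (L : (Fin k → ℝ) → ((Fin k → ℝ) →L[ℝ] Mat n))
    (hL : ContDiffOn ℝ ∞ L U)
    (hLK : ∀ x ∈ U, ∀ v, (L x v).IsHermitian ∧ Kop f (φ x) (L x v) = dirD φ x v)
    {x : Fin k → ℝ} (hx : x ∈ U) (v w : Fin k → ℝ) :
    ∃ (s : ℝ) (v' : Fin k → ℝ), fderiv ℝ L x v w = s • (1 : Mat n) + L x v' := by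
  have hd : DifferentiableAt ℝ L x :=
    ((hL.contDiffAt (hP.isOpen.mem_nhds hx)).differentiableAt (by simp))
  obtain ⟨v', hE, hY⟩ := hA (fun _ => w) contDiffOn_const x hx v
  have hherm : (fderiv ℝ L x v w - L x v').IsHermitian :=
    (ec_herm hP.isOpen hx hd (fun y hy v => (hLK y hy v).1) v w).sub (hLK x hx v').1
  obtain ⟨s, hs⟩ := trace_ann hherm (by
    intro Y hYt
    have h1 := hY (fun _ => Y) (fun i j => contDiffOn_const) (fun _ => hYt)
    have h0 : dirD (fun _ : Fin k → ℝ => Y) x v = 0 := by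
      ext i j
      unfold dirD
      simp
    rw [h0] at h1
    have h2 : petzMetric f (φ x) 0 (dirD φ x w) = 0 := by
      rw [← (hLK x hx w).2, metric_Kop hf (hP.posDef x hx) Matrix.isHermitian_zero, Matrix.mul_zero,
        Matrix.trace_zero, Complex.zero_re]
    have h3 : petzMetric f (φ x) Y (dirD φ x v') = (L x v' * Y).trace.re := by
      rw [← (hLK x hx v').2, metric_Kop hf (hP.posDef x hx) hYt.1]
    rw [h2, h3, zero_add] at h1
    have h4 : (fun t : ℝ => ecTr Y (L (x + t • v) w)) =ᶠ[𝓝 0]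
        (fun t : ℝ => petzMetric f (φ (x + t • v)) Y (dirD φ (x + t • v) w)) := by
      filter_upwards [ec_event hP.isOpen hx v] with t ht
      rw [← (hLK _ ht w).2, metric_Kop hf (hP.posDef _ ht) hYt.1, ecTr_apply]
    have h5 := h1.congr_of_eventuallyEq h4
    have h6 : HasDerivAt (fun t : ℝ => ecTr Y (L (x + t • v) w)) (ecTr Y (fderiv ℝ L x v w)) 0 :=
      (ecTr Y).hasFDerivAt.comp_hasDerivAt (0 : ℝ) (ec_line hd v w)
    have h7 := h5.unique h6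
    rw [ecTr_apply] at h7
    rw [Matrix.sub_mul, Matrix.trace_sub, Complex.sub_re, ← h7, sub_self])
  exact ⟨s, v', by rw [← hs]; abel⟩

theorem auto_imp_const {n k : ℕ} {f : ℝ → ℝ} (hf : ∀ t, 0 < t → 0 < f t) (h1 : f 1 = 1)
    {U : Set (Fin k → ℝ)} {φ : (Fin k → ℝ) → Mat n} (hP : IsPatch U φ)
    (hA : IsAutoparallel f U φ) (L : (Fin k → ℝ) → ((Fin k → ℝ) →L[ℝ] Mat n))
    (hL : ContDiffOn ℝ ∞ L U)
    (hLK : ∀ x ∈ U, ∀ v, (L x v).IsHermitian ∧ Kop f (φ x) (L x v) = dirD φ x v)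
    {u : Fin k → ℝ} (hu : u ∈ U) :
    ∃ r > 0, Metric.ball u r ⊆ U ∧ ∀ x ∈ Metric.ball u r, ∀ A : Mat n,
      (∃ (s : ℝ) (v : Fin k → ℝ), A = s • (1 : Mat n) + L u v) ↔
        ∃ (s : ℝ) (v : Fin k → ℝ), A = s • (1 : Mat n) + L x v := by
  let c : (ℝ × (Fin k → ℝ)) →L[ℝ] Mat n :=
    (ContinuousLinearMap.fst ℝ ℝ (Fin k → ℝ)).smulRight (1 : Mat n)
  let Φ : ((Fin k → ℝ) →L[ℝ] Mat n) →L[ℝ] ((ℝ × (Fin k → ℝ)) →L[ℝ] Mat n) :=
    (ContinuousLinearMap.compL ℝ (ℝ × (Fin k → ℝ)) (Fin k → ℝ) (Mat n)).flip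
      (ContinuousLinearMap.snd ℝ ℝ (Fin k → ℝ))
  let F : (Fin k → ℝ) → ((ℝ × (Fin k → ℝ)) →L[ℝ] Mat n) := fun x => c + Φ (L x)
  have hFa : ∀ x (e : ℝ × (Fin k → ℝ)), F x e = e.1 • (1 : Mat n) + L x e.2 := fun x e => rfl
  have hF : ContDiffOn ℝ ∞ F U :=
    ContDiffOn.add (F := (ℝ × (Fin k → ℝ)) →L[ℝ] Mat n) contDiffOn_const
      (ContDiff.comp_contDiffOn (F := (Fin k → ℝ) →L[ℝ] Mat n)
        (G := (ℝ × (Fin k → ℝ)) →L[ℝ] Mat n)
        (ContinuousLinearMap.contDiff (E := (Fin k → ℝ) →L[ℝ] Mat n)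
          (F := (ℝ × (Fin k → ℝ)) →L[ℝ] Mat n) Φ) hL)
  have hinj : Function.Injective (F u) := by
    rw [injective_iff_map_eq_zero]
    intro e he
    rw [hFa] at he
    obtain ⟨h2, h3⟩ := eRep_indep h1 hP hu (L u) (hLK u hu) e.1 e.2 he
    exact Prod.ext h2 h3
  have hder : ∀ x ∈ U, ∀ (v : Fin k → ℝ) (e : ℝ × (Fin k → ℝ)),
      ∃ e' : ℝ × (Fin k → ℝ), fderiv ℝ F x v e = F x e' := by
    intro x hx v e
    have hd : DifferentiableAt ℝ L x :=
      ((hL.contDiffAt (hP.isOpen.mem_nhds hx)).differentiableAt (by simp))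
    have h3 : HasFDerivAt (fun y => Φ (L y)) (Φ.comp (fderiv ℝ L x)) x :=
      HasFDerivAt.comp (F := (Fin k → ℝ) →L[ℝ] Mat n) (G := (ℝ × (Fin k → ℝ)) →L[ℝ] Mat n) x
        (ContinuousLinearMap.hasFDerivAt (E := (Fin k → ℝ) →L[ℝ] Mat n)
          (F := (ℝ × (Fin k → ℝ)) →L[ℝ] Mat n) Φ) hd.hasFDerivAt
    have h2 : HasFDerivAt F (Φ.comp (fderiv ℝ L x)) x :=
      HasFDerivAt.const_add (F := (ℝ × (Fin k → ℝ)) →L[ℝ] Mat n) c h3
    rw [h2.fderiv]
    obtain ⟨s, v', hs⟩ := ec_key hf hP hA L hL hLK hx v e.2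
    refine ⟨(s, v'), ?_⟩
    rw [hFa]
    exact hs
  obtain ⟨r, hr, hball, h⟩ := range_const hP.isOpen hu F hF hinj hder
  refine ⟨r, hr, hball, fun x hx A => ?_⟩
  obtain ⟨hx1, hx2⟩ := h x hx
  constructor
  · rintro ⟨s, v, rfl⟩
    obtain ⟨e', he'⟩ := hx2 (s, v)
    rw [hFa, hFa] at he'
    exact ⟨e'.1, e'.2, he'⟩
  · rintro ⟨s, v, rfl⟩
    obtain ⟨e', he'⟩ := hx1 (s, v)
    rw [hFa, hFa] at he'
    exact ⟨e'.1, e'.2, he'⟩

end JAx

alias auto_imp_const := JAx.auto_imp_const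

end MP2482e4
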