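import Pool.Agent.Helper707.EC.Defs
import Pool.Agent.Helper707.EC.J1
import Pool.Agent.Helper707.EC.J6b

set_option autoImplicit false
set_option maxHeartbeats 1000000

open Matrix Topology
open scoped ContDiff ComplexOrder Matrix.Norms.L2Operator

namespace MP2482e4

namespace JBx


/-- real part of the trace -/
noncomputable def const_imp_auto_T (n : ℕ) : Mat n →L[ℝ] ℝ :=
  LinearMap.toContinuousLinearMap (Complex.reLm ∘ₗ (Matrix.traceLinearMap (Fin n) ℝ ℂ))

theorem const_imp_auto_T_apply (n : ℕ) (A : Mat n) : const_imp_auto_T n A = A.trace.re := rfl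

theorem const_imp_auto_mem {n k : ℕ} {U : Set (Fin k → ℝ)} (hU : IsOpen U)
    {A : (Fin k → ℝ) → Mat n} (W : Submodule ℝ (Mat n)) (hA : ∀ x ∈ U, A x ∈ W)
    {u : Fin k → ℝ} (hu : u ∈ U) {v : Fin k → ℝ} {D : Mat n}
    (hD : HasDerivAt (fun t : ℝ => A (u + t • v)) D 0) : D ∈ W := by
  rw [hasDerivAt_iff_tendsto_slope_zero] at hD
  have hcl : IsClosed (W : Set (Mat n)) := W.closed_of_finiteDimensional
  refine hcl.mem_of_tendsto hD ?_
  have hc : Continuous fun t : ℝ => u + (0 + t) • v := by fun_prop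
  have h1 : ∀ᶠ t in 𝓝 (0 : ℝ), u + (0 + t) • v ∈ U := by
    apply hc.continuousAt.eventually_mem
    apply hU.mem_nhds
    simpa using hu
  have h2 : ∀ᶠ t in 𝓝[≠] (0 : ℝ), u + (0 + t) • v ∈ U := h1.filter_mono nhdsWithin_le_nhds
  filter_upwards [h2] with t ht
  have h0 : u + (0 : ℝ) • v ∈ U := by simpa using hu
  exact W.smul_mem _ (W.sub_mem (hA _ ht) (hA _ h0))

theorem const_imp_auto_dherm {n k : ℕ} {Y : (Fin k → ℝ) → Mat n}
    (hY : ∀ x, (Y x).IsHermitian) (u v : Fin k → ℝ) : (dirD Y u v).IsHermitian := by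
  ext i j
  rw [Matrix.conjTranspose_apply]
  unfold dirD
  have h1 : (fun x => Y x i j) = Complex.conjCLE ∘ (fun x => Y x j i) := by
    funext x
    have h2 := congrFun (congrFun (hY x) i) j
    rw [Matrix.conjTranspose_apply] at h2
    rw [← h2]
    rfl
  rw [h1, ContinuousLinearEquiv.comp_fderiv]
  rfl

theorem const_imp_auto_dtrace {n k : ℕ} {U : Set (Fin k → ℝ)} {φ : (Fin k → ℝ) → Mat n}
    (hP : IsPatch U φ) {u : Fin k → ℝ} (hu : u ∈ U) (v : Fin k → ℝ) :
    (dirD φ u v).trace = 0 := by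
  have hd : ∀ i, DifferentiableAt ℝ (fun x => φ x i i) u := by
    intro i
    exact ((hP.smooth i i).contDiffAt (hP.isOpen.mem_nhds hu)).differentiableAt (by simp)
  have h1 : (dirD φ u v).trace = fderiv ℝ (fun x => ∑ i, φ x i i) u v := by
    rw [fderiv_fun_sum (fun i _ => hd i)]
    simp [Matrix.trace, dirD]
  rw [h1]
  have h2 : (fun x => ∑ i, φ x i i) =ᶠ[𝓝 u] fun _ => (1 : ℂ) := by
    filter_upwards [hP.isOpen.mem_nhds hu] with x hx
    exact hP.trace x hx
  rw [h2.fderiv_eq]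
  simp

theorem const_imp_auto {n k : ℕ} {f : ℝ → ℝ} (hf : ∀ t, 0 < t → 0 < f t)
    (hs : ∀ t, 0 < t → t * f t⁻¹ = f t)
    {U : Set (Fin k → ℝ)} {φ : (Fin k → ℝ) → Mat n} (hP : IsPatch U φ)
    (L : (Fin k → ℝ) → ((Fin k → ℝ) →L[ℝ] Mat n)) (hL : ContDiffOn ℝ ∞ L U)
    (hLK : ∀ x ∈ U, ∀ v, (L x v).IsHermitian ∧ Kop f (φ x) (L x v) = dirD φ x v)
    (W : Submodule ℝ (Mat n))
    (hW : ∀ x ∈ U, ∀ A : Mat n,
      A ∈ W ↔ ∃ (s : ℝ) (v : Fin k → ℝ), A = s • (1 : Mat n) + L x v) :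
    IsAutoparallel f U φ := by
  intro w hw u hu v
  have hUn := hP.isOpen.mem_nhds hu
  have hAd : DifferentiableAt ℝ (fun y => L y (w y)) u :=
    ((hL.clm_apply hw).contDiffAt hUn).differentiableAt (by simp)
  have hAline : HasDerivAt (fun t : ℝ => L (u + t • v) (w (u + t • v)))
      (fderiv ℝ (fun y => L y (w y)) u v) 0 := hAd.hasFDerivAt.hasLineDerivAt v
  have hD : fderiv ℝ (fun y => L y (w y)) u v ∈ W := by
    apply const_imp_auto_mem (A := fun y => L y (w y)) hP.isOpen W _ hu hAline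
    intro x hx
    rw [hW x hx]
    exact ⟨0, w x, by simp⟩
  rw [hW u hu] at hD
  obtain ⟨s, v', hD⟩ := hD
  rw [hD] at hAline
  refine ⟨v', ⟨?_, ?_⟩, ?_⟩
  · rw [← (hLK u hu v').2]
    exact Kop_herm hs (hP.posDef u hu) (hLK u hu v').1
  · exact const_imp_auto_dtrace hP hu v'
  · intro Y hYs hYt
    have hYd : DifferentiableAt ℝ Y u :=
      (((smoothMat_iff Y Set.univ).mp hYs).contDiffAt Filter.univ_mem).differentiableAt (by simp)
    have hYline : HasDerivAt (fun t : ℝ => Y (u + t • v)) (dirD Y u v) 0 := by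
      rw [dirD_eq hYd]
      exact hYd.hasFDerivAt.hasLineDerivAt v
    have hprod := hAline.fun_mul hYline
    have hT := (const_imp_auto_T n).hasFDerivAt.comp_hasDerivAt (0 : ℝ) hprod
    have e0 : u + (0 : ℝ) • v = u := by simp
    have hval : const_imp_auto_T n ((s • (1 : Mat n) + L u v') * Y (u + (0 : ℝ) • v) +
        L (u + (0 : ℝ) • v) (w (u + (0 : ℝ) • v)) * dirD Y u v) =
        petzMetric f (φ u) (dirD Y u v) (dirD φ u (w u)) +
          petzMetric f (φ u) (Y u) (dirD φ u v') := by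
      rw [e0, ← (hLK u hu (w u)).2, ← (hLK u hu v').2,
        metric_Kop hf (hP.posDef u hu) (const_imp_auto_dherm (fun x => (hYt x).1) u v),
        metric_Kop hf (hP.posDef u hu) (hYt u).1, map_add, add_mul, map_add,
        const_imp_auto_T_apply, const_imp_auto_T_apply, const_imp_auto_T_apply]
      have h1 : (s • (1 : Mat n) * Y u).trace.re = 0 := by
        rw [smul_mul_assoc, one_mul, Matrix.trace_smul, (hYt u).2]
        simp
      rw [h1]
      ring
    rw [← hval]
    refine hT.congr_of_eventuallyEq ?_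
    have hc : Continuous fun t : ℝ => u + t • v := by fun_prop
    have h1 : ∀ᶠ t in 𝓝 (0 : ℝ), u + t • v ∈ U := by
      apply hc.continuousAt.eventually_mem
      apply hP.isOpen.mem_nhds
      simpa using hu
    filter_upwards [h1] with t ht
    show petzMetric f (φ (u + t • v)) (Y (u + t • v)) (dirD φ (u + t • v) (w (u + t • v))) =
      (L (u + t • v) (w (u + t • v)) * Y (u + t • v)).trace.re
    rw [← (hLK _ ht _).2, metric_Kop hf (hP.posDef _ ht) (hYt _).1]

end JBx

alias const_imp_auto := JBx.const_imp_auto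

end MP2482e4
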