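import Pool.Agent.Helper707.EC.Defs
import Pool.Agent.Helper707.EC.J1
import Pool.Agent.Helper707.EC.J14
import Pool.Agent.Helper707.EC.J6b

set_option autoImplicit false
set_option maxHeartbeats 1000000

open Matrix Topology
open scoped ContDiff ComplexOrder Matrix.Norms.L2Operator

namespace MP2482e4

namespace JEx


theorem eSpace_iff {n k : ℕ} {f : ℝ → ℝ} (hf : ∀ t, 0 < t → 0 < f t)
    {U : Set (Fin k → ℝ)} {φ : (Fin k → ℝ) → Mat n} (hP : IsPatch U φ)
    {u : Fin k → ℝ} (hu : u ∈ U) (L : (Fin k → ℝ) →L[ℝ] Mat n)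
    (hLK : ∀ v, (L v).IsHermitian ∧ Kop f (φ u) (L v) = dirD φ u v)
    {V : Submodule ℝ (Mat n)} (hV : Set.range (dirD φ u) = (V : Set (Mat n))) (A : Mat n) :
    A ∈ eSpace f (φ u) V ↔ ∃ (s : ℝ) (v : Fin k → ℝ), A = s • (1 : Mat n) + L v := by
  have hρ := hP.posDef u hu
  constructor
  · rintro ⟨hA, X, hX, hXY⟩
    have hX' : X ∈ Set.range (dirD φ u) := by
      rw [hV]; exact hX
    obtain ⟨v, rfl⟩ := hX'
    obtain ⟨hL, hK⟩ := hLK v
    have hsub : (A - L v).IsHermitian := hA.sub hL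
    obtain ⟨s, hs⟩ := trace_ann hsub (by
      intro Y hY
      have h1 := hXY Y hY
      have h2 := metric_Kop hf hρ hY.1 (L v)
      rw [hK] at h2
      rw [Matrix.sub_mul, Matrix.trace_sub, Complex.sub_re, ← h1, ← h2, sub_self])
    refine ⟨s, v, ?_⟩
    rw [← hs]
    abel
  · rintro ⟨s, v, rfl⟩
    obtain ⟨hL, hK⟩ := hLK v
    refine ⟨?_, dirD φ u v, ?_, ?_⟩
    · refine Matrix.IsHermitian.add ?_ hL
      unfold Matrix.IsHermitian
      rw [Matrix.conjTranspose_smul, Matrix.conjTranspose_one]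
      simp
    · have : dirD φ u v ∈ Set.range (dirD φ u) := ⟨v, rfl⟩
      rw [hV] at this
      exact this
    · intro Y hY
      have h2 := metric_Kop hf hρ hY.1 (L v)
      rw [hK] at h2
      rw [h2, Matrix.add_mul, Matrix.trace_add, Matrix.smul_mul, Matrix.trace_smul,
        Matrix.one_mul, hY.2, smul_zero, zero_add]

end JEx

alias eSpace_iff := JEx.eSpace_iff

end MP2482e4
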