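import Pool.Agent.Helper707.EC.Defs
import Pool.Agent.Helper707.EC.J14
import Pool.Agent.Helper707.EC.J6b

set_option autoImplicit false
set_option maxHeartbeats 1000000

open Matrix Topology
open scoped ContDiff ComplexOrder Matrix.Norms.L2Operator

namespace MP2482e4

namespace JFx



theorem ebx_smulH {n : ℕ} (c : ℝ) {A : Mat n} (hA : A.IsHermitian) : (c • A).IsHermitian := by
  unfold Matrix.IsHermitian at *
  rw [Matrix.conjTranspose_smul, hA]
  simp

theorem ebx_sumH {n k : ℕ} (v : Fin k → ℝ) (a : Fin k → Mat n) (ha : ∀ j, (a j).IsHermitian) :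
    (∑ j, v j • a j).IsHermitian := by
  unfold Matrix.IsHermitian
  rw [Matrix.conjTranspose_sum]
  exact Finset.sum_congr rfl fun j _ => ebx_smulH (v j) (ha j)

/-- `Kop` as a real linear map. -/
noncomputable def ebxK {n : ℕ} (f : ℝ → ℝ) (ρ : Mat n) : Mat n →ₗ[ℝ] Mat n where
  toFun := Kop f ρ
  map_add' := Kop_add f ρ
  map_smul' := Kop_smul f ρ

theorem ebx_K_sum {n k : ℕ} (f : ℝ → ℝ) (ρ : Mat n) (v : Fin k → ℝ) (a : Fin k → Mat n) :
    Kop f ρ (∑ j, v j • a j) = ∑ j, v j • Kop f ρ (a j) := by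
  change ebxK f ρ (∑ j, v j • a j) = ∑ j, v j • ebxK f ρ (a j)
  rw [map_sum]
  exact Finset.sum_congr rfl fun j _ => (ebxK f ρ).map_smul _ _

theorem ebx_trace_smul_one {n : ℕ} (s : ℝ) (B Y : Mat n) (hY : Y.trace = 0) :
    ((s • (1 : Mat n) + B) * Y).trace.re = (B * Y).trace.re := by
  rw [add_mul, Matrix.trace_add, smul_mul_assoc, one_mul, Matrix.trace_smul, hY, smul_zero,
    zero_add]

theorem eSpace_basis {n : ℕ} {f : ℝ → ℝ} (hf : ∀ t, 0 < t → 0 < f t)
    (hs : ∀ t, 0 < t → t * f t⁻¹ = f t) (h1 : f 1 = 1) {ρ : Mat n} (hρ : ρ.PosDef)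
    (htr : ρ.trace = 1) {V : Submodule ℝ (Mat n)} (hV : V ≤ tangentS n) :
    ∃ (k : ℕ) (a : Fin k → Mat n),
      (∀ j, (a j).IsHermitian) ∧
      (∀ A : Mat n, A ∈ eSpace f ρ V ↔
        ∃ (s : ℝ) (v : Fin k → ℝ), A = s • (1 : Mat n) + ∑ j, v j • a j) ∧
      (∀ (s : ℝ) (v : Fin k → ℝ), s • (1 : Mat n) + ∑ j, v j • a j = 0 → s = 0 ∧ v = 0) ∧
      (∀ v : Fin k → ℝ, (Kop f ρ (∑ j, v j • a j)).trace = 0) ∧
      (∀ X : Mat n, X ∈ V ↔ ∃ v : Fin k → ℝ, X = Kop f ρ (∑ j, v j • a j)) := by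
  classical
  let b := Module.finBasis ℝ V
  have hbH : ∀ j, ((b j : V) : Mat n).IsHermitian := fun j => (hV (b j).2).1
  choose a haH haK using fun j => Kop_surj hf hs hρ (hbH j)
  have hK : ∀ v : Fin (Module.finrank ℝ V) → ℝ,
      Kop f ρ (∑ j, v j • a j) = ((∑ j, v j • b j : V) : Mat n) := by
    intro v
    rw [ebx_K_sum]
    simp only [haK, Submodule.coe_sum, Submodule.coe_smul]
  have hVmem : ∀ v : Fin (Module.finrank ℝ V) → ℝ, Kop f ρ (∑ j, v j • a j) ∈ V := by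
    intro v
    rw [hK v]
    exact (∑ j, v j • b j : V).2
  have h5 : ∀ X : Mat n, X ∈ V ↔ ∃ v : Fin (Module.finrank ℝ V) → ℝ,
      X = Kop f ρ (∑ j, v j • a j) := by
    intro X
    constructor
    · intro hX
      refine ⟨fun j => b.repr ⟨X, hX⟩ j, ?_⟩
      rw [hK, b.sum_repr]
    · rintro ⟨v, rfl⟩
      exact hVmem v
  have h4 : ∀ v : Fin (Module.finrank ℝ V) → ℝ, (Kop f ρ (∑ j, v j • a j)).trace = 0 :=
    fun v => (hV (hVmem v)).2
  refine ⟨Module.finrank ℝ V, a, haH, ?_, ?_, h4, h5⟩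
  · intro A
    constructor
    · rintro ⟨hA, X, hX, hXA⟩
      obtain ⟨v, rfl⟩ := (h5 X).1 hX
      have hB : (∑ j, v j • a j).IsHermitian := ebx_sumH v a haH
      have hAB : (A - ∑ j, v j • a j).IsHermitian := hA.sub hB
      obtain ⟨s, hs'⟩ := trace_ann hAB (fun Y hY => by
        have e1 := hXA Y hY
        rw [metric_Kop hf hρ hY.1] at e1
        rw [sub_mul, Matrix.trace_sub, Complex.sub_re, e1, sub_self])
      exact ⟨s, v, by rw [← hs', sub_add_cancel]⟩
    · rintro ⟨s, v, rfl⟩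
      refine ⟨(ebx_smulH s Matrix.isHermitian_one).add (ebx_sumH v a haH), _, hVmem v, ?_⟩
      intro Y hY
      rw [metric_Kop hf hρ hY.1, ebx_trace_smul_one s _ Y hY.2]
  · intro s v h
    have e1 : Kop f ρ (s • (1 : Mat n) + ∑ j, v j • a j) = 0 := by
      rw [h]
      exact (ebxK f ρ).map_zero
    rw [Kop_add, Kop_smul, Kop_one h1 hρ] at e1
    have e2 := congrArg Matrix.trace e1
    rw [Matrix.trace_add, h4 v, Matrix.trace_smul, htr, add_zero, Matrix.trace_zero] at e2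
    have hs0 : s = 0 := by
      have := congrArg Complex.re e2
      simpa using this
    refine ⟨hs0, ?_⟩
    rw [hs0, zero_smul, zero_add, hK v] at e1
    have e3 : (∑ j, v j • b j : V) = 0 := Subtype.ext e1
    have := Fintype.linearIndependent_iff.1 b.linearIndependent v e3
    exact funext this

end JFx

alias eSpace_basis := JFx.eSpace_basis

end MP2482e4
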