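import Pool.Agent.Helper707.EC.Defs
import Pool.Agent.Helper707.EC.J1
import Pool.Agent.Helper707.EC.J2
import Pool.Agent.Helper707.EC.J3
import Pool.Agent.Helper707.EC.J4
import Pool.Agent.Helper707.EC.J5a
import Pool.Agent.Helper707.EC.J5b
import Pool.Agent.Helper707.EC.J5c
import Pool.Agent.Helper707.EC.J6a
import Pool.Agent.Helper707.EC.J6b
import Pool.Agent.Helper707.EC.J7a
import Pool.Agent.Helper707.EC.J7b
import Pool.Agent.Helper707.EC.J8
import Pool.Agent.Helper707.EC.J9
import Pool.Agent.Helper707.EC.J10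
import Pool.Agent.Helper707.EC.J14
import Pool.Agent.Helper707.EC.J15
import Pool.Agent.Helper707.EC.J16
import Pool.Agent.Helper707.EC.J17
import Pool.Agent.Helper707.EC.JI
import Pool.Agent.Helper707.EC.JA
import Pool.Agent.Helper707.EC.JB
import Pool.Agent.Helper707.EC.JE
import Pool.Agent.Helper707.EC.JF

set_option autoImplicit false
open Matrix Topology
open scoped ContDiff ComplexOrder Matrix.Norms.L2Operator

namespace MP2482e4

/-- entrywise real part of the trace, as a continuous linear functional -/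
noncomputable def trL (n : ℕ) : Mat n →L[ℝ] ℝ :=
  LinearMap.toContinuousLinearMap
    { toFun := fun A => A.trace.re
      map_add' := fun A B => by simp [Matrix.trace_add]
      map_smul' := fun c A => by simp [Matrix.trace_smul] }

theorem trL_apply {n : ℕ} (A : Mat n) : trL n A = A.trace.re := rfl

/-- star as a continuous linear map -/
noncomputable def starLin (n : ℕ) : Mat n →L[ℝ] Mat n :=
  LinearMap.toContinuousLinearMap
    { toFun := fun A => star A
      map_add' := fun A B => star_add A B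
      map_smul' := fun c A => by simp [star_smul] }

theorem starLin_apply {n : ℕ} (A : Mat n) : starLin n A = star A := rfl

theorem herm_sum {n k : ℕ} {a : Fin k → Mat n} (haH : ∀ j, (a j).IsHermitian)
    (v : Fin k → ℝ) : (∑ j, v j • a j).IsHermitian := by
  unfold Matrix.IsHermitian
  rw [Matrix.conjTranspose_sum]
  refine Finset.sum_congr rfl fun j _ => ?_
  rw [Matrix.conjTranspose_smul, haH j]
  simp

theorem herm_smul_one {n : ℕ} (s : ℝ) : (s • (1 : Mat n)).IsHermitian := by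
  unfold Matrix.IsHermitian
  rw [Matrix.conjTranspose_smul]
  simp

theorem posDef_conj {n : ℕ} {τ γ : Mat n} (hτ : τ.PosDef) (hγ : IsUnit γ) :
    (γ * τ * star γ).PosDef := by
  have := (Matrix.IsUnit.posDef_star_right_conjugate_iff (x := τ) hγ).2 hτ
  exact this

theorem posDef_smul' {n : ℕ} {τ : Mat n} (hτ : τ.PosDef) {c : ℝ} (hc : 0 < c) :
    (c • τ).PosDef := by
  exact hτ.smul hc

theorem fderiv_conj {n k : ℕ} {γ : (Fin k → ℝ) → Mat n} (hγ : ContDiff ℝ ∞ γ) (τ : Mat n)
    (t v : Fin k → ℝ) :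
    fderiv ℝ (fun t => γ t * τ * star (γ t)) t v =
      fderiv ℝ γ t v * τ * star (γ t) + γ t * τ * star (fderiv ℝ γ t v) := by
  have hd : HasFDerivAt γ (fderiv ℝ γ t) t := (hγ.differentiable (by simp) t).hasFDerivAt
  have h1 : HasFDerivAt (fun t => γ t * τ) ((ContinuousLinearMap.mul ℝ (Mat n)).flip τ ∘L
      fderiv ℝ γ t) t := by
    have := ((ContinuousLinearMap.mul ℝ (Mat n)).flip τ).hasFDerivAt.comp t hd
    exact this
  have h2 : HasFDerivAt (fun t => star (γ t)) (starLin n ∘L fderiv ℝ γ t) t :=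
    (starLin n).hasFDerivAt.comp t hd
  have h3 := h1.mul' h2
  have h4 : fderiv ℝ (fun t => γ t * τ * star (γ t)) t = _ := h3.fderiv
  rw [h4]
  simp [starLin_apply, add_comm]

theorem trace_im_posDef {n : ℕ} {τ : Mat n} (hτ : τ.IsHermitian) :
    τ.trace = ((τ.trace.re : ℝ) : ℂ) := by
  have h : star τ.trace = τ.trace := by
    rw [← Matrix.trace_conjTranspose, hτ]
  exact (Complex.conj_eq_iff_re.1 h).symm

theorem backward {n : ℕ} {p : ℝ} (hp : 0 < p) {ρ : Mat n} (hρ : ρ.PosDef) (htr : ρ.trace = 1)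
    {V : Submodule ℝ (Mat n)} (hV : V ≤ tangentS n)
    (hLT : ∀ A ∈ eSpace (fp p) ρ V, ∀ B ∈ eSpace (fp p) ρ V, ∀ C ∈ eSpace (fp p) ρ V,
        ⁅A, ⁅B, C⁆⁆ ∈ eSpace (fp p) ρ V)
    (hcomm : ∀ A ∈ eSpace (fp p) ρ V, ∀ B ∈ eSpace (fp p) ρ V, ∃ C ∈ eSpace (fp p) ρ V,
        ⁅⁅A, B⁆, pw ρ p⁆ = C * pw ρ p + pw ρ p * C) : Realised (fp p) ρ V := by
  have hf : ∀ t, 0 < t → 0 < fp p t := fun t ht => fp_pos hp ht
  have hs : ∀ t, 0 < t → t * fp p t⁻¹ = fp p t := fun t ht => fp_symm hp ht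
  have h1 : fp p 1 = 1 := fp_one p
  obtain ⟨k, a, haH, hE, hind, htr0, hVmem⟩ := eSpace_basis hf hs h1 hρ htr hV
  let W : Submodule ℝ (Mat n) :=
    { carrier := {A | ∃ (s : ℝ) (v : Fin k → ℝ), A = s • (1 : Mat n) + ∑ j, v j • a j}
      add_mem' := by
        rintro A B ⟨s, v, rfl⟩ ⟨s', v', rfl⟩
        refine ⟨s + s', v + v', ?_⟩
        simp only [Pi.add_apply, add_smul, Finset.sum_add_distrib]; abel
      zero_mem' := ⟨0, 0, by simp⟩
      smul_mem' := by
        rintro c A ⟨s, v, rfl⟩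
        refine ⟨c * s, c • v, ?_⟩
        simp only [Pi.smul_apply, smul_add, Finset.smul_sum, smul_smul, smul_eq_mul] }
  have hWdef : ∀ A, A ∈ W ↔ ∃ (s : ℝ) (v : Fin k → ℝ),
      A = s • (1 : Mat n) + ∑ j, v j • a j := fun A => Iff.rfl
  have hEW : ∀ A, A ∈ eSpace (fp p) ρ V ↔ A ∈ W := fun A => (hE A).trans (hWdef A).symm
  have hWH : ∀ A ∈ W, A.IsHermitian := by
    rintro A ⟨s, v, rfl⟩
    exact (herm_smul_one s).add (herm_sum haH v)
  have hW1 : (1 : Mat n) ∈ W := ⟨1, 0, by simp⟩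
  have haW : ∀ v : Fin k → ℝ, (∑ j, v j • a j) ∈ W := fun v => ⟨0, v, by simp⟩
  have haW' : ∀ j, a j ∈ W := fun j => by
    have := haW (Pi.single j 1)
    simpa [Pi.single_apply] using this
  set τ : Mat n := pw ρ p with hτdef
  have hτ : τ.PosDef := pw_posDef hρ p
  obtain ⟨g, hWg, hgg, hgτ⟩ := exists_lie_closure W hWH (τ := τ)
    (fun A hA B hB C hC => (hEW _).1 (hLT A ((hEW A).2 hA) B ((hEW B).2 hB) C ((hEW C).2 hC)))
    (fun A hA B hB => by
      obtain ⟨C, hC, h⟩ := hcomm A ((hEW A).2 hA) B ((hEW B).2 hB)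
      exact ⟨C, (hEW C).1 hC, h⟩)
  obtain ⟨γ, hγs, hγ0, hγu, hγconj, hγd, hγd0⟩ :=
    exists_group_chart g hgg a (fun j => hWg (haW' j))
  set ψ : (Fin k → ℝ) → Mat n := fun t => γ t * τ * star (γ t) with hψ
  have hψs : ContDiff ℝ ∞ ψ := by
    have h2 : ContDiff ℝ ∞ (fun t => star (γ t)) := (starLin n).contDiff.comp hγs
    exact (hγs.mul contDiff_const).mul h2
  have hψpd : ∀ t, (ψ t).PosDef := fun t => posDef_conj hτ (hγu t)
  have hψ0 : ψ 0 = τ := by simp [hψ, hγ0]
  have hψd : ∀ t v, ∃ C ∈ W, fderiv ℝ ψ t v = C * ψ t + ψ t * C := by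
    intro t v
    obtain ⟨Z, hZ, hZv⟩ := hγd t v
    obtain ⟨C, hC, hCe⟩ := orbit_tangent W g hWg hτ hgτ hWH (hγu t) (hγconj t) Z hZ
    refine ⟨C, hC, ?_⟩
    rw [hψ, fderiv_conj hγs, ← hCe, hZv, star_mul]
    simp only [mul_assoc]
  have hψd0 : ∀ v, fderiv ℝ ψ 0 v = (∑ j, v j • a j) * τ + τ * (∑ j, v j • a j) := by
    intro v
    rw [hψ, fderiv_conj hγs, hγd0, hγ0]
    have : star (∑ j, v j • a j) = ∑ j, v j • a j := herm_sum haH v
    rw [this]
    simp
  -- the un-normalised states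
  set χ : (Fin k → ℝ) → Mat n := fun t => pw (ψ t) (1 / p) with hχ
  have hχs : ContDiff ℝ ∞ χ := by
    rw [← contDiffOn_univ]
    exact pw_smooth isOpen_univ ψ (contDiffOn_univ.2 hψs) (fun x _ => hψpd x) (1 / p)
  have hχpd : ∀ t, (χ t).PosDef := fun t => pw_posDef (hψpd t) _
  have hχψ : ∀ t, pw (χ t) p = ψ t := by
    intro t
    simp only [hχ]
    rw [pw_pw (hψpd t), one_div, inv_mul_cancel₀ hp.ne', pw_one_exp (hψpd t)]
  have hχ0 : χ 0 = ρ := by
    simp only [hχ]
    rw [hψ0, hτdef, pw_pw hρ, mul_one_div, div_self hp.ne', pw_one_exp hρ]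
  have hn : Nonempty (Fin n) := by
    by_contra hne
    rw [not_nonempty_iff] at hne
    have : ρ.trace = 0 := by simp [Matrix.trace]
    rw [this] at htr
    exact zero_ne_one htr
  have hχtr : ∀ t, 0 < (χ t).trace.re := fun t => (Complex.pos_iff.1 (hχpd t).trace_pos).1
  have hχd0 : ∀ v, fderiv ℝ χ 0 v = Kop (fp p) ρ (∑ j, ((2 / p) • v) j • a j) := by
    intro v
    have h := (pw_deriv isOpen_univ χ (contDiffOn_univ.2 hχs) (fun x _ => hχpd x) hp.ne'
      (Set.mem_univ (0 : Fin k → ℝ)) v (∑ j, ((2 / p) • v) j • a j)).2 ?_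
    · rw [h, hχ0]
    · have h2 : (fun y => pw (χ y) p) = ψ := funext hχψ
      rw [h2, hψd0, hχψ, hψ0]
      have h3 : (∑ j, ((2 / p) • v) j • a j) = (2 / p) • ∑ j, v j • a j := by
        simp only [Pi.smul_apply, Finset.smul_sum, smul_smul, smul_eq_mul]
      rw [h3, smul_mul_assoc, mul_smul_comm, ← smul_add, smul_smul]
      have : (p / 2) * (2 / p) = 1 := by field_simp
      rw [this, one_smul]
  -- normalisation
  set c : (Fin k → ℝ) → ℝ := fun t => (trL n (χ t))⁻¹ with hc
  have hcpos : ∀ t, 0 < c t := fun t => inv_pos.2 (hχtr t)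
  have hcs : ContDiff ℝ ∞ c :=
    ((trL n).contDiff.comp hχs).inv (fun t => (hχtr t).ne')
  set φ : (Fin k → ℝ) → Mat n := fun t => c t • χ t with hφdef
  have hφs : ContDiff ℝ ∞ φ := hcs.smul hχs
  have hφpd : ∀ t, (φ t).PosDef := fun t => posDef_smul' (hχpd t) (hcpos t)
  have hφtr : ∀ t, (φ t).trace = 1 := by
    intro t
    simp only [hφdef]
    rw [Matrix.trace_smul, trace_im_posDef (hχpd t).isHermitian, hc]
    simp only [trL_apply]
    rw [Complex.real_smul, ← Complex.ofReal_mul, inv_mul_cancel₀ (hχtr t).ne',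
      Complex.ofReal_one]
  have hc0 : c 0 = 1 := by
    simp only [hc, trL_apply, hχ0, htr]; simp
  have hφ0 : φ 0 = ρ := by simp only [hφdef]; rw [hc0, hχ0, one_smul]
  have hφd0 : ∀ v, fderiv ℝ φ 0 v = Kop (fp p) ρ (∑ j, ((2 / p) • v) j • a j) := by
    intro v
    have hd1 : HasFDerivAt c (fderiv ℝ c 0) 0 := (hcs.differentiable (by simp) 0).hasFDerivAt
    have hd2 : HasFDerivAt χ (fderiv ℝ χ 0) 0 := (hχs.differentiable (by simp) 0).hasFDerivAt
    have h3 := (hd1.smul hd2).fderiv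
    have hd4 : HasFDerivAt (fun t => trL n (χ t)) (trL n ∘L fderiv ℝ χ 0) 0 :=
      (trL n).hasFDerivAt.comp 0 hd2
    have h5 : fderiv ℝ c 0 v = 0 := by
      have h6 := (hasDerivAt_inv (hχtr 0).ne').comp_hasFDerivAt (0 : Fin k → ℝ) hd4
      have h7 : fderiv ℝ c 0 = _ := h6.fderiv
      rw [h7]
      simp only [_root_.smul_apply, ContinuousLinearMap.comp_apply, hχd0 v,
        trL_apply, htr0]
      simp
    have h8 : fderiv ℝ φ 0 = c 0 • fderiv ℝ χ 0 + (fderiv ℝ c 0).smulRight (χ 0) := h3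
    rw [h8]
    simp only [_root_.add_apply, _root_.smul_apply,
      ContinuousLinearMap.smulRight_apply, h5, hc0, one_smul, zero_smul, add_zero]
    exact hχd0 v
  -- the e-representations of the tangent vectors lie in `W`
  have hφK : ∀ t v, ∃ C ∈ W, fderiv ℝ φ t v = Kop (fp p) (φ t) C := by
    intro t v
    obtain ⟨C, hC, hCe⟩ := hψd t v
    have hθ : (fun y => pw (φ y) p) = fun y => (c y) ^ p • ψ y := by
      funext y
      simp only [hφdef]
      rw [pw_smul (hχpd y) (hcpos y), hχψ]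
    have hd1 : HasFDerivAt (fun y => (c y) ^ p)
        ((p * (c t) ^ (p - 1)) • fderiv ℝ c t) t := by
      have := (hcs.differentiable (by simp) t).hasFDerivAt.rpow_const (p := p)
        (Or.inl (hcpos t).ne')
      exact this
    have hd2 : HasFDerivAt ψ (fderiv ℝ ψ t) t := (hψs.differentiable (by simp) t).hasFDerivAt
    have h3 := (hd1.smul hd2).fderiv
    set δ : ℝ := (p * (c t) ^ (p - 1)) * fderiv ℝ c t v with hδ
    have hcp : 0 < (c t) ^ p := Real.rpow_pos_of_pos (hcpos t) p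
    refine ⟨(2 / p) • (C + (δ / (2 * (c t) ^ p)) • (1 : Mat n)),
      W.smul_mem _ (W.add_mem hC (W.smul_mem _ hW1)), ?_⟩
    refine (pw_deriv isOpen_univ φ (contDiffOn_univ.2 hφs) (fun x _ => hφpd x) hp.ne'
      (Set.mem_univ t) v _).2 ?_
    rw [hθ]
    have h4 : fderiv ℝ (fun y => (c y) ^ p • ψ y) t v =
        (c t) ^ p • (C * ψ t + ψ t * C) + δ • ψ t := by
      have h5 : fderiv ℝ (fun y => (c y) ^ p • ψ y) t = _ := h3
      rw [h5]
      simp only [_root_.add_apply, _root_.smul_apply,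
        ContinuousLinearMap.smulRight_apply, hCe, hδ, smul_eq_mul]
    rw [h4]
    have h6 : pw (φ t) p = (c t) ^ p • ψ t := congrFun hθ t
    rw [h6]
    simp only [smul_mul_assoc, mul_smul_comm, add_mul, mul_add, one_mul, mul_one, smul_add,
      smul_smul]
    have e1 : p / 2 * (2 / p * (c t ^ p)) = c t ^ p := by field_simp
    have e1' : p / 2 * ((c t ^ p) * (2 / p)) = c t ^ p := by field_simp
    have e2 : p / 2 * (2 / p * (δ / (2 * c t ^ p)) * c t ^ p) = δ / 2 := by field_simp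
    have e2' : p / 2 * (c t ^ p * (2 / p * (δ / (2 * c t ^ p)))) = δ / 2 := by field_simp
    have e3 : δ • ψ t = (δ / 2) • ψ t + (δ / 2) • ψ t := by
      rw [← add_smul]; congr 1; ring
    rw [e1, e1', e2, e2', e3]
    abel
  -- injectivity of the derivative at `0`
  have hinj0 : Function.Injective (fderiv ℝ φ 0) := by
    rw [injective_iff_map_eq_zero]
    intro v hv
    rw [hφd0] at hv
    have h2 := Kop_inj hf hρ hv
    have h3 := (hind 0 ((2 / p) • v) (by rw [h2]; simp)).2
    exact (smul_eq_zero.1 h3).resolve_left (by positivity)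
  obtain ⟨r, hr, hrinj, hremb⟩ := immersion_embedding φ hφs hinj0
  have hdir : ∀ x v, dirD φ x v = fderiv ℝ φ x v := fun x v =>
    dirD_eq (hφs.differentiable (by simp) x) v
  have hP : IsPatch (Metric.ball (0 : Fin k → ℝ) r) φ :=
    { isOpen := Metric.isOpen_ball
      smooth := (smoothMat_iff φ _).2 hφs.contDiffOn
      posDef := fun u _ => hφpd u
      trace := fun u _ => hφtr u
      immersion := fun u hu v hv => by
        rw [hdir] at hv
        exact (injective_iff_map_eq_zero _).1 (hrinj u hu) v hv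
      embedding := hremb }
  obtain ⟨L, hL, hLK⟩ := eRep_smooth hP.isOpen φ hφs.contDiffOn hP.posDef hp.ne'
  have hLK' : ∀ x ∈ Metric.ball (0 : Fin k → ℝ) r, ∀ v, (L x v).IsHermitian ∧
      Kop (fp p) (φ x) (L x v) = dirD φ x v := by
    intro x hx v
    rw [hdir]
    exact hLK x hx v
  have hLW : ∀ x ∈ Metric.ball (0 : Fin k → ℝ) r, ∀ v, L x v ∈ W := by
    intro x hx v
    obtain ⟨C, hC, hCe⟩ := hφK x v
    have h2 := (hLK x hx v).2
    have h3 : L x v = C := by
      have h0 : Kop (fp p) (φ x) (L x v - C) = 0 := by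
        rw [sub_eq_add_neg, Kop_add, ← neg_one_smul ℝ C, Kop_smul, h2, hCe]; simp
      exact sub_eq_zero.1 (Kop_inj hf (hφpd x) h0)
    rw [h3]; exact hC
  have hWconst : ∀ x ∈ Metric.ball (0 : Fin k → ℝ) r, ∀ A : Mat n,
      A ∈ W ↔ ∃ (s : ℝ) (v : Fin k → ℝ), A = s • (1 : Mat n) + L x v := by
    intro x hx A
    constructor
    · intro hA
      let Fx : (ℝ × (Fin k → ℝ)) →ₗ[ℝ] W :=
        { toFun := fun q => ⟨q.1 • (1 : Mat n) + L x q.2,
            W.add_mem (W.smul_mem _ hW1) (hLW x hx q.2)⟩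
          map_add' := by
            intro q q'
            ext1
            simp only [Prod.fst_add, Prod.snd_add, map_add, add_smul, Submodule.coe_add]
            abel
          map_smul' := by
            intro c q
            ext1
            simp only [Prod.smul_fst, Prod.smul_snd, map_smul, smul_add, smul_smul, smul_eq_mul,
              RingHom.id_apply, Submodule.coe_smul] }
      let G0 : (ℝ × (Fin k → ℝ)) →ₗ[ℝ] W :=
        { toFun := fun q => ⟨q.1 • (1 : Mat n) + ∑ j, q.2 j • a j,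
            W.add_mem (W.smul_mem _ hW1) (haW q.2)⟩
          map_add' := by
            intro q q'
            ext1
            simp only [Prod.fst_add, Prod.snd_add, Pi.add_apply, add_smul,
              Finset.sum_add_distrib, Submodule.coe_add]
            abel
          map_smul' := by
            intro c q
            ext1
            simp only [Prod.smul_fst, Prod.smul_snd, Pi.smul_apply, smul_add, smul_smul,
              Finset.smul_sum, smul_eq_mul, RingHom.id_apply, Submodule.coe_smul] }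
      have hFx : Function.Injective Fx := by
        rw [injective_iff_map_eq_zero]
        rintro ⟨s, v⟩ hq
        have h2 : s • (1 : Mat n) + L x v = 0 := congrArg Subtype.val hq
        obtain ⟨h3, h4⟩ := eRep_indep h1 hP hx (L x) (hLK' x hx) s v h2
        rw [h3, h4]; rfl
      have hG0i : Function.Injective G0 := by
        rw [injective_iff_map_eq_zero]
        rintro ⟨s, v⟩ hq
        have h2 : s • (1 : Mat n) + ∑ j, v j • a j = 0 := congrArg Subtype.val hq
        obtain ⟨h3, h4⟩ := hind s v h2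
        rw [h3, h4]; rfl
      have hG0s : Function.Surjective G0 := by
        rintro ⟨B, hB⟩
        obtain ⟨s, v, hB'⟩ := (hWdef B).1 hB
        exact ⟨(s, v), Subtype.ext hB'.symm⟩
      have hfin : Module.finrank ℝ (ℝ × (Fin k → ℝ)) = Module.finrank ℝ W :=
        (LinearEquiv.ofBijective G0 ⟨hG0i, hG0s⟩).finrank_eq
      have hsurj : Function.Surjective Fx :=
        (LinearMap.injective_iff_surjective_of_finrank_eq_finrank hfin).1 hFx
      obtain ⟨⟨s, v⟩, h⟩ := hsurj ⟨A, hA⟩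
      exact ⟨s, v, (congrArg Subtype.val h).symm⟩
    · rintro ⟨s, v, rfl⟩
      exact W.add_mem (W.smul_mem _ hW1) (hLW x hx v)
  refine ⟨k, Metric.ball 0 r, φ, hP, const_imp_auto hf hs hP L hL hLK' W hWconst, 0,
    Metric.mem_ball_self hr, hφ0, ?_⟩
  ext X
  rw [SetLike.mem_coe, hVmem]
  constructor
  · rintro ⟨v, rfl⟩
    exact ⟨(2 / p) • v, by rw [hdir, hφd0]⟩
  · rintro ⟨v, rfl⟩
    refine ⟨(p / 2) • v, ?_⟩
    rw [hdir, hφd0, smul_smul]
    have : (2 / p) * (p / 2) = 1 := by field_simp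
    rw [this, one_smul]

end MP2482e4
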