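import Mathlib

open Matrix Topology
open scoped ContDiff ComplexOrder

namespace MP2482e4

/-- Complex `n × n` matrices (operators on the `n`-dimensional Hilbert space). -/
abbrev Mat (n : ℕ) := Matrix (Fin n) (Fin n) ℂ

/-- The tangent space `T_ρ S`: traceless Hermitian matrices (the same for every `ρ`). -/
def tangentS (n : ℕ) : Submodule ℝ (Mat n) where
  carrier := {X | X.IsHermitian ∧ X.trace = 0}
  add_mem' := by
    rintro X Y ⟨hX, hX'⟩ ⟨hY, hY'⟩
    exact ⟨hX.add hY, by rw [Matrix.trace_add, hX', hY', add_zero]⟩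
  zero_mem' := ⟨Matrix.isHermitian_zero, Matrix.trace_zero _ _⟩
  smul_mem' := by
    rintro c X ⟨hX, hX'⟩
    refine ⟨?_, by rw [Matrix.trace_smul, hX', smul_zero]⟩
    unfold Matrix.IsHermitian at *
    rw [Matrix.conjTranspose_smul, hX]
    simp

/-- A matrix-valued function of `k` real variables is smooth on `U` (entry by entry). -/
def SmoothMat {k n : ℕ} (F : (Fin k → ℝ) → Mat n) (U : Set (Fin k → ℝ)) : Prop :=
  ∀ i j, ContDiffOn ℝ ∞ (fun x => F x i j) U

/-- The derivative of a matrix-valued function at `u` in direction `v` (entry by entry). -/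
noncomputable def dirD {k n : ℕ} (F : (Fin k → ℝ) → Mat n) (u v : Fin k → ℝ) : Mat n :=
  fun i j => fderiv ℝ (fun x => F x i j) u v

open Classical in
/-- The metric of the Petz function `f` at a Hermitian `ρ` (positive definite in all uses):
in an orthonormal eigenbasis of `ρ`, with eigenvalues `λ_i`,
`g_ρ(X,Y) = Re ∑_{i,j} conj(X_ij) Y_ij / (λ_j f(λ_i/λ_j))`,
that is `g_ρ(X,Y) = Tr X (f(L_ρ R_ρ⁻¹) R_ρ)⁻¹(Y)` for Hermitian `X`, `Y`. -/
noncomputable def petzMetric {n : ℕ} (f : ℝ → ℝ) (ρ X Y : Mat n) : ℝ :=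
  if h : ρ.IsHermitian then
    ∑ i, ∑ j,
      (star ((star (h.eigenvectorUnitary : Mat n) * X * (h.eigenvectorUnitary : Mat n)) i j) *
        ((star (h.eigenvectorUnitary : Mat n) * Y * (h.eigenvectorUnitary : Mat n)) i j)).re /
        (h.eigenvalues j * f (h.eigenvalues i / h.eigenvalues j))
  else 0

/-- `φ : U → S` is a smooth embedding of an open set `U ⊆ ℝ^k` in the manifold `S` of positive
definite density matrices: its image is a `k`-dimensional submanifold of `S`. -/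
structure IsPatch {k n : ℕ} (U : Set (Fin k → ℝ)) (φ : (Fin k → ℝ) → Mat n) : Prop where
  isOpen : IsOpen U
  smooth : SmoothMat φ U
  posDef : ∀ u ∈ U, (φ u).PosDef
  trace : ∀ u ∈ U, (φ u).trace = 1
  immersion : ∀ u ∈ U, ∀ v, dirD φ u v = 0 → v = 0
  embedding : IsEmbedding (fun u : U => φ u)

/-- `E = ∇^(e)_v Z` at the point `φ u`, in the direction `dφ_u(v)`, for the vector field `Z`
along `φ`: by definition `E` is the tangent vector of `S` such that
`v g(Y,Z) = g(∇^(m)_v Y, Z) + g(Y, E)` for all smooth vector fields `Y`. -/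
def IsECovDeriv {k n : ℕ} (f : ℝ → ℝ) (φ Z : (Fin k → ℝ) → Mat n) (u v : Fin k → ℝ)
    (E : Mat n) : Prop :=
  E ∈ tangentS n ∧
    ∀ Y : (Fin k → ℝ) → Mat n, SmoothMat Y Set.univ → (∀ x, Y x ∈ tangentS n) →
      HasDerivAt (fun t : ℝ => petzMetric f (φ (u + t • v)) (Y (u + t • v)) (Z (u + t • v)))
        (petzMetric f (φ u) (dirD Y u v) (Z u) + petzMetric f (φ u) (Y u) E) 0

/-- The submanifold `N = φ(U)` is `∇^(e)`-autoparallel: for every smooth vector field
`Z = dφ(w)` tangent to `N` and every tangent direction `dφ(v)`, the covariant derivative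
`∇^(e)_v Z` is tangent to `N`. -/
def IsAutoparallel {k n : ℕ} (f : ℝ → ℝ) (U : Set (Fin k → ℝ)) (φ : (Fin k → ℝ) → Mat n) :
    Prop :=
  ∀ w : (Fin k → ℝ) → (Fin k → ℝ), ContDiffOn ℝ ∞ w U → ∀ u ∈ U, ∀ v : Fin k → ℝ,
    ∃ v' : Fin k → ℝ, IsECovDeriv f φ (fun x => dirD φ x (w x)) u v (dirD φ u v')

/-- There is a `∇^(e)`-autoparallel submanifold `N ∋ ρ` with `T_ρ N = V`. -/
def Realised {n : ℕ} (f : ℝ → ℝ) (ρ : Mat n) (V : Submodule ℝ (Mat n)) : Prop :=
  ∃ (k : ℕ) (U : Set (Fin k → ℝ)) (φ : (Fin k → ℝ) → Mat n),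
    IsPatch U φ ∧ IsAutoparallel f U φ ∧
      ∃ u ∈ U, φ u = ρ ∧ Set.range (dirD φ u) = (V : Set (Mat n))

/-- The space `W` of `e`-representations of `V` at `ρ`, constants included: the Hermitian `A`
for which there is `X ∈ V` with `g_ρ(Y,X) = Tr A Y` for all `Y ∈ T_ρ S`. -/
def eSpace {n : ℕ} (f : ℝ → ℝ) (ρ : Mat n) (V : Submodule ℝ (Mat n)) : Set (Mat n) :=
  {A | A.IsHermitian ∧ ∃ X ∈ V, ∀ Y ∈ tangentS n, petzMetric f ρ Y X = (A * Y).trace.re}

/-- The Petz function `f_p(t) = (p/2) (t-1)(t^p+1)/(t^p-1)`, `f_p(1) = 1`. `p = 1` gives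
`(1+t)/2` (the SLD metric), `p = 1/2` gives `(1+√t)²/4` (the Wigner-Yanase metric), and `p → 0`
gives `(t-1)/log t` (the Bogoliubov-Kubo-Mori metric). -/
noncomputable def fp (p t : ℝ) : ℝ :=
  if t = 1 then 1 else p / 2 * ((t - 1) * (t ^ p + 1) / (t ^ p - 1))

/-- the power `ρ^p`. -/
noncomputable def pw {n : ℕ} (ρ : Mat n) (p : ℝ) : Mat n := cfc (fun t : ℝ => t ^ p) ρ

open Classical in
/-- The operator `K_ρ` with Morozova-Chentsov function `c(x,y) = y f(x/y)`. -/
noncomputable def Kop {n : ℕ} (f : ℝ → ℝ) (ρ A : Mat n) : Mat n :=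
  if h : ρ.IsHermitian then
    (h.eigenvectorUnitary : Mat n) *
      (Matrix.of fun i j =>
        ((h.eigenvalues j * f (h.eigenvalues i / h.eigenvalues j) : ℝ) : ℂ) *
        (star (h.eigenvectorUnitary : Mat n) * A * (h.eigenvectorUnitary : Mat n)) i j) *
      star (h.eigenvectorUnitary : Mat n)
  else 0

end MP2482e4
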