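import Pool.Agent.Helper707.EC.Defs
import Pool.Agent.Helper707.EC.J3
import Pool.Agent.Helper707.EC.J4

set_option autoImplicit false
set_option maxHeartbeats 1000000

open Matrix Topology
open scoped ContDiff ComplexOrder Matrix.Norms.L2Operator

namespace MP2482e4

namespace J10x

/-- `Y ↦ Z Y + Y Z*` -/
noncomputable def MZ {n : ℕ} (Z : Mat n) : Mat n →L[ℝ] Mat n :=
  LinearMap.toContinuousLinearMap
    { toFun := fun Y => Z * Y + Y * star Z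
      map_add' := fun Y Y' => by rw [mul_add, add_mul]; abel
      map_smul' := fun c Y => by
        simp only [mul_smul_comm, smul_mul_assoc, RingHom.id_apply, smul_add] }

theorem MZ_apply {n : ℕ} (Z Y : Mat n) : MZ Z Y = Z * Y + Y * star Z := rfl

theorem core_forward {n k : ℕ} {U : Set (Fin k → ℝ)} (hU : IsOpen U)
    (θ : (Fin k → ℝ) → Mat n) (hθ : ContDiffOn ℝ ∞ θ U) (hpd : ∀ x ∈ U, (θ x).PosDef)
    (W : Submodule ℝ (Mat n)) (hWH : ∀ A ∈ W, A.IsHermitian) (h1 : (1 : Mat n) ∈ W)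
    (hder : ∀ x ∈ U, ∀ v, ∃ A ∈ W, fderiv ℝ θ x v = A * θ x + θ x * A)
    (hspan : ∀ x ∈ U, ∀ A ∈ W, ∃ (s : ℝ) (v : Fin k → ℝ),
      A * θ x + θ x * A = s • θ x + fderiv ℝ θ x v)
    (hindep : ∀ x ∈ U, ∀ (s : ℝ) (v : Fin k → ℝ), s • θ x + fderiv ℝ θ x v = 0 →
      s = 0 ∧ v = 0) {u : Fin k → ℝ} (hu : u ∈ U) :
    (∀ A ∈ W, ∀ B ∈ W, ∀ C ∈ W, ⁅A, ⁅B, C⁆⁆ ∈ W) ∧
      (∀ A ∈ W, ∀ B ∈ W, ∃ C ∈ W, ⁅⁅A, B⁆, θ u⁆ = C * θ u + θ u * C) := by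
  let Θ : ℝ × (Fin k → ℝ) → Mat n := fun q => q.1 • θ q.2
  let U' : Set (ℝ × (Fin k → ℝ)) := {q | 0 < q.1 ∧ q.2 ∈ U}
  have hU' : IsOpen U' :=
    (isOpen_lt continuous_const continuous_fst).inter (hU.preimage continuous_snd)
  have hΘ : ContDiffOn ℝ ∞ Θ U' :=
    contDiff_fst.contDiffOn.smul (hθ.comp contDiff_snd.contDiffOn (fun q hq => hq.2))
  have hΘd : ∀ q ∈ U', ∀ w : ℝ × (Fin k → ℝ),
      fderiv ℝ Θ q w = w.1 • θ q.2 + q.1 • fderiv ℝ θ q.2 w.2 := by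
    intro q hq w
    have hd : HasFDerivAt θ (fderiv ℝ θ q.2) q.2 :=
      ((hθ.differentiableOn (by simp)).differentiableAt (hU.mem_nhds hq.2)).hasFDerivAt
    have h2 : HasFDerivAt (fun q : ℝ × (Fin k → ℝ) => θ q.2)
        (fderiv ℝ θ q.2 ∘L ContinuousLinearMap.snd ℝ ℝ (Fin k → ℝ)) q :=
      hd.comp q hasFDerivAt_snd
    have h3 := ((hasFDerivAt_fst (𝕜 := ℝ) (p := q)).smul h2).fderiv
    have h4 : fderiv ℝ Θ q = _ := h3
    rw [h4]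
    simp
    abel
  have hinj : ∀ q ∈ U', Function.Injective (fderiv ℝ Θ q) := by
    intro q hq
    rw [injective_iff_map_eq_zero]
    intro w hw
    rw [hΘd q hq] at hw
    have h2 : w.1 • θ q.2 + fderiv ℝ θ q.2 (q.1 • w.2) = 0 := by
      rw [map_smul]; exact hw
    obtain ⟨h3, h4⟩ := hindep q.2 hq.2 _ _ h2
    have h5 : w.2 = 0 := (smul_eq_zero.1 h4).resolve_left hq.1.ne'
    exact Prod.ext h3 h5
  -- good elements
  let Good : Mat n → Prop := fun Z => ∀ x ∈ U, ∃ C ∈ W, Z * θ x + θ x * star Z =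
    C * θ x + θ x * C
  have hrange : ∀ Z, Good Z → ∀ q ∈ U', ∃ w, MZ Z (Θ q) = fderiv ℝ Θ q w := by
    intro Z hZ q hq
    obtain ⟨C, hC, hCe⟩ := hZ q.2 hq.2
    obtain ⟨s, v, hsv⟩ := hspan q.2 hq.2 C hC
    refine ⟨(q.1 * s, v), ?_⟩
    rw [hΘd q hq, MZ_apply]
    change Z * (q.1 • θ q.2) + (q.1 • θ q.2) * star Z = _
    rw [mul_smul_comm, smul_mul_assoc, ← smul_add, hCe, hsv, smul_add, smul_smul]
  have hcl : ∀ Z₁ Z₂, Good Z₁ → Good Z₂ → Good ⁅Z₁, Z₂⁆ := by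
    intro Z₁ Z₂ hZ₁ hZ₂ x hx
    have hq : ((1 : ℝ), x) ∈ U' := ⟨one_pos, hx⟩
    obtain ⟨w, hw⟩ := bracket_mem hU' Θ hΘ hinj (MZ Z₁) (MZ Z₂) (hrange Z₁ hZ₁)
      (hrange Z₂ hZ₂) _ hq
    rw [hΘd _ hq] at hw
    have hΘ1 : Θ (1, x) = θ x := one_smul _ _
    rw [hΘ1] at hw
    obtain ⟨C, hC, hCe⟩ := hder x hx w.2
    refine ⟨(w.1 / 2) • (1 : Mat n) + C, W.add_mem (W.smul_mem _ h1) hC, ?_⟩
    have h2 : MZ Z₁ (MZ Z₂ (θ x)) - MZ Z₂ (MZ Z₁ (θ x)) =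
        ⁅Z₁, Z₂⁆ * θ x + θ x * star ⁅Z₁, Z₂⁆ := by
      simp only [MZ_apply, Ring.lie_def, star_sub, star_mul]
      noncomm_ring
    rw [h2] at hw
    rw [hw]
    simp only [one_smul, hCe, add_mul, mul_add, smul_mul_assoc, mul_smul_comm, one_mul, mul_one]
    have h3 : w.1 • θ x = (w.1 / 2) • θ x + (w.1 / 2) • θ x := by
      rw [← add_smul]; congr 1; ring
    rw [h3]
    abel
  have hWgood : ∀ A ∈ W, Good A := by
    intro A hA x hx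
    refine ⟨A, hA, ?_⟩
    have : star A = A := hWH A hA
    rw [this]
  have hgoodW : ∀ Z, Good Z → Z.IsHermitian → Z ∈ W := by
    intro Z hZ hH
    obtain ⟨C, hC, hCe⟩ := hZ u hu
    have h2 : star Z = Z := hH
    rw [h2] at hCe
    have h3 : (Z - C) * θ u + θ u * (Z - C) = 0 := by
      rw [sub_mul, mul_sub]
      have : Z * θ u - C * θ u + (θ u * Z - θ u * C) =
        (Z * θ u + θ u * Z) - (C * θ u + θ u * C) := by abel
      rw [this, hCe, sub_self]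
    have h4 := anti_inj (hpd u hu) h3
    rw [sub_eq_zero.1 h4]
    exact hC
  have hskew : ∀ A ∈ W, ∀ B ∈ W, star ⁅A, B⁆ = -⁅A, B⁆ := by
    intro A hA B hB
    have h2 : star A = A := hWH A hA
    have h3 : star B = B := hWH B hB
    rw [Ring.lie_def, star_sub, star_mul, star_mul, h2, h3, neg_sub]
  refine ⟨?_, ?_⟩
  · intro A hA B hB C hC
    refine hgoodW _ (hcl _ _ (hWgood A hA) (hcl _ _ (hWgood B hB) (hWgood C hC))) ?_
    have h2 : star A = A := hWH A hA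
    have h3 := hskew B hB C hC
    change star ⁅A, ⁅B, C⁆⁆ = ⁅A, ⁅B, C⁆⁆
    rw [Ring.lie_def A, star_sub, star_mul, star_mul, h2, h3]
    noncomm_ring
  · intro A hA B hB
    obtain ⟨C, hC, hCe⟩ := hcl _ _ (hWgood A hA) (hWgood B hB) u hu
    refine ⟨C, hC, ?_⟩
    rw [← hCe, hskew A hA B hB, Ring.lie_def ⁅A, B⁆, mul_neg, sub_eq_add_neg]

end J10x

alias core_forward := J10x.core_forward

end MP2482e4
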