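import Pool.Agent.Helper707.EC.Defs
import Pool.Agent.Helper707.EC.J1
import Pool.Agent.Helper707.EC.J2
import Pool.Agent.Helper707.EC.J3
import Pool.Agent.Helper707.EC.J4
import Pool.Agent.Helper707.EC.J5a
import Pool.Agent.Helper707.EC.J5b
import Pool.Agent.Helper707.EC.J5c
import Pool.Agent.Helper707.EC.J6a
import Pool.Agent.Helper707.EC.J6b
import Pool.Agent.Helper707.EC.J7a
import Pool.Agent.Helper707.EC.J7b
import Pool.Agent.Helper707.EC.J8
import Pool.Agent.Helper707.EC.J9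
import Pool.Agent.Helper707.EC.J10
import Pool.Agent.Helper707.EC.J14
import Pool.Agent.Helper707.EC.J15
import Pool.Agent.Helper707.EC.J16
import Pool.Agent.Helper707.EC.J17
import Pool.Agent.Helper707.EC.JI
import Pool.Agent.Helper707.EC.JA
import Pool.Agent.Helper707.EC.JB
import Pool.Agent.Helper707.EC.JE
import Pool.Agent.Helper707.EC.JF

set_option autoImplicit false
open Matrix Topology
open scoped ContDiff ComplexOrder Matrix.Norms.L2Operator

namespace MP2482e4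

theorem forward {n : ℕ} {p : ℝ} (hp : 0 < p) {ρ : Mat n} {V : Submodule ℝ (Mat n)}
    (h : Realised (fp p) ρ V) :
    (∀ A ∈ eSpace (fp p) ρ V, ∀ B ∈ eSpace (fp p) ρ V, ∀ C ∈ eSpace (fp p) ρ V,
        ⁅A, ⁅B, C⁆⁆ ∈ eSpace (fp p) ρ V) ∧
      (∀ A ∈ eSpace (fp p) ρ V, ∀ B ∈ eSpace (fp p) ρ V, ∃ C ∈ eSpace (fp p) ρ V,
        ⁅⁅A, B⁆, pw ρ p⁆ = C * pw ρ p + pw ρ p * C) := by
  obtain ⟨k, U, φ, hP, hA, u, hu, rfl, hV⟩ := h
  have hf : ∀ t, 0 < t → 0 < fp p t := fun t ht => fp_pos hp ht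
  have h1 : fp p 1 = 1 := fp_one p
  have hφ : ContDiffOn ℝ ∞ φ U := (smoothMat_iff φ U).1 hP.smooth
  have hdiff : ∀ x ∈ U, DifferentiableAt ℝ φ x := fun x hx =>
    (hφ.differentiableOn (by simp)).differentiableAt (hP.isOpen.mem_nhds hx)
  obtain ⟨L, hL, hLK⟩ := eRep_smooth hP.isOpen φ hφ hP.posDef hp.ne'
  have hLK' : ∀ x ∈ U, ∀ v, (L x v).IsHermitian ∧
      Kop (fp p) (φ x) (L x v) = dirD φ x v := by
    intro x hx v
    rw [dirD_eq (hdiff x hx)]
    exact hLK x hx v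
  obtain ⟨r, hr, hball, hconst⟩ := auto_imp_const hf h1 hP hA L hL hLK' hu
  let W : Submodule ℝ (Mat n) :=
    { carrier := {A | ∃ (s : ℝ) (v : Fin k → ℝ), A = s • (1 : Mat n) + L u v}
      add_mem' := by
        rintro A B ⟨s, v, rfl⟩ ⟨s', v', rfl⟩
        refine ⟨s + s', v + v', ?_⟩
        rw [map_add, add_smul]; abel
      zero_mem' := ⟨0, 0, by simp⟩
      smul_mem' := by
        rintro c A ⟨s, v, rfl⟩
        refine ⟨c * s, c • v, ?_⟩
        rw [map_smul, smul_add, smul_smul] }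
  have hWdef : ∀ A, A ∈ W ↔ ∃ (s : ℝ) (v : Fin k → ℝ), A = s • (1 : Mat n) + L u v :=
    fun A => Iff.rfl
  have hWx : ∀ x ∈ Metric.ball u r, ∀ A, A ∈ W ↔
      ∃ (s : ℝ) (v : Fin k → ℝ), A = s • (1 : Mat n) + L x v := fun x hx A =>
    (hWdef A).trans (hconst x hx A)
  have hE : ∀ A, A ∈ eSpace (fp p) (φ u) V ↔ A ∈ W :=
    fun A => (eSpace_iff hf hP hu (L u) (hLK' u hu) hV A).trans (hWdef A).symm
  have hθd : ∀ x ∈ U, ∀ v, fderiv ℝ (fun y => pw (φ y) p) x v =
      (p / 2) • (L x v * pw (φ x) p + pw (φ x) p * L x v) := fun x hx v =>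
    (pw_deriv hP.isOpen φ hφ hP.posDef hp.ne' hx v (L x v)).1 (hLK x hx v).2.symm
  have hWH : ∀ A ∈ W, A.IsHermitian := by
    rintro A ⟨s, v, rfl⟩
    refine Matrix.IsHermitian.add ?_ (hLK u hu v).1
    unfold Matrix.IsHermitian
    rw [Matrix.conjTranspose_smul]
    simp
  have hW1 : (1 : Mat n) ∈ W := ⟨1, 0, by simp⟩
  have key := core_forward (U := Metric.ball u r) Metric.isOpen_ball (fun y => pw (φ y) p)
    ((pw_smooth hP.isOpen φ hφ hP.posDef p).mono hball)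
    (fun x hx => pw_posDef (hP.posDef x (hball hx)) p) W hWH hW1 ?_ ?_ ?_
    (Metric.mem_ball_self hr)
  · refine ⟨?_, ?_⟩
    · intro A hA' B hB C hC
      rw [hE] at hA' hB hC ⊢
      exact key.1 A hA' B hB C hC
    · intro A hA' B hB
      rw [hE] at hA' hB
      obtain ⟨C, hC, h⟩ := key.2 A hA' B hB
      exact ⟨C, (hE C).2 hC, h⟩
  · intro x hx v
    refine ⟨(p / 2) • L x v, W.smul_mem _ ((hWx x hx _).2 ⟨0, v, by simp⟩), ?_⟩
    rw [hθd x (hball hx), smul_add, smul_mul_assoc, mul_smul_comm]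
  · intro x hx A hA'
    obtain ⟨s, v, rfl⟩ := (hWx x hx A).1 hA'
    refine ⟨2 * s, (2 / p) • v, ?_⟩
    rw [map_smul, hθd x (hball hx), smul_smul]
    have : (2 / p) * (p / 2) = 1 := by field_simp
    rw [this, one_smul, add_mul, mul_add, smul_mul_assoc, mul_smul_comm, one_mul, mul_one,
      two_mul, add_smul]
    abel
  · intro x hx s v h0
    have h2 : ((s / 2) • (1 : Mat n) + L x ((p / 2) • v)) * pw (φ x) p +
        pw (φ x) p * ((s / 2) • (1 : Mat n) + L x ((p / 2) • v)) = 0 := by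
      rw [← h0]
      rw [hθd x (hball hx), map_smul, add_mul, mul_add, smul_mul_assoc, mul_smul_comm, one_mul,
        mul_one, smul_mul_assoc, mul_smul_comm, smul_add]
      have : s • pw (φ x) p = (s / 2) • pw (φ x) p + (s / 2) • pw (φ x) p := by
        rw [← add_smul]; congr 1; ring
      rw [this]
      abel
    have h3 := anti_inj (pw_posDef (hP.posDef x (hball hx)) p) h2
    obtain ⟨h4, h5⟩ := eRep_indep h1 hP (hball hx) (L x) (hLK' x (hball hx)) _ _ h3
    refine ⟨by linarith, ?_⟩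
    have hp2 : p / 2 ≠ 0 := by positivity
    exact (smul_eq_zero.1 h5).resolve_left hp2

end MP2482e4
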