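import Pool.Agent.Helper707.EC.Defs

set_option autoImplicit false
set_option maxHeartbeats 1000000

open Matrix Topology
open scoped ContDiff ComplexOrder Matrix.Norms.L2Operator

namespace MP2482e4

namespace K1x


theorem EC1_diag {n : ℕ} {B : Mat n} (hB : B.IsHermitian) :
    ∃ (U : Mat n) (l : Fin n → ℝ), star U * U = 1 ∧ U * star U = 1 ∧
      B = U * diagonal (fun i => ((l i : ℝ) : ℂ)) * star U ∧ l = hB.eigenvalues := by
  refine ⟨hB.eigenvectorUnitary, hB.eigenvalues, ?_, ?_, ?_, rfl⟩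
  · exact Unitary.coe_star_mul_self _
  · exact Unitary.coe_mul_star_self _
  · have h := hB.spectral_theorem
    rw [Unitary.conjStarAlgAut_apply] at h
    exact h

theorem EC1_lower {n : ℕ} {H : Mat n} (hH : H.PosDef) :
    ∃ c : ℝ, 0 < c ∧ (H - (c : ℂ) • (1 : Mat n)).PosSemidef := by
  obtain ⟨U, l, h1, h2, h3, h4⟩ := EC1_diag hH.1
  have hl : ∀ i, 0 < l i := by
    intro i
    rw [h4]
    exact hH.eigenvalues_pos i
  have hc : ∃ c : ℝ, 0 < c ∧ ∀ i, c ≤ l i := by
    rcases isEmpty_or_nonempty (Fin n) with he | he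
    · exact ⟨1, one_pos, fun i => (he.false i).elim⟩
    · obtain ⟨i0, hi0⟩ := Finite.exists_min l
      exact ⟨l i0, hl i0, hi0⟩
  obtain ⟨c, hc0, hcl⟩ := hc
  refine ⟨c, hc0, ?_⟩
  have h5 : H - (c : ℂ) • (1 : Mat n)
      = U * diagonal (fun i => (((l i - c : ℝ)) : ℂ)) * Uᴴ := by
    have h6 : (diagonal (fun i => (((l i - c : ℝ)) : ℂ)) : Mat n)
        = diagonal (fun i => ((l i : ℝ) : ℂ)) - (c : ℂ) • (1 : Mat n) := by
      ext i j
      by_cases hij : i = j
      · subst hij
        simp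
      · simp [hij]
    rw [h6, mul_sub, sub_mul, ← star_eq_conjTranspose, ← h3]
    congr 1
    rw [Matrix.mul_smul, Matrix.smul_mul, mul_one, h2]
  rw [h5]
  refine Matrix.PosSemidef.mul_mul_conjTranspose_same ?_ U
  rw [Matrix.posSemidef_diagonal_iff]
  intro i
  have : (0:ℝ) ≤ l i - c := sub_nonneg.mpr (hcl i)
  exact_mod_cast this

theorem EC1_tr {n : ℕ} {H G : Mat n} {c : ℝ} (hH : (H - (c : ℂ) • (1 : Mat n)).PosSemidef)
    (hG : G.IsHermitian) : c * (G * G).trace.re ≤ (G * H * G).trace.re := by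
  have h1 := (hH.mul_mul_conjTranspose_same G).trace_nonneg
  rw [hG.eq] at h1
  have h2 : G * (H - (c : ℂ) • (1 : Mat n)) * G = G * H * G - (c : ℂ) • (G * G) := by
    rw [mul_sub, sub_mul, Matrix.mul_smul, Matrix.smul_mul, mul_one]
  rw [h2, trace_sub, trace_smul] at h1
  have h3 : 0 ≤ (trace (G * H * G) - (c : ℂ) • trace (G * G)).re := (Complex.le_def.mp h1).1
  rw [Complex.sub_re, smul_eq_mul, Complex.re_ofReal_mul] at h3
  linarith

theorem EC1_exp {n : ℕ} {B : Mat n} {U : Mat n} {l : Fin n → ℝ} (h1 : star U * U = 1)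
    (h2 : U * star U = 1) (h3 : B = U * diagonal (fun i => ((l i : ℝ) : ℂ)) * star U) :
    (NormedSpace.exp B * NormedSpace.exp B).trace.re = ∑ i, Real.exp (2 * l i) := by
  have hinv : U⁻¹ = star U := Matrix.inv_eq_right_inv h2
  have hU : IsUnit U := ⟨⟨U, star U, h2, h1⟩, rfl⟩
  have h4 : NormedSpace.exp B
      = U * diagonal (fun i => Complex.exp ((l i : ℝ) : ℂ)) * star U := by
    rw [h3, ← hinv, Matrix.exp_conj U _ hU, Matrix.exp_diagonal]
    congr 2
    funext i j
    congr 1
    funext k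
    rw [Pi.coe_exp, Complex.exp_eq_exp_ℂ]
  have h5 : NormedSpace.exp B * NormedSpace.exp B
      = U * diagonal (fun i => Complex.exp ((2 * l i : ℝ) : ℂ)) * star U := by
    rw [h4]
    have h6 : (diagonal (fun i => Complex.exp ((2 * l i : ℝ) : ℂ)) : Mat n)
        = diagonal (fun i => Complex.exp ((l i : ℝ) : ℂ))
          * diagonal (fun i => Complex.exp ((l i : ℝ) : ℂ)) := by
      rw [Matrix.diagonal_mul_diagonal]
      congr 1
      funext i
      rw [← Complex.exp_add]
      congr 1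
      push_cast
      ring
    rw [h6]
    calc U * diagonal (fun i => Complex.exp ((l i : ℝ) : ℂ)) * star U
          * (U * diagonal (fun i => Complex.exp ((l i : ℝ) : ℂ)) * star U)
        = U * diagonal (fun i => Complex.exp ((l i : ℝ) : ℂ)) * (star U
          * U) * diagonal (fun i => Complex.exp ((l i : ℝ) : ℂ)) * star U := by
          simp only [mul_assoc]
      _ = _ := by rw [h1, mul_one]; simp only [mul_assoc]
  rw [h5, Matrix.trace_mul_comm, ← mul_assoc, h1, one_mul, Matrix.trace_diagonal, Complex.re_sum]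
  refine Finset.sum_congr rfl (fun i _ => ?_)
  exact Complex.exp_ofReal_re _

theorem EC1_norm {n : ℕ} {B : Mat n} {U : Mat n} {l : Fin n → ℝ} (h1 : star U * U = 1)
    (h2 : U * star U = 1) (h3 : B = U * diagonal (fun i => ((l i : ℝ) : ℂ)) * star U) :
    ‖B‖ ≤ ∑ i, |l i| := by
  have hU : U ∈ unitary (Mat n) := ⟨h1, h2⟩
  have hU' : star U ∈ unitary (Mat n) := Unitary.star_mem hU
  have h4 : ‖B‖ = ‖(diagonal (fun i => ((l i : ℝ) : ℂ)) : Mat n)‖ := by
    rw [h3]
    have h5 := CStarRing.norm_mul_coe_unitary (U * diagonal (fun i => ((l i : ℝ) : ℂ))) ⟨star U, hU'⟩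
    have h6 := CStarRing.norm_coe_unitary_mul ⟨U, hU⟩ (diagonal (fun i => ((l i : ℝ) : ℂ)) : Mat n)
    exact h5.trans h6
  rw [h4, Matrix.l2_opNorm_diagonal]
  refine (pi_norm_le_iff_of_nonneg (Finset.sum_nonneg (fun i _ => abs_nonneg _))).mpr (fun i => ?_)
  rw [Complex.norm_real, Real.norm_eq_abs]
  exact Finset.single_le_sum (f := fun i => |l i|) (fun i _ => abs_nonneg _) (Finset.mem_univ i)

theorem EC1_bound {n : ℕ} {B : Mat n} (hB : B.IsHermitian) :
    ‖B‖ ≤ (NormedSpace.exp B * NormedSpace.exp B).trace.re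
      + (NormedSpace.exp (-B) * NormedSpace.exp (-B)).trace.re := by
  obtain ⟨U, l, h1, h2, h3, -⟩ := EC1_diag hB
  have h3' : -B = U * diagonal (fun i => (((fun i => - l i) i : ℝ) : ℂ)) * star U := by
    have h6 : (diagonal (fun i => (((fun i => - l i) i : ℝ) : ℂ)) : Mat n)
        = - diagonal (fun i => ((l i : ℝ) : ℂ)) := by
      ext i j
      by_cases hij : i = j
      · subst hij
        simp
      · simp [hij]
    rw [h6, mul_neg, neg_mul, ← h3]
  rw [EC1_exp h1 h2 h3, EC1_exp h1 h2 h3', ← Finset.sum_add_distrib]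
  refine (EC1_norm h1 h2 h3).trans (Finset.sum_le_sum (fun i _ => ?_))
  have h4 := Real.add_one_le_exp (2 * l i)
  have h5 := Real.add_one_le_exp (2 * (- l i))
  have h6 := Real.exp_pos (2 * l i)
  have h7 := Real.exp_pos (2 * (- l i))
  rcases abs_cases (l i) with ⟨h, h'⟩ | ⟨h, h'⟩ <;> rw [h] <;> linarith

theorem exists_min {n : ℕ} (W : Submodule ℝ (Mat n)) (hWH : ∀ A ∈ W, A.IsHermitian)
    {τ : Mat n} (hτ : τ.PosDef) :
    ∃ A ∈ W, ∀ B ∈ W,
      (NormedSpace.exp A * τ * NormedSpace.exp A).trace.re +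
          (NormedSpace.exp (-A) * τ⁻¹ * NormedSpace.exp (-A)).trace.re ≤
        (NormedSpace.exp B * τ * NormedSpace.exp B).trace.re +
          (NormedSpace.exp (-B) * τ⁻¹ * NormedSpace.exp (-B)).trace.re := by
  obtain ⟨c1, hc1, hp1⟩ := EC1_lower hτ
  obtain ⟨c2, hc2, hp2⟩ := EC1_lower hτ.inv
  set f : W → ℝ := fun B => (NormedSpace.exp (B : Mat n) * τ * NormedSpace.exp (B : Mat n)).trace.re +
          (NormedSpace.exp (-(B : Mat n)) * τ⁻¹ * NormedSpace.exp (-(B : Mat n))).trace.re with hf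
  have hcont : Continuous f := by
    letI : NormedAlgebra ℚ (Mat n) := NormedAlgebra.restrictScalars ℚ ℝ (Mat n)
    have he : Continuous (fun B : Mat n => NormedSpace.exp B) := NormedSpace.exp_continuous
    have h1 : Continuous (fun B : W => NormedSpace.exp (B : Mat n)) :=
      he.comp continuous_subtype_val
    have h2 : Continuous (fun B : W => NormedSpace.exp (-(B : Mat n))) :=
      he.comp continuous_subtype_val.neg
    have h3 : Continuous (fun B : W => (NormedSpace.exp (B : Mat n) * τ * NormedSpace.exp (B : Mat n)).trace) :=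
      ((h1.mul continuous_const).mul h1).matrix_trace
    have h4 : Continuous (fun B : W => (NormedSpace.exp (-(B : Mat n)) * τ⁻¹ * NormedSpace.exp (-(B : Mat n))).trace) :=
      ((h2.mul continuous_const).mul h2).matrix_trace
    exact (Complex.continuous_re.comp h3).add (Complex.continuous_re.comp h4)
  have hlow : ∀ B : W, (min c1 c2) * ‖B‖ ≤ f B := by
    intro B
    have hB := hWH B.1 B.2
    have h1 := EC1_tr hp1 hB.exp
    have h2 := EC1_tr hp2 hB.neg.exp
    have h3 := EC1_bound hB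
    have hn1 : 0 ≤ (NormedSpace.exp (B : Mat n) * NormedSpace.exp (B : Mat n)).trace.re := by
      obtain ⟨U, l, g1, g2, g3, -⟩ := EC1_diag hB
      rw [EC1_exp g1 g2 g3]
      exact Finset.sum_nonneg (fun i _ => (Real.exp_pos _).le)
    have hn2 : 0 ≤ (NormedSpace.exp (-(B : Mat n)) * NormedSpace.exp (-(B : Mat n))).trace.re := by
      obtain ⟨U, l, g1, g2, g3, -⟩ := EC1_diag hB.neg
      rw [EC1_exp g1 g2 g3]
      exact Finset.sum_nonneg (fun i _ => (Real.exp_pos _).le)
    have hm : 0 < min c1 c2 := lt_min hc1 hc2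
    calc min c1 c2 * ‖B‖ ≤ min c1 c2 * ((NormedSpace.exp (B : Mat n) * NormedSpace.exp (B : Mat n)).trace.re
      + (NormedSpace.exp (-(B : Mat n)) * NormedSpace.exp (-(B : Mat n))).trace.re) :=
          mul_le_mul_of_nonneg_left h3 hm.le
      _ = min c1 c2 * (NormedSpace.exp (B : Mat n) * NormedSpace.exp (B : Mat n)).trace.re
        + min c1 c2 * (NormedSpace.exp (-(B : Mat n)) * NormedSpace.exp (-(B : Mat n))).trace.re := by
          ring
      _ ≤ c1 * (NormedSpace.exp (B : Mat n) * NormedSpace.exp (B : Mat n)).trace.re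
        + c2 * (NormedSpace.exp (-(B : Mat n)) * NormedSpace.exp (-(B : Mat n))).trace.re :=
          add_le_add (mul_le_mul_of_nonneg_right (min_le_left _ _) hn1)
            (mul_le_mul_of_nonneg_right (min_le_right _ _) hn2)
      _ ≤ f B := add_le_add h1 h2
  have hm : 0 < min c1 c2 := lt_min hc1 hc2
  have : ProperSpace W := FiniteDimensional.proper ℝ W
  have htend : Filter.Tendsto f (Filter.cocompact W) Filter.atTop :=
    Filter.tendsto_atTop_mono hlow
      ((tendsto_norm_cocompact_atTop (E := W)).const_mul_atTop hm)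
  obtain ⟨A, hA⟩ := hcont.exists_forall_le htend
  exact ⟨A.1, A.2, fun B hB => hA ⟨B, hB⟩⟩

end K1x

alias exists_min := K1x.exists_min

end MP2482e4
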