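import Pool.Agent.Helper707.EC.Defs

set_option autoImplicit false
set_option maxHeartbeats 1000000

open Matrix Topology
open scoped ContDiff ComplexOrder Matrix.Norms.L2Operator

namespace MP2482e4

namespace K2x


theorem critical_alg {n : ℕ} (P Q τ τi E : Mat n) (hPQ : P * Q = 1) (hQP : Q * P = 1) :
    ((E * Q + Q * E) * (P * τ * P - Q * τi * Q)).trace =
      (E * τ * P + P * τ * E).trace -
        (Q * E * Q * τi * Q + Q * τi * (Q * E * Q)).trace := by
  have e1 : (E * Q) * (P * τ * P) = E * τ * P := by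
    calc (E * Q) * (P * τ * P) = E * (Q * P) * τ * P := by simp only [mul_assoc]
      _ = _ := by rw [hQP, mul_one]
  have e2 : ((Q * E) * (P * τ * P)).trace = (P * τ * E).trace := by
    rw [Matrix.trace_mul_comm]
    congr 1
    calc P * τ * P * (Q * E) = P * τ * (P * Q) * E := by simp only [mul_assoc]
      _ = _ := by rw [hPQ, mul_one]
  have e3 : ((E * Q) * (Q * τi * Q)).trace = (Q * τi * (Q * E * Q)).trace := by
    rw [Matrix.trace_mul_comm]
    congr 1
    simp only [mul_assoc]
  have e4 : (Q * E) * (Q * τi * Q) = Q * E * Q * τi * Q := by simp only [mul_assoc]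
  rw [add_mul, mul_sub, mul_sub, e1, e4, Matrix.trace_add, Matrix.trace_sub, Matrix.trace_sub, e2,
    e3, Matrix.trace_add, Matrix.trace_add]
  ring

theorem critical_diff {n : ℕ} (X : Mat n) :
    DifferentiableAt ℝ (NormedSpace.exp : Mat n → Mat n) X :=
  (NormedSpace.exp_analytic (𝕂 := ℝ) X).differentiableAt

theorem critical_path {n : ℕ} (A B : Mat n) :
    HasDerivAt (fun t : ℝ => NormedSpace.exp (A + t • B))
      (fderiv ℝ (NormedSpace.exp : Mat n → Mat n) A B) 0 := by
  have h1 : HasDerivAt (fun t : ℝ => A + t • B) B 0 := by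
    have h := ((hasDerivAt_id (0 : ℝ)).smul_const B).const_add A
    simpa using h
  have h2 : HasFDerivAt (NormedSpace.exp : Mat n → Mat n)
      (fderiv ℝ (NormedSpace.exp : Mat n → Mat n) A) (A + (0 : ℝ) • B) := by
    have h3 : A + (0 : ℝ) • B = A := by rw [zero_smul, add_zero]
    rw [h3]
    exact (critical_diff A).hasFDerivAt
  exact h2.comp_hasDerivAt 0 h1

theorem critical {n : ℕ} (W : Submodule ℝ (Mat n))
    {τ A : Mat n} (hτ : τ.PosDef) (hA : A ∈ W)
    (hmin : ∀ B ∈ W,
      (NormedSpace.exp A * τ * NormedSpace.exp A).trace.re +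
          (NormedSpace.exp (-A) * τ⁻¹ * NormedSpace.exp (-A)).trace.re ≤
        (NormedSpace.exp B * τ * NormedSpace.exp B).trace.re +
          (NormedSpace.exp (-B) * τ⁻¹ * NormedSpace.exp (-B)).trace.re)
    {B : Mat n} (hB : B ∈ W) :
    ((fderiv ℝ (NormedSpace.exp : Mat n → Mat n) A B * NormedSpace.exp (-A) +
        NormedSpace.exp (-A) * fderiv ℝ (NormedSpace.exp : Mat n → Mat n) A B) *
      ((NormedSpace.exp A * τ * NormedSpace.exp A) -
        (NormedSpace.exp A * τ * NormedSpace.exp A)⁻¹)).trace.re = 0 := by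
  set E := fderiv ℝ (NormedSpace.exp : Mat n → Mat n) A B with hE
  set E' := fderiv ℝ (NormedSpace.exp : Mat n → Mat n) (-A) (-B) with hE'
  have hP := critical_path A B
  have hQ := critical_path (-A) (-B)
  rw [← hE] at hP
  rw [← hE'] at hQ
  have hexp : ∀ X : Mat n, NormedSpace.exp X * NormedSpace.exp (-X) = 1 := by
    intro X
    let _ : NormedAlgebra ℚ (Mat n) := NormedAlgebra.restrictScalars ℚ ℝ (Mat n)
    have h := NormedSpace.exp_add_of_commute (Commute.refl X).neg_right
    rw [add_neg_cancel, NormedSpace.exp_zero] at h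
    exact h.symm
  have hexp' : ∀ X : Mat n, NormedSpace.exp (-X) * NormedSpace.exp X = 1 := by
    intro X
    have := hexp (-X)
    rwa [neg_neg] at this
  have hneg : ∀ t : ℝ, -A + t • -B = -(A + t • B) := by
    intro t
    rw [smul_neg, neg_add]
  have hAA : A + (0 : ℝ) • B = A := by rw [zero_smul, add_zero]
  have hAA' : -A + (0 : ℝ) • -B = -A := by rw [zero_smul, add_zero]
  -- derivative of the inverse
  have hG : E' = -(NormedSpace.exp (-A) * E * NormedSpace.exp (-A)) := by
    have h1 := hP.mul hQ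
    have h2 : (fun t : ℝ => NormedSpace.exp (A + t • B) * NormedSpace.exp (-A + t • -B)) =
        fun _ => (1 : Mat n) := by
      funext t
      rw [hneg, hexp]
    have h3 : HasDerivAt (fun _ : ℝ => (1 : Mat n)) (E * NormedSpace.exp (-A) +
        NormedSpace.exp A * E') 0 := by
      have h4 := h1
      simp only [Pi.mul_def] at h4
      rw [h2, hAA, hAA'] at h4
      exact h4
    have h5 := h3.unique (hasDerivAt_const (0 : ℝ) (1 : Mat n))
    have h6 : NormedSpace.exp (-A) * (E * NormedSpace.exp (-A) + NormedSpace.exp A * E') = 0 := by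
      rw [h5, mul_zero]
    rw [mul_add, ← mul_assoc, ← mul_assoc, hexp', one_mul] at h6
    exact eq_neg_of_add_eq_zero_right h6
  -- the functional
  let L : Mat n →ₗ[ℝ] ℝ :=
    Complex.reLm.comp ((Matrix.traceLinearMap (Fin n) ℂ ℂ).restrictScalars ℝ)
  let Lc : Mat n →L[ℝ] ℝ := LinearMap.toContinuousLinearMap L
  have hLc : ∀ X : Mat n, Lc X = X.trace.re := fun X => rfl
  have hd1 : HasDerivAt (fun t : ℝ => (NormedSpace.exp (A + t • B) * τ *
      NormedSpace.exp (A + t • B)).trace.re)
      ((E * τ * NormedSpace.exp A + NormedSpace.exp A * τ * E).trace.re) 0 := by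
    have h1 := (hP.mul_const τ).mul hP
    have h2 := Lc.hasFDerivAt.comp_hasDerivAt (0 : ℝ) h1
    rw [hAA] at h2
    exact h2
  have hd2 : HasDerivAt (fun t : ℝ => (NormedSpace.exp (-A + t • -B) * τ⁻¹ *
      NormedSpace.exp (-A + t • -B)).trace.re)
      ((E' * τ⁻¹ * NormedSpace.exp (-A) + NormedSpace.exp (-A) * τ⁻¹ * E').trace.re) 0 := by
    have h1 := (hQ.mul_const τ⁻¹).mul hQ
    have h2 := Lc.hasFDerivAt.comp_hasDerivAt (0 : ℝ) h1
    rw [hAA'] at h2
    exact h2
  have hd := hd1.add hd2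
  have hlm : IsLocalMin ((fun t : ℝ => (NormedSpace.exp (A + t • B) * τ *
      NormedSpace.exp (A + t • B)).trace.re) + (fun t : ℝ => (NormedSpace.exp (-A + t • -B) * τ⁻¹ *
      NormedSpace.exp (-A + t • -B)).trace.re)) 0 := by
    refine Filter.Eventually.of_forall ?_
    intro t
    have hW : A + t • B ∈ W := W.add_mem hA (W.smul_mem t hB)
    have := hmin _ hW
    simp only [Pi.add_apply]
    rw [hAA, hAA', hneg]
    exact this
  have h0 := hlm.hasDerivAt_eq_zero hd
  have hdet : τ * τ⁻¹ = 1 := Matrix.mul_nonsing_inv τ ((Matrix.isUnit_iff_isUnit_det τ).1 hτ.isUnit)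
  have hinv : (NormedSpace.exp A * τ * NormedSpace.exp A)⁻¹ =
      NormedSpace.exp (-A) * τ⁻¹ * NormedSpace.exp (-A) := by
    apply Matrix.inv_eq_right_inv
    calc NormedSpace.exp A * τ * NormedSpace.exp A *
        (NormedSpace.exp (-A) * τ⁻¹ * NormedSpace.exp (-A)) =
        NormedSpace.exp A * τ * (NormedSpace.exp A * NormedSpace.exp (-A)) * τ⁻¹ *
          NormedSpace.exp (-A) := by simp only [mul_assoc]
      _ = NormedSpace.exp A * (τ * τ⁻¹) * NormedSpace.exp (-A) := by
        rw [hexp, mul_one]; simp only [mul_assoc]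
      _ = 1 := by rw [hdet, mul_one, hexp]
  rw [hinv, critical_alg _ _ τ τ⁻¹ E (hexp A) (hexp' A)]
  rw [hG] at h0
  have hfin : ∀ Q Z : Mat n, (-(Q) * Z * NormedSpace.exp (-A) +
      NormedSpace.exp (-A) * Z * -(Q)).trace =
      - (Q * Z * NormedSpace.exp (-A) + NormedSpace.exp (-A) * Z * Q).trace := by
    intro Q Z
    rw [← Matrix.trace_neg]
    congr 1
    noncomm_ring
  rw [hfin] at h0
  rw [Complex.sub_re]
  rw [Complex.neg_re] at h0
  linarith

end K2x

alias critical := K2x.critical

end MP2482e4
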