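import Pool.Agent.Helper707.EC.Defs
import Pool.Agent.Helper707.EC.J5a

set_option autoImplicit false
set_option maxHeartbeats 1000000

open Matrix Topology
open scoped ContDiff ComplexOrder Matrix.Norms.L2Operator

namespace MP2482e4

namespace K3x



lemma j15664_conj {n : ℕ} {Q : Mat n} (hQ : star Q * Q = 1) (X Y : Mat n) :
    (Q * X * star Q) * (Q * Y * star Q) = Q * (X * Y) * star Q := by
  calc (Q * X * star Q) * (Q * Y * star Q) = Q * X * (star Q * Q) * Y * star Q := by
        simp only [Matrix.mul_assoc]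
    _ = Q * (X * Y) * star Q := by rw [hQ, Matrix.mul_one]; simp only [Matrix.mul_assoc]

lemma j15664_unconj {n : ℕ} {Q : Mat n} (hQ : star Q * Q = 1) (X : Mat n) :
    star Q * (Q * X * star Q) * Q = X := by
  calc star Q * (Q * X * star Q) * Q = (star Q * Q) * X * (star Q * Q) := by
        simp only [Matrix.mul_assoc]
    _ = X := by rw [hQ, Matrix.mul_one, Matrix.one_mul]

lemma j15664_exp {n : ℕ} {Q : Mat n} (hQ : Q ∈ unitary (Mat n)) (h : Fin n → ℝ) :
    NormedSpace.exp (-(Q * Matrix.diagonal (fun i => (h i : ℂ)) * star Q)) =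
      Q * Matrix.diagonal (fun i => ((Real.exp (-h i) : ℝ) : ℂ)) * star Q := by
  have h1 : star Q * Q = 1 := (Unitary.mem_iff.1 hQ).1
  have h2 : Q * star Q = 1 := (Unitary.mem_iff.1 hQ).2
  let U : (Mat n)ˣ := ⟨Q, star Q, h2, h1⟩
  have h3 : -(Q * Matrix.diagonal (fun i => (h i : ℂ)) * star Q) =
      (U : Mat n) * Matrix.diagonal (fun i => ((-h i : ℝ) : ℂ)) * ((U⁻¹ : (Mat n)ˣ) : Mat n) := by
    show _ = Q * Matrix.diagonal (fun i => ((-h i : ℝ) : ℂ)) * star Q
    have : Matrix.diagonal (fun i => ((-h i : ℝ) : ℂ)) =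
        - Matrix.diagonal (fun i => (h i : ℂ)) := by
      rw [Matrix.diagonal_neg]
      congr 1
      funext i
      simp
    rw [this, Matrix.mul_neg, Matrix.neg_mul]
  rw [h3, Matrix.exp_units_conj, Matrix.exp_diagonal]
  show Q * _ * star Q = _
  congr 3
  funext i
  rw [Pi.coe_exp, ← Complex.exp_eq_exp_ℂ, Complex.ofReal_exp]

/-- the multiplier -/
noncomputable def j15664_S (x y : ℝ) : ℝ :=
  (if x = y then Real.exp x else (Real.exp x - Real.exp y) / (x - y)) *
    (Real.exp (-x) + Real.exp (-y))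

/-- the reciprocal multiplier as a function of the squared difference -/
noncomputable def j15664_R (t : ℝ) : ℝ :=
  if t = 0 then 1 / 2 else Real.sqrt t / (2 * Real.sinh (Real.sqrt t))

lemma j15664_S_ne {x y : ℝ} (h : x ≠ y) :
    j15664_S x y = 2 * Real.sinh (x - y) / (x - y) := by
  unfold j15664_S
  rw [if_neg h, Real.sinh_eq]
  have h1 : x - y ≠ 0 := sub_ne_zero.2 h
  have h2 : Real.exp x * Real.exp (-x) = 1 := by rw [← Real.exp_add]; simp
  have h3 : Real.exp y * Real.exp (-y) = 1 := by rw [← Real.exp_add]; simp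
  have h4 : Real.exp (x - y) = Real.exp x * Real.exp (-y) := by
    rw [← Real.exp_add]; ring_nf
  have h5 : Real.exp (-(x - y)) = Real.exp y * Real.exp (-x) := by
    rw [← Real.exp_add]; ring_nf
  rw [h4, h5]
  field_simp
  linear_combination h2 - h3

lemma j15664_SR (x y : ℝ) : j15664_S x y * j15664_R ((x - y) ^ 2) = 1 := by
  by_cases h : x = y
  · subst h
    unfold j15664_S j15664_R
    have h2 : Real.exp x * Real.exp (-x) = 1 := by rw [← Real.exp_add]; simp
    simp only [if_true, sub_self]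
    rw [if_pos (by norm_num)]
    linear_combination h2
  · have h1 : x - y ≠ 0 := sub_ne_zero.2 h
    rw [j15664_S_ne h]
    unfold j15664_R
    rw [if_neg (pow_ne_zero 2 h1), Real.sqrt_sq_eq_abs]
    have hs : Real.sinh (x - y) ≠ 0 := fun h => h1 (Real.sinh_eq_zero.1 h)
    rcases abs_choice (x - y) with h2 | h2 <;> rw [h2]
    · field_simp
    · rw [Real.sinh_neg]
      field_simp

lemma j15664_T {n : ℕ} {Q : Mat n} (hQ : Q ∈ unitary (Mat n)) (h : Fin n → ℝ) (B : Mat n) :
    fderiv ℝ (NormedSpace.exp : Mat n → Mat n)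
        (Q * Matrix.diagonal (fun i => (h i : ℂ)) * star Q) B *
        NormedSpace.exp (-(Q * Matrix.diagonal (fun i => (h i : ℂ)) * star Q)) +
      NormedSpace.exp (-(Q * Matrix.diagonal (fun i => (h i : ℂ)) * star Q)) *
        fderiv ℝ (NormedSpace.exp : Mat n → Mat n)
        (Q * Matrix.diagonal (fun i => (h i : ℂ)) * star Q) B =
    Q * Matrix.of (fun i j => ((j15664_S (h i) (h j) : ℝ) : ℂ) * (star Q * B * Q) i j) *
      star Q := by
  have h1 : star Q * Q = 1 := (Unitary.mem_iff.1 hQ).1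
  rw [exp_fderiv Q hQ h B, j15664_exp hQ h, j15664_conj h1, j15664_conj h1, ← Matrix.add_mul,
    ← Matrix.mul_add]
  congr 2
  ext i j
  simp only [Matrix.add_apply, Matrix.mul_diagonal, Matrix.diagonal_mul, Matrix.of_apply]
  unfold j15664_S
  push_cast
  ring

/-- the square of `ad A` -/
noncomputable def j15664_L {n : ℕ} (A : Mat n) : Mat n →ₗ[ℝ] Mat n where
  toFun B := A * (A * B - B * A) - (A * B - B * A) * A
  map_add' X Y := by noncomm_ring
  map_smul' c X := by
    simp only [Matrix.mul_smul, Matrix.smul_mul, ← smul_sub, RingHom.id_apply]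

lemma j15664_L_conj {n : ℕ} {Q : Mat n} (hQ : Q ∈ unitary (Mat n)) (h : Fin n → ℝ) (B : Mat n)
    (i j : Fin n) :
    (star Q * (j15664_L (Q * Matrix.diagonal (fun i => (h i : ℂ)) * star Q) B) * Q) i j =
      (((h i - h j) ^ 2 : ℝ) : ℂ) * (star Q * B * Q) i j := by
  have h1 : star Q * Q = 1 := (Unitary.mem_iff.1 hQ).1
  have h2 : Q * star Q = 1 := (Unitary.mem_iff.1 hQ).2
  have hB : B = Q * (star Q * B * Q) * star Q := by
    calc B = (Q * star Q) * B * (Q * star Q) := by rw [h2, Matrix.mul_one, Matrix.one_mul]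
      _ = _ := by simp only [Matrix.mul_assoc]
  set B' := star Q * B * Q with hB'
  set D : Mat n := Matrix.diagonal (fun i => (h i : ℂ)) with hD
  have h3 : j15664_L (Q * D * star Q) B =
      Q * (D * (D * B' - B' * D) - (D * B' - B' * D) * D) * star Q := by
    show (Q * D * star Q) * ((Q * D * star Q) * B - B * (Q * D * star Q)) -
      ((Q * D * star Q) * B - B * (Q * D * star Q)) * (Q * D * star Q) = _
    have h4 : (Q * D * star Q) * B - B * (Q * D * star Q) = Q * (D * B' - B' * D) * star Q := by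
      have e1 : (Q * D * star Q) * B = Q * (D * B') * star Q := by
        rw [← j15664_conj h1 D B', ← hB]
      have e2 : B * (Q * D * star Q) = Q * (B' * D) * star Q := by
        rw [← j15664_conj h1 B' D, ← hB]
      rw [e1, e2, Matrix.mul_sub, Matrix.sub_mul]
    rw [h4, j15664_conj h1, j15664_conj h1, ← Matrix.sub_mul, ← Matrix.mul_sub]
  rw [h3, j15664_unconj h1, hD]
  simp only [Matrix.sub_apply, Matrix.mul_diagonal, Matrix.diagonal_mul]
  push_cast
  ring

lemma j15664_poly {n : ℕ} {Q : Mat n} (hQ : Q ∈ unitary (Mat n)) (h : Fin n → ℝ)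
    (P : Polynomial ℝ) : ∀ (B : Mat n) (i j : Fin n),
    (star Q * (Polynomial.aeval (j15664_L (Q * Matrix.diagonal (fun i => (h i : ℂ)) * star Q)) P
      B) * Q) i j =
      ((P.eval ((h i - h j) ^ 2) : ℝ) : ℂ) * (star Q * B * Q) i j := by
  induction P using Polynomial.induction_on with
  | C c =>
    intro B i j
    rw [Polynomial.aeval_C, Polynomial.eval_C, Module.algebraMap_end_apply]
    rw [Matrix.mul_smul, Matrix.smul_mul, Matrix.smul_apply]
    simp
  | add p q hp hq =>
    intro B i j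
    rw [map_add, LinearMap.add_apply, Matrix.mul_add, Matrix.add_mul, Matrix.add_apply, hp, hq,
      Polynomial.eval_add]
    push_cast
    ring
  | monomial k c ih =>
    intro B i j
    have e1 : (Polynomial.C c * Polynomial.X ^ (k + 1)).eval ((h i - h j) ^ 2) =
        (Polynomial.C c * Polynomial.X ^ k).eval ((h i - h j) ^ 2) * (h i - h j) ^ 2 := by
      simp only [Polynomial.eval_mul, Polynomial.eval_C, Polynomial.eval_pow, Polynomial.eval_X]
      ring
    rw [e1]
    rw [pow_succ, ← mul_assoc, map_mul, Module.End.mul_apply, ih, Polynomial.aeval_X,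
      j15664_L_conj hQ]
    push_cast
    ring

lemma j15664_mem {n : ℕ} (W : Submodule ℝ (Mat n)) {A : Mat n}
    (hL : ∀ B ∈ W, j15664_L A B ∈ W) (P : Polynomial ℝ) :
    ∀ B ∈ W, Polynomial.aeval (j15664_L A) P B ∈ W := by
  induction P using Polynomial.induction_on with
  | C c =>
    intro B hB
    rw [Polynomial.aeval_C, Module.algebraMap_end_apply]
    exact W.smul_mem c hB
  | add p q hp hq =>
    intro B hB
    rw [map_add, LinearMap.add_apply]
    exact W.add_mem (hp B hB) (hq B hB)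
  | monomial k c ih =>
    intro B hB
    rw [pow_succ, ← mul_assoc, map_mul, Module.End.mul_apply, Polynomial.aeval_X]
    exact ih _ (hL B hB)

theorem sinh_surj {n : ℕ} (W : Submodule ℝ (Mat n)) (hWH : ∀ A ∈ W, A.IsHermitian)
    (hlt : ∀ A ∈ W, ∀ B ∈ W, ∀ C ∈ W, ⁅A, ⁅B, C⁆⁆ ∈ W) {A : Mat n} (hA : A ∈ W)
    {C : Mat n} (hC : C ∈ W) :
    ∃ B ∈ W, fderiv ℝ (NormedSpace.exp : Mat n → Mat n) A B * NormedSpace.exp (-A) +
        NormedSpace.exp (-A) * fderiv ℝ (NormedSpace.exp : Mat n → Mat n) A B = C := by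
  classical
  have hH := hWH A hA
  set Q : Mat n := (hH.eigenvectorUnitary : Mat n) with hQd
  have hQ : Q ∈ unitary (Mat n) := hH.eigenvectorUnitary.2
  have h1 : star Q * Q = 1 := (Unitary.mem_iff.1 hQ).1
  have h2 : Q * star Q = 1 := (Unitary.mem_iff.1 hQ).2
  set h : Fin n → ℝ := hH.eigenvalues with hh
  have hAQ : A = Q * Matrix.diagonal (fun i => (h i : ℂ)) * star Q := by
    have h3 := hH.spectral_theorem
    rw [Unitary.conjStarAlgAut_apply] at h3
    exact h3
  have hL : ∀ B ∈ W, j15664_L A B ∈ W := fun B hB => hlt A hA A hA B hB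
  let s : Finset ℝ := Finset.univ.image (fun p : Fin n × Fin n => (h p.1 - h p.2) ^ 2)
  let P : Polynomial ℝ := Lagrange.interpolate s id j15664_R
  have hP : ∀ i j, P.eval ((h i - h j) ^ 2) = j15664_R ((h i - h j) ^ 2) := by
    intro i j
    exact Lagrange.eval_interpolate_at_node (s := s) (v := id) j15664_R (Set.injOn_id _)
      (Finset.mem_image.2 ⟨(i, j), Finset.mem_univ _, rfl⟩)
  refine ⟨Polynomial.aeval (j15664_L A) P C, j15664_mem W hL P C hC, ?_⟩
  rw [hAQ, j15664_T hQ]
  have h4 : Matrix.of (fun i j => ((j15664_S (h i) (h j) : ℝ) : ℂ) *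
      (star Q * (Polynomial.aeval (j15664_L (Q * Matrix.diagonal (fun i => (h i : ℂ)) * star Q)) P
      C) * Q) i j) = star Q * C * Q := by
    ext i j
    rw [Matrix.of_apply, j15664_poly hQ, hP, ← mul_assoc, ← Complex.ofReal_mul, j15664_SR]
    simp
  rw [h4]
  calc Q * (star Q * C * Q) * star Q = (Q * star Q) * C * (Q * star Q) := by
        simp only [Matrix.mul_assoc]
    _ = C := by rw [h2, Matrix.mul_one, Matrix.one_mul]

end K3x

alias sinh_surj := K3x.sinh_surj

end MP2482e4
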