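import Pool.Agent.Helper707.EC.Defs

set_option autoImplicit false
set_option maxHeartbeats 1000000

open Matrix Topology
open scoped ContDiff ComplexOrder Matrix.Norms.L2Operator

namespace MP2482e4

namespace K4x


theorem cc_zero_of_posDef {n : ℕ} {τ C : Mat n} (hτ : τ.PosDef) (h : Cᴴ * τ * C = 0) : C = 0 := by
  have h1 : ∀ v : Fin n → ℂ, C *ᵥ v = 0 := by
    intro v
    by_contra hne
    have h2 := hτ.dotProduct_mulVec_pos hne
    have h3 : star (C *ᵥ v) ⬝ᵥ (τ *ᵥ (C *ᵥ v)) = star v ⬝ᵥ ((Cᴴ * τ * C) *ᵥ v) := by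
      rw [Matrix.star_mulVec, ← Matrix.dotProduct_mulVec, Matrix.mulVec_mulVec, Matrix.mulVec_mulVec,
        Matrix.mul_assoc]
    rw [h3, h, Matrix.zero_mulVec, dotProduct_zero] at h2
    exact lt_irrefl _ h2
  ext i j
  have h2 := congrFun (h1 (Pi.single j 1)) i
  rw [Matrix.mulVec_single_one] at h2
  exact h2

theorem commute_of_critical {n : ℕ} (W : Submodule ℝ (Mat n))
    (hWH : ∀ A ∈ W, A.IsHermitian)
    (hlt : ∀ A ∈ W, ∀ B ∈ W, ∀ C ∈ W, ⁅A, ⁅B, C⁆⁆ ∈ W) {τ : Mat n} (hτ : τ.PosDef)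
    (hcrit : ∀ C ∈ W, (C * (τ - τ⁻¹)).trace.re = 0)
    (hact : ∀ A ∈ W, ∀ B ∈ W, ∃ C ∈ W, ⁅⁅A, B⁆, τ⁆ = C * τ + τ * C) :
    ∀ A ∈ W, ∀ B ∈ W, ⁅⁅A, B⁆, τ⁆ = 0 := by
  intro A hA B hB
  obtain ⟨C, hC, hrel⟩ := hact A hA B hB
  obtain ⟨S, hS⟩ : ∃ S, S = ⁅A, B⁆ := ⟨_, rfl⟩
  rw [← hS] at hrel ⊢
  have hD : ⁅S, C⁆ ∈ W := by
    have h1 := W.neg_mem (hlt C hC A hA B hB)
    rw [← hS] at h1
    have h2 : -⁅C, S⁆ = ⁅S, C⁆ := by rw [Ring.lie_def, Ring.lie_def]; abel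
    rwa [h2] at h1
  have hcr := hcrit _ hD
  have hu : IsUnit τ.det := (Matrix.isUnit_iff_isUnit_det _).1 hτ.isUnit
  have hi1 : τ * τ⁻¹ = 1 := Matrix.mul_nonsing_inv τ hu
  have hi2 : τ⁻¹ * τ = 1 := Matrix.nonsing_inv_mul τ hu
  have hr1 : S * τ - τ * S = C * τ + τ * C := by
    rw [← Ring.lie_def]; exact hrel
  have hr2 : τ⁻¹ * S - S * τ⁻¹ = τ⁻¹ * C + C * τ⁻¹ := by
    have h1 : τ⁻¹ * (S * τ - τ * S) * τ⁻¹ = τ⁻¹ * (C * τ + τ * C) * τ⁻¹ := by rw [hr1]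
    have h2 : ∀ X : Mat n, τ⁻¹ * (X * τ) * τ⁻¹ = τ⁻¹ * X := by
      intro X
      calc τ⁻¹ * (X * τ) * τ⁻¹ = τ⁻¹ * X * (τ * τ⁻¹) := by simp only [Matrix.mul_assoc]
        _ = _ := by rw [hi1, Matrix.mul_one]
    have h3 : ∀ X : Mat n, τ⁻¹ * (τ * X) * τ⁻¹ = X * τ⁻¹ := by
      intro X
      calc τ⁻¹ * (τ * X) * τ⁻¹ = (τ⁻¹ * τ) * X * τ⁻¹ := by simp only [Matrix.mul_assoc]
        _ = _ := by rw [hi2, Matrix.one_mul]
    rw [Matrix.mul_sub, Matrix.sub_mul, Matrix.mul_add, Matrix.add_mul, h2, h3, h2, h3] at h1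
    exact h1
  have ht : ∀ X : Mat n, (⁅S, C⁆ * X).trace = (C * (X * S - S * X)).trace := by
    intro X
    rw [Ring.lie_def, Matrix.sub_mul, Matrix.mul_sub, Matrix.trace_sub, Matrix.trace_sub]
    congr 1
    · rw [Matrix.mul_assoc, Matrix.trace_mul_comm, Matrix.mul_assoc]
    · rw [Matrix.mul_assoc]
  have ht1 : (⁅S, C⁆ * τ).trace = -(2 * (Cᴴ * τ * C).trace) := by
    rw [ht, (hWH C hC).eq]
    have h1 : τ * S - S * τ = -(C * τ + τ * C) := by rw [← hr1]; abel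
    rw [h1, Matrix.mul_neg, Matrix.trace_neg, Matrix.mul_add, Matrix.trace_add,
      Matrix.trace_mul_comm C (C * τ), ← Matrix.mul_assoc C τ C]
    ring
  have ht2 : (⁅S, C⁆ * τ⁻¹).trace = 2 * (Cᴴ * τ⁻¹ * C).trace := by
    rw [ht, (hWH C hC).eq, hr2, Matrix.mul_add, Matrix.trace_add,
      Matrix.trace_mul_comm C (C * τ⁻¹), ← Matrix.mul_assoc C τ⁻¹ C]
    ring
  rw [Matrix.mul_sub, Matrix.trace_sub, ht1, ht2] at hcr
  have hp1 := (hτ.posSemidef.conjTranspose_mul_mul_same C)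
  have hp2 := (hτ.inv.posSemidef.conjTranspose_mul_mul_same C)
  have hn1 := hp1.trace_nonneg
  have hn2 := hp2.trace_nonneg
  rw [Complex.le_def] at hn1 hn2
  simp only [Complex.zero_re, Complex.zero_im] at hn1 hn2
  have hre : (Cᴴ * τ * C).trace.re = 0 := by
    simp only [Complex.sub_re, Complex.neg_re, Complex.mul_re, Complex.re_ofNat, Complex.im_ofNat,
      zero_mul, sub_zero] at hcr
    linarith [hn1.1, hn2.1]
  have htr : (Cᴴ * τ * C).trace = 0 := Complex.ext hre hn1.2.symm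
  have hz := hp1.trace_eq_zero_iff.1 htr
  have hC0 := cc_zero_of_posDef hτ hz
  rw [hrel, hC0]
  simp

end K4x

alias commute_of_critical := K4x.commute_of_critical

end MP2482e4
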