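import Pool.Agent.Helper707.EC.Defs
import Pool.Agent.Helper707.EC.J7a

set_option autoImplicit false
set_option maxHeartbeats 1000000

open Matrix Topology
open scoped ContDiff ComplexOrder Matrix.Norms.L2Operator

namespace MP2482e4

namespace K5x


theorem exp_conj_both {n : ℕ} (W g : Submodule ℝ (Mat n)) (hWg : W ≤ g)
    (hgg : ∀ A ∈ g, ∀ B ∈ g, A * B - B * A ∈ g) {A : Mat n} (hA : A ∈ W) :
    IsUnit (NormedSpace.exp A) ∧ ∀ Z ∈ g,
      NormedSpace.exp A * Z * (NormedSpace.exp A)⁻¹ ∈ g ∧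
        (NormedSpace.exp A)⁻¹ * Z * NormedSpace.exp A ∈ g := by
  have hA' : ∀ Z ∈ g, A * Z - Z * A ∈ g := fun Z hZ => hgg A (hWg hA) Z hZ
  refine ⟨Matrix.isUnit_exp A, fun Z hZ => ⟨?_, ?_⟩⟩
  · have h := exp_conj_mem g hA' 1 hZ
    rw [one_smul, Matrix.exp_neg] at h
    exact h
  · have h := exp_conj_mem g hA' (-1) hZ
    rw [neg_one_smul, neg_neg, Matrix.exp_neg] at h
    exact h

end K5x

alias exp_conj_both := K5x.exp_conj_both

end MP2482e4
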