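import Pool.Agent.Helper707.EC.Defs
import Pool.Agent.Helper707.EC.J4
import Pool.Agent.Helper707.EC.J8
import Pool.Agent.Helper707.EC.J9
import Pool.Agent.Helper707.EC.K1
import Pool.Agent.Helper707.EC.K2
import Pool.Agent.Helper707.EC.K3
import Pool.Agent.Helper707.EC.K4
import Pool.Agent.Helper707.EC.K5

set_option autoImplicit false
set_option maxHeartbeats 1000000

open Matrix Topology
open scoped ContDiff ComplexOrder Matrix.Norms.L2Operator

namespace MP2482e4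

namespace K6x


theorem nf_star_lie {n : ℕ} {B C : Mat n} (hB : B.IsHermitian) (hC : C.IsHermitian) :
    star ⁅B, C⁆ = -⁅B, C⁆ := by
  rw [Ring.lie_def, star_sub, star_mul, star_mul]
  have h1 : star B = B := hB
  have h2 : star C = C := hC
  rw [h1, h2, neg_sub]

/-- the argument in one direction: transport along `γ = exp A` -/
theorem nf_transport {n : ℕ} (W : Submodule ℝ (Mat n)) (hWH : ∀ A ∈ W, A.IsHermitian)
    (hlt : ∀ A ∈ W, ∀ B ∈ W, ∀ C ∈ W, ⁅A, ⁅B, C⁆⁆ ∈ W) {τ : Mat n} (hτ : τ.PosDef)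
    (h : ∀ A ∈ W, ∀ B ∈ W, ∃ C ∈ W, ⁅⁅A, B⁆, τ⁆ = C * τ + τ * C) {A : Mat n} (hA : A ∈ W) :
    ∀ B ∈ W, ∀ C ∈ W, ∃ D ∈ W, ⁅⁅B, C⁆, NormedSpace.exp A * τ * NormedSpace.exp A⁆ =
      D * (NormedSpace.exp A * τ * NormedSpace.exp A) +
        (NormedSpace.exp A * τ * NormedSpace.exp A) * D := by
  obtain ⟨g, hWg, hgg, hact⟩ := exists_lie_closure W hWH hlt h
  obtain ⟨hu, hconj⟩ := exp_conj_both W g hWg hgg hA
  have h1 := orbit_tangent W g hWg hτ hact hWH hu hconj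
  have hstar : star (NormedSpace.exp A) = NormedSpace.exp A := (hWH A hA).exp
  rw [hstar] at h1
  intro B hB C hC
  have hZ : ⁅B, C⁆ ∈ g := by
    rw [Ring.lie_def]
    exact hgg B (hWg hB) C (hWg hC)
  obtain ⟨D, hD, hDe⟩ := h1 _ hZ
  refine ⟨D, hD, ?_⟩
  rw [← hDe, nf_star_lie (hWH B hB) (hWH C hC), mul_neg, ← sub_eq_add_neg]
  exact Ring.lie_def _ _

theorem nf_posDef {n : ℕ} {τ A : Mat n} (hτ : τ.PosDef) (hA : A.IsHermitian) :
    (NormedSpace.exp A * τ * NormedSpace.exp A).PosDef := by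
  have hstar : star (NormedSpace.exp A) = NormedSpace.exp A := hA.exp
  have h1 := (Matrix.IsUnit.posDef_star_right_conjugate_iff (x := τ) (Matrix.isUnit_exp A)).2 hτ
  rwa [hstar] at h1

theorem nf_cancel {n : ℕ} (τ A : Mat n) :
    NormedSpace.exp (-A) * (NormedSpace.exp A * τ * NormedSpace.exp A) * NormedSpace.exp (-A) =
      τ := by
  have hu := Matrix.isUnit_exp A
  have hd : IsUnit (NormedSpace.exp A).det := (Matrix.isUnit_iff_isUnit_det _).1 hu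
  rw [Matrix.exp_neg]
  have h1 : (NormedSpace.exp A)⁻¹ * NormedSpace.exp A = 1 := Matrix.nonsing_inv_mul _ hd
  have h2 : NormedSpace.exp A * (NormedSpace.exp A)⁻¹ = 1 := Matrix.mul_nonsing_inv _ hd
  calc (NormedSpace.exp A)⁻¹ * (NormedSpace.exp A * τ * NormedSpace.exp A) *
        (NormedSpace.exp A)⁻¹ =
      ((NormedSpace.exp A)⁻¹ * NormedSpace.exp A) * τ *
        (NormedSpace.exp A * (NormedSpace.exp A)⁻¹) := by noncomm_ring
    _ = τ := by rw [h1, h2, one_mul, mul_one]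

theorem normal_form {n : ℕ} (W : Submodule ℝ (Mat n)) (hWH : ∀ A ∈ W, A.IsHermitian)
    (hlt : ∀ A ∈ W, ∀ B ∈ W, ∀ C ∈ W, ⁅A, ⁅B, C⁆⁆ ∈ W) {τ : Mat n} (hτ : τ.PosDef) :
    (∀ A ∈ W, ∀ B ∈ W, ∃ C ∈ W, ⁅⁅A, B⁆, τ⁆ = C * τ + τ * C) ↔
      ∃ A ∈ W, ∀ B ∈ W, ∀ C ∈ W, ⁅⁅B, C⁆, NormedSpace.exp A * τ * NormedSpace.exp A⁆ = 0 := by
  constructor
  · intro h
    obtain ⟨A, hA, hmin⟩ := exists_min W hWH hτ
    refine ⟨A, hA, ?_⟩
    refine commute_of_critical W hWH hlt (nf_posDef hτ (hWH A hA)) ?_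
      (nf_transport W hWH hlt hτ h hA)
    intro C hC
    obtain ⟨B, hB, hBC⟩ := sinh_surj W hWH hlt hA hC
    have h1 := critical W hτ hA hmin hB
    rwa [hBC] at h1
  · rintro ⟨A, hA, h⟩
    have h0 : ∀ B ∈ W, ∀ C ∈ W, ∃ D ∈ W, ⁅⁅B, C⁆, NormedSpace.exp A * τ * NormedSpace.exp A⁆ =
        D * (NormedSpace.exp A * τ * NormedSpace.exp A) +
          (NormedSpace.exp A * τ * NormedSpace.exp A) * D := by
      intro B hB C hC
      refine ⟨0, zero_mem _, ?_⟩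
      rw [h B hB C hC, zero_mul, mul_zero, add_zero]
    have h1 := nf_transport W hWH hlt (nf_posDef hτ (hWH A hA)) h0 (neg_mem hA)
    rw [nf_cancel] at h1
    exact h1

end K6x

alias normal_form := K6x.normal_form

end MP2482e4
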